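import Pool.Agent.H240.GU.Def5
import Pool.Agent.H240.CG.EDef

/-!
# Ergodicity of the geodesic flow, with a chart of the collar: definitions and statements
-/

set_option autoImplicit false
set_option linter.unusedSectionVars false

open Set Filter Topology MeasureTheory
open scoped ContDiff ComplexConjugate Real

noncomputable section

namespace Pool.Agent.H240.EV

open Pool.Agent.Y262.EG Pool.Agent.Y262.EX Pool.Agent.H240.SG Pool.Agent.H240.CG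
open Pool.Agent.H240.GU Pool.Agent.H240.GV

/-- the class of surfaces of `Cls2`, with a chart `Γ` of the collar; `ℓ` is a logarithm of `Γ'` -/
structure Cls3 {M : Type} [TopologicalSpace M] (Ω : Set ℂ) (φ : ℂ → ℝ) (pr : ℂ → M)
    (Γ ℓ : ℂ → ℂ) (L δ δ' κ C x0 : ℝ) (g : ℝ → ℝ) : Prop where
  posL : 0 < L
  posδ : 0 < δ
  ltδ : δ < δ'
  posκ : 0 < κ
  x0p : 0 < x0
  x0L : x0 < L
  hol : DifferentiableOn ℂ Γ (Stp L δ')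
  maps : ∀ z ∈ Stp L δ', Γ z ∈ Ω
  lhol : DifferentiableOn ℂ ℓ (Stp L δ')
  lexp : ∀ z ∈ Stp L δ', Complex.exp (ℓ z) = deriv Γ z
  rot : ∀ z ∈ Stp L δ', φ (Γ z) + (ℓ z).re = g z.re
  gs : ContDiffOn ℝ ∞ g (Ioo (-δ') (L + δ'))
  g0 : g x0 = 0
  g1 : HasDerivAt g 0 x0
  per : ∀ z ∈ Stp L δ', pr (Γ (z + 2 * Real.pi * Complex.I)) = pr (Γ z)
  inj : ∀ z ∈ Stp L δ', ∀ w ∈ Stp L δ', pr (Γ z) = pr (Γ w) →
    ∃ n : ℤ, w = z + n * (2 * Real.pi * Complex.I)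
  neg : ∀ z ∈ Ω, curv φ z ≤ 0
  low : ∀ z ∈ Ω, -κ < curv φ z → ∃ w ∈ Stp L δ, pr (Γ w) = pr z
  zero : ∀ z ∈ Ω, curv φ z = 0 → ∃ w : ℂ, w.re = x0 ∧ pr (Γ w) = pr z
  der : ∀ z ∈ Ω, Real.exp (-φ z) * ‖fderiv ℝ (curv φ) z‖ ≤ C * |curv φ z| ^ (39 / 40 : ℝ)
  conn : IsPreconnected (univ : Set M)

/-- the map of the unit vectors -/
def Tx (Γ ℓ : ℂ → ℂ) (p : Y) : Y := (Γ p.1, p.2 + (ℓ p.1).im)

/-- `EV-1`: a logarithm of the derivative -/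
def StLg : Prop :=
  ∀ (Γ : ℂ → ℂ) (S : Set ℂ), IsOpen S → Convex ℝ S → DifferentiableOn ℂ Γ S →
    (∀ z ∈ S, deriv Γ z ≠ 0) →
    ∃ ℓ : ℂ → ℂ, DifferentiableOn ℂ ℓ S ∧ ∀ z ∈ S, Complex.exp (ℓ z) = deriv Γ z

/-- `EV-2`: transfer of the geodesic equation -/
def StTrX : Prop :=
  ∀ (Ω : Set ℂ) (φ : ℂ → ℝ) (Γ ℓ : ℂ → ℂ) (S : Set ℂ) (ψ : ℂ → ℝ), IsOpen Ω → IsOpen S →
    ContDiffOn ℝ ∞ φ Ω → DifferentiableOn ℂ Γ S → (∀ z ∈ S, Γ z ∈ Ω) → DifferentiableOn ℂ ℓ S →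
    (∀ z ∈ S, Complex.exp (ℓ z) = deriv Γ z) → (∀ z ∈ S, φ (Γ z) + (ℓ z).re = ψ z) →
    (∀ (b : ℝ → Y) (t : ℝ), (b t).1 ∈ S → HasDerivAt b (XX ψ (b t)) t →
      HasDerivAt (fun t => Tx Γ ℓ (b t)) (XX φ (Tx Γ ℓ (b t))) t) ∧
    ∀ (b : ℝ → Y) (t : ℝ), (b t).1 ∈ S → ContinuousAt b t →
      HasDerivAt (fun t => Tx Γ ℓ (b t)) (XX φ (Tx Γ ℓ (b t))) t → HasDerivAt b (XX ψ (b t)) t

/-- `EV-3`: Clairaut, for curves: a geodesic which stays long in the cylinder is almost parallel to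
the closed geodesic -/
def StClair3 : Prop :=
  ∀ (L δ δ' x0 : ℝ) (g : ℝ → ℝ), 0 < L → 0 < δ → δ < δ' → 0 < x0 → x0 < L →
    ContDiffOn ℝ ∞ g (Ioo (-δ') (L + δ')) → g x0 = 0 → HasDerivAt g 0 x0 →
    (∀ x ∈ Ioo (-δ') (L + δ'), 0 ≤ deriv (deriv g) x) →
    ∃ C : ℝ, ∀ (b : ℝ → Y) (l : ℝ), 1 ≤ l →
      (∀ t ∈ Icc 0 l, (b t).1 ∈ Stp L δ ∧ HasDerivAt b (XX (fun z => g z.re) (b t)) t) →
      |Real.exp (g (b 0).1.re) * (|Real.sin (b 0).2|) - 1| ≤ C / l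

/-- `EV-4`: few vectors stay long in the region of small curvature -/
def StClP3 : Prop :=
  ∀ (M P : Type) [MetricSpace M] [CompactSpace M] [MetricSpace P] [CompactSpace P]
    [MeasurableSpace P] [BorelSpace P] (Ω : Set ℂ) (φ : ℂ → ℝ) (pr : ℂ → M) (q : Y → P)
    (m : Measure P) (Fl : ℝ → Y → Y) (Γ ℓ : ℂ → ℂ) (L δ δ' κ C x0 : ℝ) (g : ℝ → ℝ),
    IsUT Ω φ pr q → IsLiou Ω φ q m → IsGeo Ω φ Fl → Cls3 Ω φ pr Γ ℓ L δ δ' κ C x0 g →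
    ∃ C' : ℝ, ∀ l : ℝ, 1 ≤ l →
      m {x | ∀ t ∈ Icc 0 l, kP Ω φ q (FlP Ω q Fl t x) < κ} ≤ ENNReal.ofReal (C' / Real.sqrt l)

/-- `EV-5`: the constants on the two sides of the closed geodesic agree -/
def StCross3 : Prop :=
  ∀ (M P : Type) [MetricSpace M] [CompactSpace M] [MetricSpace P] [CompactSpace P]
    (Ω : Set ℂ) (φ : ℂ → ℝ) (pr : ℂ → M) (q : Y → P)
    (Fl : ℝ → Y → Y) (Γ ℓ : ℂ → ℂ) (L δ δ' κ C x0 : ℝ) (g : ℝ → ℝ), IsUT Ω φ pr q →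
    IsGeo Ω φ Fl → Cls3 Ω φ pr Γ ℓ L δ δ' κ C x0 g →
    ∀ f : P → ℝ, (∀ t, ∀ p ∈ YO Ω, f (q (Fl t p)) = f (q p)) →
    ∀ a : M → ℝ, LocC Ω φ pr q f a → ∀ z ∈ Stp L δ', ∀ w ∈ Stp L δ', z.re ≠ x0 → w.re ≠ x0 →
      curv φ (Γ z) < 0 ∧ a (pr (Γ z)) = a (pr (Γ w))

/-- `EV-6`: ergodicity in the class -/
def StErg3 : Prop :=
  ∀ (M P : Type) [MetricSpace M] [CompactSpace M] [MetricSpace P] [CompactSpace P]
    [MeasurableSpace P] [BorelSpace P] (Ω : Set ℂ) (φ : ℂ → ℝ) (pr : ℂ → M) (q : Y → P)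
    (m : Measure P) (Fl : ℝ → Y → Y) (Γ ℓ : ℂ → ℂ) (L δ δ' κ C x0 : ℝ) (g : ℝ → ℝ),
    IsUT Ω φ pr q → IsLiou Ω φ q m → IsGeo Ω φ Fl → Cls3 Ω φ pr Γ ℓ L δ δ' κ C x0 g →
    Erg Ω q m Fl

/-- `EV-7`: ergodicity of the geodesic flow of a surface whose curvature is negative except on one
closed geodesic with a rotationally symmetric holomorphic collar -/
def StErgG : Prop :=
  ∀ (M P : Type) [MetricSpace M] [CompactSpace M] [MetricSpace P] [CompactSpace P]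
    [MeasurableSpace P] [BorelSpace P] (Ω : Set ℂ) (φ : ℂ → ℝ) (pr : ℂ → M) (q : Y → P)
    (m : Measure P) (Fl : ℝ → Y → Y) (Γ : ℂ → ℂ) (r C : ℝ) (G : ℝ → ℝ), IsUT Ω φ pr q →
    IsLiou Ω φ q m → IsGeo Ω φ Fl → Cg Ω pr Γ r → IsPreconnected (univ : Set M) →
    ContDiff ℝ ∞ G → (∀ z : ℂ, |z.re| < r → Pb φ Γ z = G z.re) → G 0 = 0 →
    deriv G 0 = 0 → (∀ z ∈ Ω, curv φ z ≤ 0) →
    (∀ z ∈ Ω, curv φ z = 0 → ∃ w : ℂ, w.re = 0 ∧ pr (Γ w) = pr z) →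
    (∀ t : ℝ, |t| < r → |iteratedDeriv 3 G t| ≤ C * (iteratedDeriv 2 G t) ^ (39 / 40 : ℝ)) →
    Erg Ω q m Fl

end Pool.Agent.H240.EV
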