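import Pool.Agent.H240.GU.UnT
import Pool.Agent.H240.GU.Def6
import Pool.Agent.H764.GV.Un1
import Pool.Agent.H167.GV.Fl2
import Pool.Agent.H539.GV.Fou
import Pool.Agent.H79.GV.Emb
import Pool.Agent.H187.GV.Line
import Pool.Agent.H355.GV.Bds
import Pool.Agent.H795.GV.Tay
import Pool.Agent.H643.GV.GeoG
import Pool.Agent.H199.GV.Nr2
import Pool.Agent.H376.GV.StKb2

/-!
# Scars near every closed geodesic of every negatively curved surface: assembly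
-/

set_option autoImplicit false
set_option linter.unusedSectionVars false

open Set Filter Topology MeasureTheory
open scoped ContDiff ComplexConjugate Real

noncomputable section

namespace Pool.Agent.H240.GV

open Pool.Agent.Y262.EG Pool.Agent.Y262.EX Pool.Agent.Y262.EL Pool.Agent.Y262.QE
open Pool.Agent.Y264.QR Pool.Agent.H240.SC Pool.Agent.H240.SG Pool.Agent.H240.CG
open Pool.Agent.H240.AL Pool.Agent.H240.GU Pool.Agent.H240.EV

theorem tUn1 : StUn1 := Pool.Agent.H764.GV.stUn1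
theorem tFl2 : StFl2 := Pool.Agent.H167.GV.stFl2
theorem tFou : StFou := Pool.Agent.H539.GV.stFou
theorem tEmb : StEmb := Pool.Agent.H79.GV.stEmb
theorem tLine : StLine := Pool.Agent.H187.GV.stLine
theorem tBds : StBds := Pool.Agent.H355.GV.stBds
theorem tTay : StTay := Pool.Agent.H795.GV.stTay
theorem tGeoG : StGeoG := Pool.Agent.H643.GV.stGeoG
theorem tNr2 : StNr2 := Pool.Agent.H199.GV.stNr2 tCx
theorem tKb2 : StKb2 := Pool.Agent.H376.GV.stKb2 tCx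

/-- the mean over the closed curve -/
def AvG {M : Type} (pr : ℂ → M) (Γ : ℂ → ℂ) (F : M → ℝ) : ℝ :=
  (2 * π)⁻¹ * ∫ t in (0 : ℝ)..(2 * π), F (pr (Γ (t * Complex.I)))

/-- the closed curve -/
def GmG {M : Type} (pr : ℂ → M) (Γ : ℂ → ℂ) : Set M := range fun t : ℝ => pr (Γ (t * Complex.I))

section

variable {M P : Type} [MetricSpace M] [CompactSpace M] [MetricSpace P] [CompactSpace P]
  [MeasurableSpace M] [BorelSpace M]
  {Ω : Set ℂ} {φ : ℂ → ℝ} {pr : ℂ → M} {q : Y → P} {Γ : ℂ → ℂ} {R0 δ : ℝ}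

theorem line_mem (hδ : 0 < δ) {z : ℂ} (hz : z.re = R0 + δ) : z ∈ Sx (R0 + δ) δ := by
  show |z.re - (R0 + δ)| < δ
  rw [hz, sub_self, abs_zero]
  exact hδ

theorem gm_un (hδ : 0 < δ) (hR : ∀ z ∈ Ω, z.re < R0) :
    Gm (Up Ω pr Γ R0 δ) (R0 + δ) = GmG pr Γ := by
  ext x
  constructor
  · rintro ⟨z, hz, rfl⟩
    have hz' : z.re = R0 + δ := hz
    refine ⟨z.im, ?_⟩
    rw [up_out hR (line_mem hδ hz')]
    have e : z - ((R0 + δ : ℝ) : ℂ) = z.im * Complex.I := by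
      apply Complex.ext
      · rw [Complex.sub_re, Complex.ofReal_re, hz']
        simp
      · rw [Complex.sub_im, Complex.ofReal_im]
        simp
    rw [e]
  · rintro ⟨t, rfl⟩
    have hre : (((R0 + δ : ℝ) : ℂ) + t * Complex.I).re = R0 + δ := by
      rw [Complex.add_re, Complex.ofReal_re]
      simp
    refine ⟨((R0 + δ : ℝ) : ℂ) + t * Complex.I, hre, ?_⟩
    rw [up_out hR (line_mem hδ hre), add_sub_cancel_left]

theorem av_un (hδ : 0 < δ) (hR : ∀ z ∈ Ω, z.re < R0) :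
    Av (Up Ω pr Γ R0 δ) (R0 + δ) = AvG pr Γ := by
  funext F
  unfold Av AvG
  congr 1
  refine intervalIntegral.integral_congr fun t _ => ?_
  have hre : (((R0 + δ : ℝ) : ℂ) + t * Complex.I).re = R0 + δ := by
    rw [Complex.add_re, Complex.ofReal_re]
    simp
  show F (Up Ω pr Γ R0 δ (((R0 + δ : ℝ) : ℂ) + t * Complex.I)) = F (pr (Γ (t * Complex.I)))
  rw [up_out hR (line_mem hδ hre), add_sub_cancel_left]

theorem Cg.mono (h : Cg Ω pr Γ δ) {r : ℝ} (hr : 0 < r) (hrδ : r ≤ δ) : Cg Ω pr Γ r := by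
  have hs : Sx 0 r ⊆ Sx 0 δ := fun z hz => lt_of_lt_of_le (show |z.re - 0| < r from hz) hrδ
  exact ⟨hr, h.hol.mono hs, fun z hz => h.maps z (hs hz), fun z hz => h.d0 z (hs hz),
    fun z hz w hw => h.per z (hs hz) w (hs hw)⟩

/-- the curvature is bounded below -/
theorem low_ex (hUT : IsUT Ω φ pr q) : ∃ K0 : ℝ, 0 ≤ K0 ∧ ∀ z ∈ Ω, -K0 ≤ curv φ z := by
  have hInv := tInv M P Ω φ pr q hUT
  have hcs : ContDiffOn ℝ ∞ (curv φ) Ω := (tFrame Ω φ hUT.opn hUT.smooth).2.2.1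
  obtain ⟨n, hn⟩ := Pool.Agent.H618.GU.EU.cov hUT hcs.continuousOn.neg isOpen_empty
    (empty_subset _) (fun n => (n : ℝ)) (fun n n' hn => by
      show (n : ℝ) ≤ n'
      exact_mod_cast hn) (fun z hz => Or.inl (exists_nat_gt _))
  refine ⟨n, Nat.cast_nonneg _, fun z hz => ?_⟩
  rcases hn z hz with ⟨w, hw, hwz, hwl⟩ | ⟨w, hw, -⟩
  · rw [← (hInv w hw z hz hwz).1]
    have h1 : -curv φ w < n := hwl
    linarith
  · exact absurd hw (notMem_empty _)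

end

/-- the conclusions for one metric in a neighbourhood -/
structure Cn {M P : Type} [MetricSpace M] [MetricSpace P] [MeasurableSpace M] [MeasurableSpace P]
    (Ω : Set ℂ) (φ : ℂ → ℝ) (pr : ℂ → M) (q : Y → P) (K ε : ℝ) (Γ : ℂ → ℂ) (f ψ : M → ℝ)
    (τ1 : ℝ) : Prop where
  τp : 0 < τ1
  sm : ∀ τ : ℝ, 0 ≤ τ → τ < τ1 → Sm Ω φ pr (fun x => f x + τ * ψ x) ε
  geo : ∀ τ : ℝ, 0 ≤ τ → τ < τ1 → ∃ θ0 : ℝ, ∀ Fl : ℝ → Y → Y,
    IsGeo Ω (fun z => φ z + (f (pr z) + τ * ψ (pr z))) Fl →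
      ∀ t : ℝ, (Fl t (Γ 0, θ0)).1 = Γ (t * Complex.I)
  low : ∀ τ : ℝ, 0 ≤ τ → τ < τ1 → ∀ z ∈ Ω,
    -K ≤ curv (fun z => φ z + (f (pr z) + τ * ψ (pr z))) z
  neg : ∀ τ : ℝ, 0 < τ → τ < τ1 → ∀ z ∈ Ω,
    curv (fun z => φ z + (f (pr z) + τ * ψ (pr z))) z < 0
  zer : ∀ z ∈ Ω, curv (fun z => φ z + f (pr z)) z ≤ 0 ∧
    (curv (fun z => φ z + f (pr z)) z = 0 ↔ pr z ∈ GmG pr Γ)
  erg : StErgG → ∀ (m : Measure P) (Fl : ℝ → Y → Y), IsLiou Ω (fun z => φ z + f (pr z)) q m →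
    IsGeo Ω (fun z => φ z + f (pr z)) Fl → Erg Ω q m Fl
  null : ∀ f' : M → ℝ, ContDiffOn ℝ ∞ (fun z => f' (pr z)) Ω → ∀ μ : Measure M,
    IsArea Ω (fun z => φ z + f' (pr z)) pr μ → μ (GmG pr Γ) = 0
  spec : Spec Ω φ pr (AvG pr Γ) f

/-- The final statement. -/
def ConclV : Prop :=
  ∀ (M P : Type) [MetricSpace M] [CompactSpace M] [MetricSpace P] [CompactSpace P]
    [MeasurableSpace M] [BorelSpace M] [MeasurableSpace P] [BorelSpace P] (Ω : Set ℂ) (φ : ℂ → ℝ)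
    (pr : ℂ → M) (q : Y → P) (c : ℝ → ℂ) (R0 : ℝ) (Γ : ℕ → ℂ → ℂ), IsUT Ω φ pr q → Gc Ω φ pr c →
    Ap c Γ → (∀ z ∈ Ω, z.re < R0) → (∀ z ∈ Ω, curv φ z < 0) → IsPreconnected (univ : Set M) →
    (∀ f : M → ℝ, ContDiffOn ℝ ∞ (fun z => f (pr z)) Ω → ∃ μ : Measure M,
      IsArea Ω (fun z => φ z + f (pr z)) pr μ ∧ IsFiniteMeasure μ ∧
      ∃ u lam, EB Ω (fun z => φ z + f (pr z)) pr μ u lam) ∧
    ∃ K : ℝ, ∀ (ε : ℝ) (m : ℕ), 0 < ε → ∃ (n : ℕ) (f ψ : M → ℝ) (τ1 δ : ℝ),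
      Cg Ω pr (Γ n) δ ∧
      (∀ j ≤ m, ∀ t, ‖iteratedDeriv j (fun t : ℝ => Γ n (t * Complex.I)) t -
        iteratedDeriv j c t‖ ≤ ε) ∧ Cn Ω φ pr q K ε (Γ n) f ψ τ1

/-- **The main theorem.** -/
theorem conclV : ConclV := by
  intro M P _ _ _ _ _ _ _ _ Ω φ pr q c R0 Γ hUT hGc hAp hR hneg hconn
  obtain ⟨N1, hN1⟩ := tEmb M P Ω φ pr q c Γ hUT hGc hAp
  obtain ⟨N2, C0, hN2⟩ := tLine M P Ω φ pr q c Γ hUT hGc hAp
  obtain ⟨N3, k, K, hk, hK, hN3⟩ := tBds M P Ω φ pr q c Γ hUT hGc hAp hneg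
  obtain ⟨N4, K', C', hK', hC', hN4⟩ := tTay k K (max C0 0) hk hK (le_max_right _ _)
  obtain ⟨B, θ, hB, hθ, hFl2⟩ := tFl2 k K' hk hK'
  obtain ⟨K0, hK0, hK0'⟩ := low_ex hUT
  -- the flattening in the collar number `n`
  have hstep : ∀ n : ℕ, N1 ≤ n → N2 ≤ n → N3 ≤ n → N4 ≤ n → ∀ δ : ℝ, δ = 1 / ((n : ℝ) + 1) →
      C' * δ ^ 4 ≤ θ * δ ^ 2 → Cg Ω pr (Γ n) δ ∧ δ ≤ 1 ∧
      Bd (Uf Ω φ (Γ n) R0 δ) (R0 + δ) δ k K' (C' * δ ^ 4) ∧ ∃ (w : ℂ → ℝ) (cc r0 : ℝ),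
      Su (Uo Ω R0 δ) (Uf Ω φ (Γ n) R0 δ) (Up Ω pr (Γ n) R0 δ) (Uq Ω q (Γ n) R0 δ) (R0 + δ) δ w cc
        r0 ∧ |cc| ≤ B * δ ∧
      (∀ z ∈ Sx (R0 + δ) δ, |w z| ≤ B * δ ∧ |px w z| ≤ B * δ ∧ |py w z| ≤ B * δ) ∧
      ∀ z ∈ Sx (R0 + δ) δ, |z.re - (R0 + δ)| ≤ δ / 2 →
        Lp2 (fun z => Uf Ω φ (Γ n) R0 δ z + w z) z ≤ B := by
    intro n h1 h2 h3 h4 δ hδ he
    have hCg := hN1 n h1
    have hn0 : (0 : ℝ) < (n : ℝ) + 1 := by positivity
    have hδ1 : δ ≤ 1 := by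
      rw [hδ, div_le_one hn0]
      linarith [show (0 : ℝ) ≤ (n : ℝ) from Nat.cast_nonneg n]
    obtain ⟨b1, b2, b3⟩ := hN3 n h3
    have hline : ∀ z : ℂ, z.re = 0 → |Pb φ (Γ n) z| ≤ max C0 0 / ((n : ℝ) + 1) ^ 4 ∧
        |px (Pb φ (Γ n)) z| ≤ max C0 0 / ((n : ℝ) + 1) ^ 4 ∧
        |py (Pb φ (Γ n)) z| ≤ max C0 0 / ((n : ℝ) + 1) ^ 4 ∧
        |py (py (Pb φ (Γ n))) z| ≤ max C0 0 / ((n : ℝ) + 1) ^ 4 := by
      intro z hz
      obtain ⟨a1, a2, a3, a4⟩ := hN2 n h2 z hz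
      have a5 : C0 / ((n : ℝ) + 1) ^ 4 ≤ max C0 0 / ((n : ℝ) + 1) ^ 4 :=
        div_le_div_of_nonneg_right (le_max_left _ _) (by positivity)
      exact ⟨a1.trans a5, a2.trans a5, a3.trans a5, a4.trans a5⟩
    have hbd := hN4 n (Pb φ (Γ n)) h4 b1 b2 b3 hline
    have hee : C' / ((n : ℝ) + 1) ^ 4 = C' * δ ^ 4 := by
      rw [hδ]
      field_simp
    rw [hee, ← hδ] at hbd
    rw [← hδ] at hCg
    have hbd' := bd_shift hR hbd
    have hUT' := tUn1 M P Ω φ pr q (Γ n) δ R0 hUT hCg hR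
    obtain ⟨hCo', -, -, -⟩ := tUn2 M P Ω φ pr q (Γ n) δ R0 hUT hCg hR
    have hδp := hCg.δp
    obtain ⟨w, cc, r, hFl, hc, hw, hw2, hwB⟩ := hFl2 (Uf Ω φ (Γ n) R0 δ) (R0 + δ) δ (C' * δ ^ 4)
      hδp hδ1 (by positivity) he hbd'
    obtain ⟨-, -, hcxp⟩ := tCx M P _ _ _ _ (R0 + δ) δ hUT' hCo'
    exact ⟨hCg, hδ1, hbd', w, cc, r, ⟨hUT', hCo', hFl, hw2, hcxp⟩, hc, hw, hwB⟩
  have hδt : Tendsto (fun n : ℕ => 1 / ((n : ℝ) + 1)) atTop (𝓝 0) :=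
    tendsto_one_div_add_atTop_nhds_zero_nat
  have hE2 : ∀ᶠ n : ℕ in atTop, C' * (1 / ((n : ℝ) + 1)) ^ 2 < θ := by
    have h1 := (hδt.pow 2).const_mul C'
    rw [zero_pow (by norm_num), mul_zero] at h1
    exact h1.eventually (gt_mem_nhds hθ)
  have hE1 : ∀ᶠ n : ℕ in atTop, N1 ≤ n ∧ N2 ≤ n ∧ N3 ≤ n ∧ N4 ≤ n :=
    (eventually_ge_atTop N1).and ((eventually_ge_atTop N2).and
      ((eventually_ge_atTop N3).and (eventually_ge_atTop N4)))
  have hE2' : ∀ {δ : ℝ}, C' * δ ^ 2 < θ → C' * δ ^ 4 ≤ θ * δ ^ 2 := by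
    intro δ h
    have h1 := mul_le_mul_of_nonneg_right h.le (sq_nonneg δ)
    calc C' * δ ^ 4 = C' * δ ^ 2 * δ ^ 2 := by ring
      _ ≤ θ * δ ^ 2 := h1
  refine ⟨fun f hf => ?_, Real.exp 10 * (B + 1) + Real.exp 4 * K0, fun ε m hε => ?_⟩
  · obtain ⟨n, ⟨h1, h2, h3, h4⟩, h5⟩ := (hE1.and hE2).exists
    obtain ⟨hCg, -, -, w, cc, r0, hSu, -⟩ := hstep n h1 h2 h3 h4 _ rfl (hE2' h5)
    exact all_tr hUT hCg hR hSu hf
  · have hclose := fun j => hAp.close j 1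
    choose Cj hCj using hclose
    have hE3 : ∀ᶠ n : ℕ in atTop,
        K' * (1 / ((n : ℝ) + 1)) ^ 2 + C' * (1 / ((n : ℝ) + 1)) ^ 4 < 1 := by
      have h1 := ((hδt.pow 2).const_mul K').add ((hδt.pow 4).const_mul C')
      rw [zero_pow (by norm_num), zero_pow (by norm_num), mul_zero, mul_zero, add_zero] at h1
      exact h1.eventually (gt_mem_nhds one_pos)
    have hE4 : ∀ᶠ n : ℕ in atTop, B * (1 / ((n : ℝ) + 1)) < min 1 (ε / 10) := by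
      have h1 := hδt.const_mul B
      rw [mul_zero] at h1
      exact h1.eventually (gt_mem_nhds (by positivity))
    have hE5 : ∀ᶠ n : ℕ in atTop,
        (∑ j ∈ Finset.range (m + 1), |Cj j|) * (1 / ((n : ℝ) + 1)) < ε := by
      have h1 := hδt.const_mul (∑ j ∈ Finset.range (m + 1), |Cj j|)
      rw [mul_zero] at h1
      exact h1.eventually (gt_mem_nhds hε)
    obtain ⟨n, ⟨⟨h1, h2, h3, h4⟩, h5⟩, h6, h7, h8⟩ :=
      ((hE1.and hE2).and (hE3.and (hE4.and hE5))).exists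
    obtain ⟨δ, hδ⟩ : ∃ δ : ℝ, δ = 1 / ((n : ℝ) + 1) := ⟨_, rfl⟩
    rw [← hδ] at h5 h6 h7 h8
    obtain ⟨hCg, hδ1, hbd, w, cc, r0, hSu, hc, hw, hwB⟩ := hstep n h1 h2 h3 h4 δ hδ (hE2' h5)
    have hδp := hCg.δp
    obtain ⟨hCo', hcurv', hsm', -⟩ := tUn2 M P Ω φ pr q (Γ n) δ R0 hUT hCg hR
    have hB1 : B * δ ≤ 1 := h7.le.trans (min_le_left _ _)
    have hB2 : 10 * (B * δ) ≤ ε := by
      have := h7.le.trans (min_le_right _ _)
      linarith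
    have hε1 : 0 < B * δ := by positivity
    have hcur : ∀ z ∈ Uo Ω R0 δ, ∃ v ∈ Ω, curv (Uf Ω φ (Γ n) R0 δ) z = curv φ v := by
      rintro z (hz | hz)
      · exact ⟨z, hz, curv_congr (ev_p hUT.opn hz)⟩
      · exact ⟨_, hCg.maps _ (sh_mem hz), hcurv' z hz⟩
    have hneg' : ∀ z ∈ Uo Ω R0 δ, curv (Uf Ω φ (Γ n) R0 δ) z < 0 := fun z hz => by
      obtain ⟨v, hv, he⟩ := hcur z hz
      rw [he]
      exact hneg v hv
    have hlow' : ∀ z ∈ Uo Ω R0 δ, -K0 ≤ curv (Uf Ω φ (Γ n) R0 δ) z := fun z hz => by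
      obtain ⟨v, hv, he⟩ := hcur z hz
      rw [he]
      exact hK0' v hv
    have hφ1 : ∀ z ∈ Sx (R0 + δ) δ, |Uf Ω φ (Γ n) R0 δ z| ≤ 1 := by
      intro z hz
      have a1 := hbd.low z hz
      have a2 := hbd.upp z hz
      have a3 : (z.re - (R0 + δ)) ^ 2 ≤ δ ^ 2 := by
        rw [← sq_abs]
        have : |z.re - (R0 + δ)| < δ := hz
        have h0 := abs_nonneg (z.re - (R0 + δ))
        exact pow_le_pow_left₀ h0 this.le 2
      have a4 : 0 ≤ (z.re - (R0 + δ)) ^ 2 := sq_nonneg _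
      have a5 : K' * (z.re - (R0 + δ)) ^ 2 ≤ K' * δ ^ 2 := mul_le_mul_of_nonneg_left a3 hK'.le
      have a6 : 0 ≤ k * (z.re - (R0 + δ)) ^ 2 := by positivity
      have a7 : 0 ≤ K' * δ ^ 2 := by positivity
      rw [abs_le]
      constructor <;> linarith
    obtain ⟨f, ψ, τ1, hτ1, k1, k2, k3, k4⟩ := core hSu hneg' hε1
    have hsmV : ∀ {H : ℝ → ℝ} {cH : ℝ}, Pf2 δ (B * δ) H cH → ContDiffOn ℝ ∞
        (fun z => Vm (Up Ω pr (Γ n) R0 δ) (R0 + δ) δ w cc H cH (pr z)) Ω := fun hH =>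
      smooth_in (hSu.vsm hH.sm hH.far _)
    have hgeoV : ∀ {H : ℝ → ℝ} {cH : ℝ}, Pf2 δ (B * δ) H cH → ∃ θ0 : ℝ, ∀ Fl : ℝ → Y → Y,
        IsGeo Ω (fun z => φ z + Vm (Up Ω pr (Γ n) R0 δ) (R0 + δ) δ w cc H cH (pr z)) Fl →
          ∀ t : ℝ, (Fl t (Γ n 0, θ0)).1 = Γ n (t * Complex.I) := by
      intro H cH hH
      refine tGeoG M P Ω _ pr q (Γ n) δ (ut_smooth hUT (hsmV hH)) hCg fun z hz => ?_
      obtain ⟨g1, -, -⟩ := hSu.r0p
      have hO : IsOpen {z : ℂ | |z.re| < r0} := isOpen_lt (by fun_prop) continuous_const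
      have hzO : z ∈ {z : ℂ | |z.re| < r0} := by
        show |z.re| < r0
        rw [hz, abs_zero]
        exact g1
      have e1 : Pb (fun z => φ z + Vm (Up Ω pr (Γ n) R0 δ) (R0 + δ) δ w cc H cH (pr z)) (Γ n)
          =ᶠ[𝓝 z] fun z => (fun t => cH + H t) (z.re - 0) := by
        filter_upwards [hO.mem_nhds hzO] with v hv
        rw [pb_near hR hSu hH (le_of_lt hv), sub_zero]
      refine ⟨?_, ?_⟩
      · rw [e1.eq_of_nhds]
        show cH + H (z.re - 0) = 0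
        rw [hz, sub_zero, hH.z0]
        ring
      · have h3 : Differentiable ℝ fun t => cH + H t :=
          (hH.sm.differentiable (by simp)).const_add cH
        unfold px
        rw [e1.fderiv_eq]
        have h4 := congrFun (Pool.Agent.H591.GU.px_re h3 0) z
        unfold px at h4
        rw [h4, hz, sub_zero, deriv_const_add]
        exact hH.z1
    have hform : ∀ (τ : ℝ) {H : ℝ → ℝ} {cH : ℝ}, (fun x => f x + τ * ψ x) =
        Vm (Up Ω pr (Γ n) R0 δ) (R0 + δ) δ w cc H cH →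
        (fun z => φ z + (f (pr z) + τ * ψ (pr z))) =
          fun z => φ z + Vm (Up Ω pr (Γ n) R0 δ) (R0 + δ) δ w cc H cH (pr z) := by
      intro τ H cH he
      funext z
      rw [← he]
    refine ⟨n, f, ψ, τ1, δ, hCg, fun j hj t => ?_, hτ1,
      fun τ hτ hτ' => ?_, fun τ hτ hτ' => ?_, fun τ hτ hτ' z hz => ?_,
      fun τ hτ hτ' z hz => ?_, fun z hz => ?_, fun hE mm Fl hLi hGe => ?_,
      fun f' hf' μ hμ => ?_, ?_⟩
    · refine (hCj j n t).trans ?_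
      rw [pow_one, div_eq_mul_one_div, ← hδ]
      have a1 : |Cj j| ≤ ∑ j ∈ Finset.range (m + 1), |Cj j| :=
        Finset.single_le_sum (f := fun j => |Cj j|) (fun i _ => abs_nonneg _)
          (Finset.mem_range.2 (by omega))
      have a2 : Cj j * δ ≤ (∑ j ∈ Finset.range (m + 1), |Cj j|) * δ :=
        mul_le_mul_of_nonneg_right ((le_abs_self _).trans a1) hδp.le
      linarith
    · obtain ⟨H, cH, hH, he, -⟩ := k1 τ hτ hτ'
      rw [he]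
      obtain ⟨n1, n2⟩ := tNr2 M P _ _ _ _ (R0 + δ) δ hSu.ut hSu.co hφ1 w cc H cH (B * δ) hSu.fl.cw
        hw hSu.w2 hc hH.sm hH.far (fun t => by
          have e0 := hH.bd 0 (by norm_num) t
          have e1 := hH.bd 1 (by norm_num) t
          rw [iteratedDeriv_zero] at e0
          rw [iteratedDeriv_one] at e1
          exact ⟨e0, e1⟩) hH.bc
      refine ⟨hsmV hH, fun x => (n1 x).trans hB2, fun z hz => ?_⟩
      have h9 := n2 z (un_sub hz)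
      rw [uf_in hz, (ev_f hUT.opn hz _).fderiv_eq] at h9
      exact h9.trans hB2
    · obtain ⟨H, cH, hH, he, -⟩ := k1 τ hτ hτ'
      rw [hform τ he]
      exact hgeoV hH
    · obtain ⟨H, cH, hH, he, -⟩ := k1 τ hτ hτ'
      rw [hform τ he]
      have h9 := tKb2 M P _ _ _ _ (R0 + δ) δ hSu.ut hSu.co hφ1 B K0 hB.le hK0 hlow' w cc H cH
        hSu.fl.cw (fun z hz => (hw z hz).1.trans hB1) (hc.trans hB1) hSu.w2 hwB hH.sm hH.far
        (fun j hj t => (hH.bd j hj t).trans hB1) (hH.bc.trans hB1) z (un_sub hz)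
      rwa [curv_in hUT.opn hz] at h9
    · obtain ⟨H, cH, hH, he, hlt⟩ := k1 τ hτ.le hτ'
      rw [hform τ he]
      have h9 := hlt hτ z (un_sub hz)
      rwa [curv_in hUT.opn hz] at h9
    · have h9 := k2 z (un_sub hz)
      rw [curv_in hUT.opn hz, up_in hz, gm_un hδp hR] at h9
      exact h9
    · obtain ⟨H, cH, hH, he, C, hD⟩ := k3
      obtain ⟨g1, g2, g3⟩ := hSu.r0p
      have hfs : ContDiffOn ℝ ∞ (fun z => f (pr z)) Ω := by
        rw [he]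
        exact hsmV hH
      have hGs : ContDiff ℝ ∞ fun t => cH + H t := contDiff_const.add hH.sm
      have hGi : ∀ (j : ℕ), 1 ≤ j → ∀ t, iteratedDeriv j (fun t => cH + H t) t =
          iteratedDeriv j H t := by
        intro j hj t
        rw [itd_add' (f := fun _ => cH) contDiff_const hH.sm, iteratedDeriv_const,
          if_neg (by omega), zero_add]
      have hzz : ∀ z ∈ Ω, curv (fun z => φ z + f (pr z)) z ≤ 0 ∧
          (curv (fun z => φ z + f (pr z)) z = 0 ↔ pr z ∈ GmG pr (Γ n)) := by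
        intro z hz
        have h9 := k2 z (un_sub hz)
        rw [curv_in hUT.opn hz, up_in hz, gm_un hδp hR] at h9
        exact h9
      refine hE M P Ω _ pr q mm Fl (Γ n) r0 C (fun t => cH + H t) (ut_smooth hUT hfs) hLi hGe
        (hCg.mono g1 g2.le) hconn hGs (fun z hz => ?_) (by rw [hH.z0]; ring) ?_
        (fun z hz => (hzz z hz).1) (fun z hz h0 => ?_) fun t ht => ?_
      · rw [he]
        exact pb_near hR hSu hH hz.le
      · rw [deriv_const_add]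
        exact hH.z1
      · obtain ⟨t, ht⟩ := (hzz z hz).2.1 h0
        exact ⟨t * Complex.I, by simp, ht⟩
      · rw [hGi 3 (by norm_num), hGi 2 (by norm_num)]
        exact hD t (ht.le.trans hSu.fl.rL.le)
    · rw [← gm_un hδp hR]
      exact null_tr hUT hCg hR hSu hf' hμ
    · obtain ⟨H, cH, hH, he, -⟩ := k3
      have hfs : ContDiffOn ℝ ∞ (fun z => f (pr z)) Ω := by
        rw [he]
        exact hsmV hH
      rw [av_un hδp hR] at k4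
      exact spec_tr hUT hCg hR hSu hfs k4

end Pool.Agent.H240.GV
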