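import Pool.Agent.H240.GU.Fin4

/-!
# Scars near every negatively curved surface: the construction near a given flattening
-/

set_option autoImplicit false
set_option linter.unusedSectionVars false

open Set Filter Topology MeasureTheory
open scoped ContDiff ComplexConjugate Real

noncomputable section

namespace Pool.Agent.H240.GU

open Pool.Agent.Y262.EG Pool.Agent.Y262.EX Pool.Agent.Y262.EL Pool.Agent.Y262.QE
open Pool.Agent.Y264.QR Pool.Agent.H240.SC Pool.Agent.H240.SG Pool.Agent.H240.CG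
open Pool.Agent.H240.AL

/-- admissible small profiles -/
structure Pf2 (δ ε : ℝ) (H : ℝ → ℝ) (cH : ℝ) : Prop where
  sm : ContDiff ℝ ∞ H
  far : ∀ t, δ / 2 ≤ |t| → H t = 0
  bd : ∀ j ≤ 2, ∀ t, |iteratedDeriv j H t| ≤ ε
  bc : |cH| ≤ ε
  z0 : H 0 = -cH
  z1 : deriv H 0 = 0

/-- the conclusions about the spectrum for the metric `φ + f` -/
structure Spec {M : Type} [TopologicalSpace M] [MeasurableSpace M] (Ω : Set ℂ) (φ : ℂ → ℝ)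
    (pr : ℂ → M) (A : (M → ℝ) → ℝ) (f : M → ℝ) : Prop where
  scar : ∀ μ : Measure M, IsArea Ω (fun z => φ z + f (pr z)) pr μ →
    ∀ (u : ℕ → M → ℝ) (lam : ℕ → ℝ), EB Ω (fun z => φ z + f (pr z)) pr μ u lam →
    Tendsto lam atTop atTop ∧ ∃ J : Set ℕ,
      (∀ C : ℝ, ∃ᶠ Λ : ℝ in atTop, C * √Λ < ({j | j ∈ J ∧ lam j ≤ Λ}.ncard : ℝ)) ∧
      (∀ F : M → ℝ, Continuous F →
        Tendsto (fun j => ∫ x, F x * (u j x) ^ 2 ∂μ) (atTop ⊓ 𝓟 J) (𝓝 (A F))) ∧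
      ∀ ε' : ℝ, 0 < ε' →
        Tendsto (fun j => μ.real {x | ε' ≤ |u j x|}) (atTop ⊓ 𝓟 J) (𝓝 0)
  win : ∀ (T : Finset C(M, ℝ)) (C ε' Λ0 : ℝ), 0 < ε' → ∃ (Λ1 η : ℝ), 0 < η ∧
    ∀ f' : M → ℝ, ContDiffOn ℝ ∞ (fun z => f' (pr z)) Ω → (∀ x, |f' x - f x| < η) →
    ∀ μ : Measure M, IsArea Ω (fun z => φ z + f' (pr z)) pr μ →
    ∀ (u : ℕ → M → ℝ) (lam : ℕ → ℝ), EB Ω (fun z => φ z + f' (pr z)) pr μ u lam →
    ∃ Λ : ℝ, Λ0 ≤ Λ ∧ Λ ≤ Λ1 ∧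
      C * √Λ < ({j | (∀ F ∈ T, |(∫ x, F x * (u j x) ^ 2 ∂μ) - A F| ≤ ε') ∧
        lam j ≤ Λ}.ncard : ℝ)
  val : ∀ C ε' Λ0 : ℝ, 0 < ε' → ∃ (Λ1 η : ℝ), 0 < η ∧
    ∀ f' : M → ℝ, ContDiffOn ℝ ∞ (fun z => f' (pr z)) Ω → (∀ x, |f' x - f x| < η) →
    ∀ μ : Measure M, IsArea Ω (fun z => φ z + f' (pr z)) pr μ →
    ∀ (u : ℕ → M → ℝ) (lam : ℕ → ℝ), EB Ω (fun z => φ z + f' (pr z)) pr μ u lam →
    ∃ Λ : ℝ, Λ0 ≤ Λ ∧ Λ ≤ Λ1 ∧
      C * √Λ < ({j | μ.real {x | ε' ≤ |u j x|} ≤ ε' ∧ lam j ≤ Λ}.ncard : ℝ)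

/-- the construction -/
theorem core {M P : Type} [MetricSpace M] [CompactSpace M] [MetricSpace P] [CompactSpace P]
    [MeasurableSpace M] [BorelSpace M] {Ω : Set ℂ} {φ : ℂ → ℝ} {pr : ℂ → M} {q : Y → P}
    {x0 δ : ℝ} {w : ℂ → ℝ} {c r0 : ℝ} (hSu : Su Ω φ pr q x0 δ w c r0)
    (hneg : ∀ z ∈ Ω, curv φ z < 0) {ε1 : ℝ} (hε1p : 0 < ε1) :
    ∃ (f ψ : M → ℝ) (τ1 : ℝ), 0 < τ1 ∧
      (∀ τ : ℝ, 0 ≤ τ → τ < τ1 → ∃ (H : ℝ → ℝ) (cH : ℝ), Pf2 δ ε1 H cH ∧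
        (fun x => f x + τ * ψ x) = Vm pr x0 δ w c H cH ∧
        (0 < τ → ∀ z ∈ Ω, curv (fun z => φ z + Vm pr x0 δ w c H cH (pr z)) z < 0)) ∧
      (∀ z ∈ Ω, curv (fun z => φ z + f (pr z)) z ≤ 0 ∧
        (curv (fun z => φ z + f (pr z)) z = 0 ↔ pr z ∈ Gm pr x0)) ∧
      (∃ (H : ℝ → ℝ) (cH : ℝ), Pf2 δ ε1 H cH ∧ f = Vm pr x0 δ w c H cH ∧
        ∃ C : ℝ, D3 δ H C) ∧
      Spec Ω φ pr (Av pr x0) f := by
  have hUT := hSu.ut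
  have hCo := hSu.co
  have hδ := hCo.δp
  have hFl := hSu.fl
  have hw2 := hSu.w2
  obtain ⟨μ, D, Φ, hBu⟩ := bu_ex tBase hSu
  obtain ⟨κ0, hκ0, hκ⟩ := tK M P Ω φ pr q x0 δ hUT hCo hneg w c r0 hFl hw2
  set κ1 : ℝ := min (κ0 / 2) (ε1 / 2) with hκ1
  have hκ1p : 0 < κ1 := by positivity
  have hκ1a : κ1 ≤ κ0 / 2 := min_le_left _ _
  have hκ1b : κ1 ≤ ε1 / 2 := min_le_right _ _
  obtain ⟨T, hT⟩ := Pool.Agent.H396.GB.stSeqJ M (fun F => Av pr x0 F) (av_lip hCo hUT.contp)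
  obtain ⟨H, cH, hHt, hHj, ⟨C3, hD3⟩, hHW⟩ := lim_ge tSurf tYU tStab tSer hSu hBu T hκ1p
  -- the direction
  obtain ⟨η, hη1, hη2, hη3, hη4, hη5, hη6⟩ := tEt.2 δ hδ
  choose Kη hKη using hη6
  set Km : ℝ := 1 + (|Kη 0| + |Kη 1| + |Kη 2|) with hKm
  have hKmp : 0 < Km := by positivity
  have hKj : ∀ j ≤ 2, Kη j ≤ Km := by
    intro j hj
    have a0 := le_abs_self (Kη 0)
    have a1 := le_abs_self (Kη 1)
    have a2 := le_abs_self (Kη 2)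
    have b0 := abs_nonneg (Kη 0)
    have b1 := abs_nonneg (Kη 1)
    have b2 := abs_nonneg (Kη 2)
    interval_cases j <;> linarith
  have hKm1 : 1 ≤ Km := by
    have b0 := abs_nonneg (Kη 0)
    have b1 := abs_nonneg (Kη 1)
    have b2 := abs_nonneg (Kη 2)
    linarith
  have hsm : ∀ τ : ℝ, ContDiff ℝ ∞ fun t => H t + τ * η t := fun τ =>
    hHt.sm.add (contDiff_const.mul hη1)
  have hfar : ∀ (τ : ℝ) (t : ℝ), δ / 2 ≤ |t| → H t + τ * η t = 0 := fun τ t ht => by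
    rw [hHt.far t ht, hη2 t ht, mul_zero, add_zero]
  have hz0 : ∀ τ : ℝ, H 0 + τ * η 0 = -(cH + τ) := fun τ => by
    rw [hHt.z0, hη3]
    ring
  have hz1 : ∀ τ : ℝ, deriv (fun t => H t + τ * η t) 0 = 0 := fun τ => by
    have d1 : HasDerivAt H (deriv H 0) 0 := ((hHt.sm.differentiable (by simp)) _).hasDerivAt
    have d2 : HasDerivAt η (deriv η 0) 0 := ((hη1.differentiable (by simp)) _).hasDerivAt
    have d3 : HasDerivAt (fun t => H t + τ * η t) (deriv H 0 + τ * deriv η 0) 0 :=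
      d1.add (d2.const_mul τ)
    rw [d3.deriv, hHt.z1, hη4]
    ring
  have hbd : ∀ τ : ℝ, 0 ≤ τ → τ < κ1 / Km → ∀ j ≤ 2, ∀ t,
      |iteratedDeriv j (fun t => H t + τ * η t) t| ≤ 2 * κ1 := by
    intro τ hτ hτ1 j hj t
    rw [itd_add' hHt.sm (contDiff_const.mul hη1), itd_smul' hη1]
    refine (abs_add_le _ _).trans ?_
    have h1 := hHt.bd j hj t
    rw [abs_mul, abs_of_nonneg hτ]
    have h2 : τ * |iteratedDeriv j η t| ≤ τ * Km :=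
      mul_le_mul_of_nonneg_left ((hKη j t).trans (hKj j hj)) hτ
    have h3 : τ * Km ≤ κ1 := ((lt_div_iff₀ hKmp).1 hτ1).le
    linarith
  have hbc : ∀ τ : ℝ, 0 ≤ τ → τ < κ1 / Km → |cH + τ| ≤ 2 * κ1 := by
    intro τ hτ hτ1
    refine (abs_add_le _ _).trans ?_
    have h1 := hHt.bc
    have h3 : τ * Km ≤ κ1 := ((lt_div_iff₀ hKmp).1 hτ1).le
    have h4 : τ ≤ τ * Km := le_mul_of_one_le_right hτ hKm1
    rw [abs_of_nonneg hτ]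
    linarith
  set f : M → ℝ := Vm pr x0 δ w c H cH with hf
  set ψ : M → ℝ := eH pr x0 δ η 1 with hψ
  have hfψ : ∀ (τ : ℝ) (x : M),
      f x + τ * ψ x = Vm pr x0 δ w c (fun t => H t + τ * η t) (cH + τ) x := by
    intro τ x
    rw [hf, hψ, vm_eq, vm_eq, eH_lin]
    ring
  have hfψ' : ∀ τ : ℝ, (fun x => f x + τ * ψ x) =
      Vm pr x0 δ w c (fun t => H t + τ * η t) (cH + τ) := fun τ => funext (hfψ τ)
  have hfs : ContDiffOn ℝ ∞ (fun z => f (pr z)) Ω := hSu.vsm hHt.sm hHt.far cH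
  have hseq : ∀ μ : Measure M, IsArea Ω (fun z => φ z + f (pr z)) pr μ →
      ∀ (u : ℕ → M → ℝ) (lam : ℕ → ℝ), EB Ω (fun z => φ z + f (pr z)) pr μ u lam →
      Tendsto lam atTop atTop ∧ ∃ J : Set ℕ,
        (∀ C : ℝ, ∃ᶠ Λ : ℝ in atTop, C * √Λ < ({j | j ∈ J ∧ lam j ≤ Λ}.ncard : ℝ)) ∧
        ∀ F : M → ℝ, Continuous F →
          Tendsto (fun j => ∫ x, F x * (u j x) ^ 2 ∂μ) (atTop ⊓ 𝓟 J) (𝓝 (Av pr x0 F)) :=
    fun μ' hμ' u lam hu => seq_of_wu hSu hBu hfs hT hHW hμ' hu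
  have h2κ : 2 * κ1 ≤ ε1 := by linarith
  refine ⟨f, ψ, κ1 / Km, by positivity, fun τ hτ hτ1 => ?_, ?_, ?_, ?_⟩
  · refine ⟨fun t => H t + τ * η t, cH + τ, ⟨hsm τ, hfar τ,
      fun j hj t => (hbd τ hτ hτ1 j hj t).trans h2κ, (hbc τ hτ hτ1).trans h2κ, hz0 τ, hz1 τ⟩,
      hfψ' τ, fun hτp z hz => ?_⟩
    have hHt' : Ht δ κ0 (fun t => H t + τ * η t) (cH + τ) (-1) := by
      refine ⟨hsm τ, hfar τ, fun t ht => ?_, hz0 τ, hz1 τ, fun t _ ht => ?_,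
        fun j hj t => (hbd τ hτ hτ1 j hj t).trans (by linarith),
        (hbc τ hτ hτ1).trans (by linarith)⟩
      · have := abs_nonneg t
        linarith
      · rw [itd_add' hHt.sm (contDiff_const.mul hη1), itd_smul' hη1]
        have h1 := mul_pos hτp (hη5 t ht)
        rcases eq_or_ne t 0 with h2 | h2
        · rw [h2, hHj 2 (by norm_num)]
          rw [h2] at h1
          linarith
        · have h3 := hHt.cvx t (abs_pos.2 h2) ht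
          linarith
    refine ((hκ _ _ (-1) (by linarith [hFl.rp]) hHt') z hz).2 ?_
    rintro ⟨v, hv, -⟩
    have hv' : |v.re - x0| ≤ -1 := hv
    have := abs_nonneg (v.re - x0)
    linarith
  · intro z hz
    obtain ⟨k1, k2⟩ := hκ H cH 0 hFl.rp (hHt.mono (by linarith)) z hz
    refine ⟨k1, fun h0 => ?_, fun hG => hSu.curv0 tCx hHt.sm hHt.far (hHj 2 (by norm_num)) hz hG⟩
    by_contra hcon
    have hnot : pr z ∉ pr '' {z : ℂ | |z.re - x0| ≤ 0} := by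
      rintro ⟨v, hv, hvz⟩
      have hv' : |v.re - x0| ≤ 0 := hv
      exact hcon ⟨v, sub_eq_zero.1 (abs_nonpos_iff.1 hv'), hvz⟩
    exact absurd h0 (k2 hnot).ne
  · exact ⟨H, cH, ⟨hHt.sm, hHt.far, fun j hj t => (hHt.bd j hj t).trans (by linarith),
      hHt.bc.trans (by linarith), hHt.z0, hHt.z1⟩, rfl, C3, hD3⟩
  · refine ⟨fun μ' hμ' u lam hu => ?_,
      fun T' C ε' Λ0 hε' => win_of_seq hSu hBu hfs hseq T' C ε' Λ0 hε',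
      fun C ε' Λ0 hε' => val_of_seq hSu hBu hfs hseq C ε' Λ0 hε'⟩
    obtain ⟨h1, J, h2, h3⟩ := hseq μ' hμ' u lam hu
    obtain ⟨-, -, a4⟩ := all_facts hSu hBu hfs
    obtain ⟨a5, a6, a7⟩ := a4 μ' hμ'
    obtain ⟨-, a8, -⟩ := a7 u lam hu
    refine ⟨h1, J, h2, h3, fun ε' hε' => ?_⟩
    exact collapse a6 a8 (fun K hK hd => loc_of_av hCo hUT.contp a8 h3 K hK hd) hε'

end Pool.Agent.H240.GU
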