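import Pool.Agent.H240.AL.Fin
import Pool.Agent.H240.SC.SurfThm

/-!
# Scars near every negatively curved surface: definitions and statements

`M` is any closed surface which is covered by means of `pr` by the plane domain `Ω` with the metric
`exp (2 φ) |dz|²`; the strip `|Re z - x0| < δ` belongs to `Ω` and is embedded modulo `2πi`.
-/

set_option autoImplicit false
set_option linter.unusedSectionVars false

open Set Filter Topology MeasureTheory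
open scoped ContDiff ComplexConjugate Real

noncomputable section

namespace Pool.Agent.H240.GU

open Pool.Agent.Y262.EG Pool.Agent.Y262.EX Pool.Agent.Y262.EL Pool.Agent.Y262.QE
open Pool.Agent.Y264.QR Pool.Agent.H240.SC Pool.Agent.H240.SG Pool.Agent.H240.CG
open Pool.Agent.H240.AL

/-- a flat cylinder in the surface (no symmetry) -/
structure IsCyl0 {M : Type} (D : Data M) (L : ℝ) (Φ : ℂ → M) : Prop where
  pos : 0 < L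
  per : ∀ z, Φ (z + 2 * π * Complex.I) = Φ z
  inj : ∀ z ∈ Strip L, ∀ z' ∈ Strip L, Φ z = Φ z' → ∃ k : ℤ, z' = z + k * (2 * π * Complex.I)
  chart : ∀ b : ℝ, b = -π ∨ b = 0 → ∃ i, D.T i = Rec L b ∧
    ∀ z ∈ Rec L b, D.ψ i z = Φ z ∧ D.A i z = ContinuousLinearMap.id ℝ ℂ

/-- `GU-1`: the theorem `surf_main` without the symmetry -/
def StSurf : Prop :=
  ∀ (M : Type) [MetricSpace M] [CompactSpace M] [MeasurableSpace M] [BorelSpace M] (μ : Measure M)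
    (D : Data M) (L : ℝ) (Φ : ℂ → M), D.IsSurf μ → IsCyl0 D L Φ →
    ∀ (x1 x2 C0 : ℝ) (κ h : C(M, ℝ)) (κ0 h0 : ℝ → ℝ), Geo L x1 x2 C0 Φ κ h κ0 h0 →
    ∀ᵐ s : ℝ, ∀ (u : ℕ → M → ℝ) (lam : ℕ → ℝ),
      EigBasis (D.conf fun x => Real.exp ((κ + s • h) x))
        (wm μ fun x => Real.exp ((κ + s • h) x)) u lam →
      ∃ J : Set ℕ, (∀ C : ℝ, ∃ᶠ Λ : ℝ in atTop,
        C * Real.sqrt Λ < ({j | j ∈ J ∧ lam j ≤ Λ}.ncard : ℝ)) ∧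
        Tendsto (fun j => ∫ x, h x * (u j x) ^ 2 ∂(wm μ fun x => Real.exp ((κ + s • h) x)))
          (atTop ⊓ 𝓟 J) (𝓝 0)

/-- the embedded collar -/
structure Co {M : Type} (Ω : Set ℂ) (pr : ℂ → M) (x0 δ : ℝ) : Prop where
  δp : 0 < δ
  sub : ∀ z : ℂ, |z.re - x0| < δ → z ∈ Ω
  per : ∀ z w : ℂ, |z.re - x0| < δ → |w.re - x0| < δ →
    (pr z = pr w ↔ ∃ n : ℤ, w = z + n * (2 * π * Complex.I))

/-- `GU-2`: the data of a surface with a flat cylinder -/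
def StBase : Prop :=
  ∀ (M P : Type) [MetricSpace M] [CompactSpace M] [MetricSpace P] [CompactSpace P]
    [MeasurableSpace M] [BorelSpace M] (Ω : Set ℂ) (φ : ℂ → ℝ) (pr : ℂ → M) (q : Y → P)
    (x0 R : ℝ), IsUT Ω φ pr q → Co Ω pr x0 R → (∀ z : ℂ, |z.re - x0| < R → φ z = 0) →
    ∃ (μ : Measure M) (D : Data M) (Φ : ℂ → M), D.IsSurf μ ∧ IsArea Ω φ pr μ ∧
      Compat D Ω φ pr ∧ IsCyl0 D (2 * R) Φ ∧
      ∀ z ∈ Strip (2 * R), Φ z = pr (z + ((x0 - R : ℝ) : ℂ))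

/-- functions on the surface which come from the collar -/
def cx {M : Type} (pr : ℂ → M) (x0 δ : ℝ) (w : ℂ → ℝ) (x : M) : ℝ :=
  open Classical in if h : ∃ z : ℂ, |z.re - x0| < δ ∧ pr z = x then w h.choose else 0

/-- periodic functions on the collar which vanish near its boundary -/
structure Cw (x0 δ : ℝ) (w : ℂ → ℝ) : Prop where
  sm : ContDiffOn ℝ ∞ w (Sx x0 δ)
  per : ∀ z ∈ Sx x0 δ, w (z + 2 * π * Complex.I) = w z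
  sup : ∃ r : ℝ, r < δ ∧ ∀ z ∈ Sx x0 δ, r ≤ |z.re - x0| → w z = 0

/-- `GU-3`: functions which come from the collar -/
def StCx : Prop :=
  ∀ (M P : Type) [MetricSpace M] [CompactSpace M] [MetricSpace P] [CompactSpace P]
    (Ω : Set ℂ) (φ : ℂ → ℝ) (pr : ℂ → M) (q : Y → P) (x0 δ : ℝ), IsUT Ω φ pr q → Co Ω pr x0 δ →
    (∀ z w, z ∈ Ω → w ∈ Ω → pr z = pr w → curv φ z = curv φ w) ∧
    (∀ z ∈ Sx x0 δ, φ (z + 2 * π * Complex.I) = φ z) ∧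
    ∀ w : ℂ → ℝ, Cw x0 δ w →
      ContDiffOn ℝ ∞ (fun z => cx pr x0 δ w (pr z)) Ω ∧ Continuous (cx pr x0 δ w) ∧
      (∀ z ∈ Sx x0 δ, cx pr x0 δ w (pr z) = w z) ∧
      (∀ x, x ∉ pr '' Sx x0 δ → cx pr x0 δ w x = 0) ∧
      ∀ z ∈ Ω, pr z ∉ pr '' Sx x0 δ → (fun ζ => cx pr x0 δ w (pr ζ)) =ᶠ[𝓝 z] fun _ => 0

/-- the flat Laplacian -/
def Lp2 (φ : ℂ → ℝ) (z : ℂ) : ℝ := px (px φ) z + py (py φ) z

/-- the correction `c + w` of the metric makes it flat exactly on `|Re z - x0| ≤ r`, and it depends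
on `x` only near this cylinder -/
structure FlU (φ : ℂ → ℝ) (x0 δ : ℝ) (w : ℂ → ℝ) (c r : ℝ) : Prop where
  cw : Cw x0 δ w
  rp : 0 < r
  rL : r < δ / 4
  flat : ∀ z : ℂ, |z.re - x0| ≤ r → φ z + w z + c = 0
  pos : ∀ z : ℂ, r < |z.re - x0| → |z.re - x0| < δ → 0 < Lp2 (fun z => φ z + w z) z

/-- `GU-4`: flattening near the closed geodesic -/
def StFl : Prop :=
  ∀ (φ : ℂ → ℝ) (x0 δ : ℝ), 0 < δ → ContDiffOn ℝ ∞ φ (Sx x0 δ) →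
    (∀ z ∈ Sx x0 δ, φ (z + 2 * π * Complex.I) = φ z) →
    (∀ z : ℂ, z.re = x0 → φ z = 0 ∧ px φ z = 0) → (∀ z ∈ Sx x0 δ, 0 < Lp2 φ z) →
    ∃ B : ℝ, ∀ ε : ℝ, 0 < ε → ∃ (w : ℂ → ℝ) (c r : ℝ), FlU φ x0 δ w c r ∧ r < ε ∧ |c| ≤ ε ∧
      (∀ z ∈ Sx x0 δ, |w z| ≤ ε ∧ |px w z| ≤ ε ∧ |py w z| ≤ ε) ∧
      (∀ z ∈ Sx x0 δ, δ / 2 ≤ |z.re - x0| → w z = 0) ∧
      ∀ z ∈ Sx x0 δ, |z.re - x0| ≤ δ / 2 → Lp2 (fun z => φ z + w z) z ≤ B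

/-- `GU-5`: uniform distribution in the direction of the geodesic of solutions which concentrate
on a cylinder on which the metric is flat -/
def StLimI : Prop :=
  ∀ (x0 R ρ : ℝ) (w : ℝ → ℝ) (l : Filter ℕ) (v : ℕ → ℂ → ℝ) (lam : ℕ → ℝ), 0 ≤ ρ → ρ < R →
    ContDiffOn ℝ ∞ w (Ioo (x0 - R) (x0 + R)) → (∀ x ∈ Ioo (x0 - R) (x0 + R), 0 < w x) →
    (∀ x, |x - x0| ≤ ρ → deriv w x = 0) →
    (∀ j, Sol x0 R w (lam j) (v j)) → Tendsto lam l atTop →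
    (∀ j, IntegrableOn (fun z => w z.re * (v j z) ^ 2) (Qx x0 R)) →
    (∀ j, ∫ z in Qx x0 R, w z.re * (v j z) ^ 2 ≤ 1) →
    (∀ r : ℝ, ρ < r → r < R →
      Tendsto (fun j => ∫ z in Qx x0 R \ Qx x0 r, w z.re * (v j z) ^ 2) l (𝓝 0)) →
    ∀ a b : ℝ → ℝ, Ct x0 R a → (∃ r1 : ℝ, ρ < r1 ∧ ∀ x, |x - x0| ≤ r1 → a x = 1) → Pf b →
    Tendsto (fun j => ∫ z in Qx x0 R, a z.re * deriv b z.im * (w z.re * (v j z) ^ 2)) l (𝓝 0)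

/-- the image of the closed cylinder -/
def TcU {M : Type} (pr : ℂ → M) (x0 r : ℝ) : Set M := pr '' {z | |z.re - x0| ≤ r}

/-- `GU-6`: the integrals of continuous functions -/
def StYU : Prop :=
  ∀ (M P : Type) [MetricSpace M] [CompactSpace M] [MetricSpace P] [CompactSpace P]
    [MeasurableSpace M] [BorelSpace M] (Ω : Set ℂ) (φ : ℂ → ℝ) (pr : ℂ → M) (q : Y → P)
    (μ : Measure M) (G : ℝ → ℝ) (x0 δ ρ ρ' ε : ℝ), Gd Ω φ pr G x0 δ → IsUT Ω φ pr q →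
    IsArea Ω φ pr μ → 0 ≤ ρ → ρ < ρ' → ρ' < δ → (∀ x, |x - x0| ≤ ρ → deriv G x = 0) → 0 < ε →
    ∀ (u : ℕ → M → ℝ) (lam : ℕ → ℝ) (l : Filter ℕ), (∀ j, IsEf Ω φ pr (lam j) (u j)) →
    (∀ j, Integrable (fun x => (u j x) ^ 2) μ) → (∀ j, ∫ x, (u j x) ^ 2 ∂μ = 1) →
    Tendsto lam l atTop →
    (∀ K : Set M, IsCompact K → Disjoint K (TcU pr x0 ρ) →
      Tendsto (fun j => ∫ x in K, (u j x) ^ 2 ∂μ) l (𝓝 0)) →
    ∀ F : M → ℝ, Continuous F →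
    (∀ z : ℂ, |z.re - x0| ≤ ρ' → |F (pr z) - F (pr (x0 + z.im * Complex.I))| ≤ ε) →
    ∀ᶠ j in l, |(∫ x, F x * (u j x) ^ 2 ∂μ) - Av pr x0 F| < 2 * ε

/-- `GU-7`: integrals which are approximately prescribed persist under small perturbations -/
def StStab : Prop :=
  ∀ (M : Type) [MetricSpace M] [CompactSpace M] [MeasurableSpace M] [BorelSpace M]
    (μ : Measure M) (D : Data M), D.IsSurf μ → Nonempty M →
    ∀ (φ0 : C(M, ℝ)) (S : Finset C(M, ℝ)) (a : C(M, ℝ) → ℝ) (ε : ℝ),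
    (∀ (u : ℕ → M → ℝ) (lam : ℕ → ℝ),
      EigBasis (D.conf fun x => Real.exp (φ0 x)) (wm μ fun x => Real.exp (φ0 x)) u lam →
      ∃ J : Set ℕ, (∀ C : ℝ, ∃ᶠ Λ : ℝ in atTop,
        C * Real.sqrt Λ < ({j | j ∈ J ∧ lam j ≤ Λ}.ncard : ℝ)) ∧
        ∀ h ∈ S, ∀ᶠ j in atTop ⊓ 𝓟 J,
          |(∫ x, h x * (u j x) ^ 2 ∂(wm μ fun x => Real.exp (φ0 x))) - a h| < ε) →
    ∀ (C Λ0 : ℝ), ∃ (Λ1 η : ℝ), 0 < η ∧ ∀ f : C(M, ℝ), ‖f‖ < η →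
      ∀ (u : ℕ → M → ℝ) (lam : ℕ → ℝ),
      EigBasis (D.conf fun x => Real.exp ((φ0 + f) x))
        (wm μ fun x => Real.exp ((φ0 + f) x)) u lam →
      ∃ Λ : ℝ, Λ0 ≤ Λ ∧ Λ ≤ Λ1 ∧ C * Real.sqrt Λ <
        ({j | (∀ h ∈ S, |(∫ x, h x * (u j x) ^ 2 ∂(wm μ fun x => Real.exp ((φ0 + f) x))) - a h| ≤ ε) ∧
          lam j ≤ Λ}.ncard : ℝ)

/-- profiles of corrections of the metric near the closed geodesic: the metric is flat on the cylinder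
`|t| ≤ ρ` and only there (`ρ < 0` is allowed: no flat cylinder) -/
structure Ht (δ κ0 : ℝ) (H : ℝ → ℝ) (cH ρ : ℝ) : Prop where
  sm : ContDiff ℝ ∞ H
  far : ∀ t, δ / 2 ≤ |t| → H t = 0
  zer : ∀ t, |t| ≤ ρ → H t = -cH
  z0 : H 0 = -cH
  z1 : deriv H 0 = 0
  cvx : ∀ t, ρ < |t| → |t| ≤ δ / 4 → 0 < iteratedDeriv 2 H t
  bd : ∀ j ≤ 2, ∀ t, |iteratedDeriv j H t| ≤ κ0
  bc : |cH| ≤ κ0

/-- the correction of the metric: constant outside of the collar -/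
def Vm {M : Type} (pr : ℂ → M) (x0 δ : ℝ) (w : ℂ → ℝ) (c : ℝ) (H : ℝ → ℝ) (cH : ℝ) (x : M) : ℝ :=
  (c + cH) + cx pr x0 δ (fun z => w z + H (z.re - x0)) x

/-- `GU-8`: the curvature is negative except on the flat cylinder -/
def StK : Prop :=
  ∀ (M P : Type) [MetricSpace M] [CompactSpace M] [MetricSpace P] [CompactSpace P]
    (Ω : Set ℂ) (φ : ℂ → ℝ) (pr : ℂ → M) (q : Y → P) (x0 δ : ℝ), IsUT Ω φ pr q → Co Ω pr x0 δ →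
    (∀ z ∈ Ω, curv φ z < 0) → ∀ (w : ℂ → ℝ) (c r : ℝ), FlU φ x0 δ w c r →
    (∀ z ∈ Sx x0 δ, δ / 2 ≤ |z.re - x0| → w z = 0) →
    ∃ κ0 : ℝ, 0 < κ0 ∧ ∀ (H : ℝ → ℝ) (cH ρ : ℝ), ρ < r → Ht δ κ0 H cH ρ → ∀ z ∈ Ω,
      curv (fun z => φ z + Vm pr x0 δ w c H cH (pr z)) z ≤ 0 ∧
      (pr z ∉ pr '' {z : ℂ | |z.re - x0| ≤ ρ} →
        curv (fun z => φ z + Vm pr x0 δ w c H cH (pr z)) z < 0)

/-- `GU-9`: the curvature is bounded below -/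
def StKb : Prop :=
  ∀ (M P : Type) [MetricSpace M] [CompactSpace M] [MetricSpace P] [CompactSpace P]
    (Ω : Set ℂ) (φ : ℂ → ℝ) (pr : ℂ → M) (q : Y → P) (x0 δ : ℝ), IsUT Ω φ pr q → Co Ω pr x0 δ →
    ∀ B : ℝ, ∃ K1 : ℝ, ∀ (w : ℂ → ℝ) (c : ℝ) (H : ℝ → ℝ) (cH : ℝ), Cw x0 δ w →
      (∀ z ∈ Sx x0 δ, |w z| ≤ 1) → |c| ≤ 1 → (∀ z ∈ Sx x0 δ, δ / 2 ≤ |z.re - x0| → w z = 0) →
      (∀ z ∈ Sx x0 δ, |z.re - x0| ≤ δ / 2 → Lp2 (fun z => φ z + w z) z ≤ B) →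
      ContDiff ℝ ∞ H → (∀ t, δ / 2 ≤ |t| → H t = 0) →
      (∀ j ≤ 2, ∀ t, |iteratedDeriv j H t| ≤ 1) → |cH| ≤ 1 →
      ∀ z ∈ Ω, -K1 ≤ curv (fun z => φ z + Vm pr x0 δ w c H cH (pr z)) z

/-- the directions of the perturbations -/
structure Et (δ : ℝ) (η : ℝ → ℝ) (ρ : ℝ) : Prop where
  sm : ContDiff ℝ ∞ η
  far : ∀ t, δ / 2 ≤ |t| → η t = 0
  zer : ∀ t, |t| ≤ ρ → η t = -1
  pos : ∀ t, ρ < |t| → -1 < η t
  cvx : ∀ t, ρ < |t| → |t| ≤ δ / 4 → 0 < iteratedDeriv 2 η t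
  bd : ∀ j, ∃ K : ℝ, ∀ t, |iteratedDeriv j η t| ≤ K

/-- `GU-10`: existence of the directions, and a direction without flat cylinder -/
def StEt : Prop :=
  (∀ δ ρ : ℝ, 0 < ρ → ρ < δ / 4 → ∃ η : ℝ → ℝ, Et δ η ρ) ∧
  ∀ δ : ℝ, 0 < δ → ∃ η : ℝ → ℝ, ContDiff ℝ ∞ η ∧ (∀ t, δ / 2 ≤ |t| → η t = 0) ∧ η 0 = -1 ∧
    deriv η 0 = 0 ∧ (∀ t, |t| ≤ δ / 4 → 0 < iteratedDeriv 2 η t) ∧
    ∀ j, ∃ K : ℝ, ∀ t, |iteratedDeriv j η t| ≤ K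

/-- `GU-11`: smooth sums -/
def StSer : Prop :=
  ∀ (η : ℕ → ℝ → ℝ) (θ : ℕ → ℝ), (∀ n, ContDiff ℝ ∞ (η n)) →
    (∀ n, ∀ j ≤ n, ∀ t, |iteratedDeriv j (η n) t| ≤ θ n) →
    (∀ n j, ∃ K : ℝ, ∀ t, |iteratedDeriv j (η n) t| ≤ K) → Summable θ →
    ContDiff ℝ ∞ (fun t => ∑' n, η n t) ∧
    ∀ j t, HasSum (fun n => iteratedDeriv j (η n) t) (iteratedDeriv j (fun t => ∑' n, η n t) t)

end Pool.Agent.H240.GU
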