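import Pool.Agent.H240.GU.Def

/-!
# Scars near every negatively curved surface: definitions and statements, II
-/

set_option autoImplicit false
set_option linter.unusedSectionVars false

open Set Filter Topology MeasureTheory
open scoped ContDiff ComplexConjugate Real

noncomputable section

namespace Pool.Agent.H240.GU

open Pool.Agent.Y262.EG Pool.Agent.Y262.EX Pool.Agent.Y262.EL Pool.Agent.Y262.QE
open Pool.Agent.Y264.QR Pool.Agent.H240.SC Pool.Agent.H240.SG Pool.Agent.H240.CG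
open Pool.Agent.H240.AL

/-- `GU-12`: the norm of the corrections, with the Riemannian norm of the gradient -/
def StNr : Prop :=
  ∀ (M P : Type) [MetricSpace M] [CompactSpace M] [MetricSpace P] [CompactSpace P]
    (Ω : Set ℂ) (φ : ℂ → ℝ) (pr : ℂ → M) (q : Y → P) (x0 δ : ℝ), IsUT Ω φ pr q → Co Ω pr x0 δ →
    ∃ K : ℝ, 0 < K ∧ ∀ (w : ℂ → ℝ) (c : ℝ) (H : ℝ → ℝ) (cH ε : ℝ), Cw x0 δ w →
      (∀ z ∈ Sx x0 δ, |w z| ≤ ε ∧ |px w z| ≤ ε ∧ |py w z| ≤ ε) →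
      (∀ z ∈ Sx x0 δ, δ / 2 ≤ |z.re - x0| → w z = 0) → |c| ≤ ε → ContDiff ℝ ∞ H →
      (∀ t, δ / 2 ≤ |t| → H t = 0) → (∀ t, |H t| ≤ ε ∧ |deriv H t| ≤ ε) → |cH| ≤ ε →
      (∀ x : M, |Vm pr x0 δ w c H cH x| ≤ K * ε) ∧
      ∀ z ∈ Ω, Real.exp (-φ z) * ‖fderiv ℝ (fun z => Vm pr x0 δ w c H cH (pr z)) z‖ ≤ K * ε

end Pool.Agent.H240.GU
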