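import Pool.Agent.H240.GU.Def
import Pool.Agent.H240.CG.ClsE2

/-!
# Scars near every negatively curved surface: ergodicity, statement
-/

set_option autoImplicit false
set_option linter.unusedSectionVars false

open Set Filter Topology MeasureTheory
open scoped ContDiff ComplexConjugate Real

noncomputable section

namespace Pool.Agent.H240.GU

open Pool.Agent.Y262.EG Pool.Agent.Y262.EX Pool.Agent.Y262.EL Pool.Agent.Y262.QE
open Pool.Agent.Y264.QR Pool.Agent.H240.SC Pool.Agent.H240.SG Pool.Agent.H240.CG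
open Pool.Agent.H240.AL

/-- `GE-1`: ergodicity of the geodesic flow of a surface whose curvature is negative except on one
closed geodesic with a rotationally symmetric neighbourhood -/
def StErgU : Prop :=
  ∀ (M P : Type) [MetricSpace M] [CompactSpace M] [MetricSpace P] [CompactSpace P]
    [MeasurableSpace P] [BorelSpace P] (Ω : Set ℂ) (φ : ℂ → ℝ) (pr : ℂ → M) (q : Y → P)
    (m : Measure P) (Fl : ℝ → Y → Y) (x0 r C : ℝ) (G : ℝ → ℝ), IsUT Ω φ pr q →
    IsLiou Ω φ q m → IsGeo Ω φ Fl → Co Ω pr x0 r → IsPreconnected (univ : Set M) →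
    ContDiff ℝ ∞ G → (∀ z : ℂ, |z.re - x0| < r → φ z = G (z.re - x0)) → G 0 = 0 →
    deriv G 0 = 0 → (∀ z ∈ Ω, curv φ z ≤ 0) → (∀ z ∈ Ω, curv φ z = 0 → pr z ∈ Gm pr x0) →
    (∀ t : ℝ, |t| < r → |iteratedDeriv 3 G t| ≤ C * (iteratedDeriv 2 G t) ^ (39 / 40 : ℝ)) →
    Erg Ω q m Fl

end Pool.Agent.H240.GU
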