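import Pool.Agent.H240.GU.Def
import Pool.Agent.H240.CG.Bs0

/-!
# Scars near every negatively curved surface: an example, statement
-/

set_option autoImplicit false
set_option linter.unusedSectionVars false

open Set Filter Topology MeasureTheory
open scoped ContDiff ComplexConjugate Real

noncomputable section

namespace Pool.Agent.H240.GU

open Pool.Agent.Y262.EG Pool.Agent.Y262.EX Pool.Agent.Y262.EL Pool.Agent.Y262.QE
open Pool.Agent.Y264.QR Pool.Agent.H240.SC Pool.Agent.H240.SG Pool.Agent.H240.CG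
open Pool.Agent.H240.AL

/-- `GU-13`: there is a closed hyperbolic surface with a collar of a closed geodesic -/
def StHyp : Prop :=
  ∃ (G : Type) (_ : Group G) (Ω : Set ℂ) (a : G → ℂ → ℂ) (φ : ℂ → ℝ) (M : Type)
    (_ : MetricSpace M) (_ : CompactSpace M) (pr : ℂ → M) (x0 δ k : ℝ), Act G Ω a ∧ Inva Ω φ a ∧
    PrM Ω a pr ∧ Co Ω pr x0 δ ∧ (∀ z : ℂ, z.re = x0 → φ z = 0 ∧ px φ z = 0) ∧ 0 < k ∧
    ∀ z ∈ Ω, curv φ z = -k

end Pool.Agent.H240.GU
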