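import Pool.Agent.H240.GU.Def

/-!
# Scars near every closed geodesic of every negatively curved surface: definitions and statements

The closed geodesic `c` is not assumed to be a line in the coordinate `z`; it is approximated by curves
`t ↦ Γ (i t)` with holomorphic `Γ`.
-/

set_option autoImplicit false
set_option linter.unusedSectionVars false

open Set Filter Topology MeasureTheory
open scoped ContDiff ComplexConjugate Real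

noncomputable section

namespace Pool.Agent.H240.GV

open Pool.Agent.Y262.EG Pool.Agent.Y262.EX Pool.Agent.Y262.EL Pool.Agent.Y262.QE
open Pool.Agent.Y264.QR Pool.Agent.H240.SC Pool.Agent.H240.SG Pool.Agent.H240.CG
open Pool.Agent.H240.AL Pool.Agent.H240.GU

/-- the exponent of the metric in the coordinate of the collar -/
def Pb (φ : ℂ → ℝ) (Γ : ℂ → ℂ) (z : ℂ) : ℝ := φ (Γ z) + Real.log ‖deriv Γ z‖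

/-- a holomorphic collar -/
structure Cg {M : Type} (Ω : Set ℂ) (pr : ℂ → M) (Γ : ℂ → ℂ) (δ : ℝ) : Prop where
  δp : 0 < δ
  hol : DifferentiableOn ℂ Γ (Sx 0 δ)
  maps : ∀ z ∈ Sx 0 δ, Γ z ∈ Ω
  d0 : ∀ z ∈ Sx 0 δ, deriv Γ z ≠ 0
  per : ∀ z ∈ Sx 0 δ, ∀ w ∈ Sx 0 δ,
    (pr (Γ z) = pr (Γ w) ↔ ∃ n : ℤ, w = z + n * (2 * π * Complex.I))

/-- the disjoint union of `Ω` (contained in `Re z < R0`) and the strip around `Re z = R0 + δ` -/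
def Uo (Ω : Set ℂ) (R0 δ : ℝ) : Set ℂ := Ω ∪ {z | |z.re - (R0 + δ)| < δ}

/-- the metric on the union -/
def Uf (Ω : Set ℂ) (φ : ℂ → ℝ) (Γ : ℂ → ℂ) (R0 δ : ℝ) (z : ℂ) : ℝ :=
  open Classical in if z ∈ Ω then φ z else Pb φ Γ (z - ((R0 + δ : ℝ) : ℂ))

/-- the projection of the union -/
def Up {M : Type} (Ω : Set ℂ) (pr : ℂ → M) (Γ : ℂ → ℂ) (R0 δ : ℝ) (z : ℂ) : M :=
  open Classical in if z ∈ Ω then pr z else pr (Γ (z - ((R0 + δ : ℝ) : ℂ)))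

/-- the projection of the unit vectors of the union -/
def Uq {P : Type} (Ω : Set ℂ) (q : Y → P) (Γ : ℂ → ℂ) (R0 δ : ℝ) (p : Y) : P :=
  open Classical in if p.1 ∈ Ω then q p else
    q (Γ (p.1 - ((R0 + δ : ℝ) : ℂ)), p.2 + Complex.arg (deriv Γ (p.1 - ((R0 + δ : ℝ) : ℂ))))

/-- `GV-1`: the union covers the surface -/
def StUn1 : Prop :=
  ∀ (M P : Type) [MetricSpace M] [CompactSpace M] [MetricSpace P] [CompactSpace P]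
    (Ω : Set ℂ) (φ : ℂ → ℝ) (pr : ℂ → M) (q : Y → P) (Γ : ℂ → ℂ) (δ R0 : ℝ), IsUT Ω φ pr q →
    Cg Ω pr Γ δ → (∀ z ∈ Ω, z.re < R0) →
    IsUT (Uo Ω R0 δ) (Uf Ω φ Γ R0 δ) (Up Ω pr Γ R0 δ) (Uq Ω q Γ R0 δ)

/-- `GV-2`: curvature, smooth functions and eigenfunctions on the union -/
def StUn2 : Prop :=
  ∀ (M P : Type) [MetricSpace M] [CompactSpace M] [MetricSpace P] [CompactSpace P]
    (Ω : Set ℂ) (φ : ℂ → ℝ) (pr : ℂ → M) (q : Y → P) (Γ : ℂ → ℂ) (δ R0 : ℝ), IsUT Ω φ pr q →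
    Cg Ω pr Γ δ → (∀ z ∈ Ω, z.re < R0) →
    Co (Uo Ω R0 δ) (Up Ω pr Γ R0 δ) (R0 + δ) δ ∧
    (∀ z ∈ Sx (R0 + δ) δ, curv (Uf Ω φ Γ R0 δ) z = curv φ (Γ (z - ((R0 + δ : ℝ) : ℂ)))) ∧
    (∀ f : M → ℝ, ContDiffOn ℝ ∞ (fun z => f (pr z)) Ω →
      ContDiffOn ℝ ∞ (fun z => f (Up Ω pr Γ R0 δ z)) (Uo Ω R0 δ)) ∧
    ∀ (f : M → ℝ) (lam : ℝ) (u : M → ℝ), ContDiffOn ℝ ∞ (fun z => f (pr z)) Ω →
      IsEf Ω (fun z => φ z + f (pr z)) pr lam u →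
      IsEf (Uo Ω R0 δ) (fun z => Uf Ω φ Γ R0 δ z + f (Up Ω pr Γ R0 δ z)) (Up Ω pr Γ R0 δ) lam u

/-- bounds of the metric in a thin collar around an approximate geodesic -/
structure Bd (Φ : ℂ → ℝ) (x0 δ k K e : ℝ) : Prop where
  sm : ContDiffOn ℝ ∞ Φ (Sx x0 δ)
  per : ∀ z ∈ Sx x0 δ, Φ (z + 2 * π * Complex.I) = Φ z
  lap : ∀ z ∈ Sx x0 δ, 0 < Lp2 Φ z ∧ Lp2 Φ z ≤ K
  low : ∀ z ∈ Sx x0 δ, k * (z.re - x0) ^ 2 - e ≤ Φ z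
  upp : ∀ z ∈ Sx x0 δ, Φ z ≤ K * (z.re - x0) ^ 2 + e
  grad : ∀ z ∈ Sx x0 δ, |px Φ z| ≤ K * |z.re - x0| + e ∧ |py Φ z| ≤ K * |z.re - x0| + e

/-- `GV-3`: flattening near an approximate geodesic, with uniform constants -/
def StFl2 : Prop :=
  ∀ k K : ℝ, 0 < k → 0 < K → ∃ B θ : ℝ, 0 < B ∧ 0 < θ ∧ ∀ (Φ : ℂ → ℝ) (x0 δ e : ℝ), 0 < δ → δ ≤ 1 →
    0 ≤ e → e ≤ θ * δ ^ 2 → Bd Φ x0 δ k K e →
    ∃ (w : ℂ → ℝ) (c r : ℝ), FlU Φ x0 δ w c r ∧ |c| ≤ B * δ ∧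
      (∀ z ∈ Sx x0 δ, |w z| ≤ B * δ ∧ |px w z| ≤ B * δ ∧ |py w z| ≤ B * δ) ∧
      (∀ z ∈ Sx x0 δ, δ / 2 ≤ |z.re - x0| → w z = 0) ∧
      ∀ z ∈ Sx x0 δ, |z.re - x0| ≤ δ / 2 → Lp2 (fun z => Φ z + w z) z ≤ B

/-- approximation of a curve by holomorphic functions: `Γ n (i t)` is close to `c t`, and the
derivatives are bounded on the strip `|Re z| ≤ 1 / (n + 1)` -/
structure Ap (c : ℝ → ℂ) (Γ : ℕ → ℂ → ℂ) : Prop where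
  ent : ∀ n, Differentiable ℂ (Γ n)
  per : ∀ n z, Γ n (z + 2 * π * Complex.I) = Γ n z + 2 * π * Complex.I
  close : ∀ j m : ℕ, ∃ C : ℝ, ∀ (n : ℕ) (t : ℝ),
    ‖iteratedDeriv j (fun t : ℝ => Γ n (t * Complex.I)) t - iteratedDeriv j c t‖ ≤
      C / ((n : ℝ) + 1) ^ m
  bd : ∀ j : ℕ, 1 ≤ j → ∃ C : ℝ, ∀ (n : ℕ) (z : ℂ), |z.re| ≤ 1 / ((n : ℝ) + 1) →
    ‖iteratedDeriv j (Γ n) z‖ ≤ C

/-- `GV-4`: existence of the approximation (Fourier series) -/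
def StFou : Prop :=
  ∀ c : ℝ → ℂ, ContDiff ℝ ∞ c → (∀ t, c (t + 2 * π) = c t + 2 * π * Complex.I) →
    ∃ Γ : ℕ → ℂ → ℂ, Ap c Γ

/-- `c` is a simple closed geodesic of length `2π` of the surface; `z ↦ z + 2πi` is a deck
transformation -/
structure Gc {M : Type} (Ω : Set ℂ) (φ : ℂ → ℝ) (pr : ℂ → M) (c : ℝ → ℂ) : Prop where
  sm : ContDiff ℝ ∞ c
  mem : ∀ t, c t ∈ Ω
  per : ∀ t, c (t + 2 * π) = c t + 2 * π * Complex.I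
  trm : ∀ z : ℂ, z + 2 * π * Complex.I ∈ Ω ↔ z ∈ Ω
  trp : ∀ z ∈ Ω, pr (z + 2 * π * Complex.I) = pr z
  ne : ∀ t, deriv c t ≠ 0
  unit : ∀ t, φ (c t) + Real.log ‖deriv c t‖ = 0
  geo : ∀ t, (deriv (deriv c) t / deriv c t).im =
    py φ (c t) * (deriv c t).re - px φ (c t) * (deriv c t).im
  simple : ∀ s t, pr (c s) = pr (c t) → ∃ n : ℤ, t = s + n * (2 * π)

/-- `GV-5`: the collars are embedded -/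
def StEmb : Prop :=
  ∀ (M P : Type) [MetricSpace M] [CompactSpace M] [MetricSpace P] [CompactSpace P]
    (Ω : Set ℂ) (φ : ℂ → ℝ) (pr : ℂ → M) (q : Y → P) (c : ℝ → ℂ) (Γ : ℕ → ℂ → ℂ), IsUT Ω φ pr q →
    Gc Ω φ pr c → Ap c Γ → ∃ N : ℕ, ∀ n : ℕ, N ≤ n → Cg Ω pr (Γ n) (1 / ((n : ℝ) + 1))

/-- `GV-6`: the metric on the approximate geodesic -/
def StLine : Prop :=
  ∀ (M P : Type) [MetricSpace M] [CompactSpace M] [MetricSpace P] [CompactSpace P]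
    (Ω : Set ℂ) (φ : ℂ → ℝ) (pr : ℂ → M) (q : Y → P) (c : ℝ → ℂ) (Γ : ℕ → ℂ → ℂ), IsUT Ω φ pr q →
    Gc Ω φ pr c → Ap c Γ → ∃ (N : ℕ) (C : ℝ), ∀ n : ℕ, N ≤ n → ∀ z : ℂ, z.re = 0 →
      |Pb φ (Γ n) z| ≤ C / ((n : ℝ) + 1) ^ 4 ∧ |px (Pb φ (Γ n)) z| ≤ C / ((n : ℝ) + 1) ^ 4 ∧
      |py (Pb φ (Γ n)) z| ≤ C / ((n : ℝ) + 1) ^ 4 ∧
      |py (py (Pb φ (Γ n))) z| ≤ C / ((n : ℝ) + 1) ^ 4

/-- `GV-7`: uniform bounds of the derivatives of the metric in the collars -/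
def StBds : Prop :=
  ∀ (M P : Type) [MetricSpace M] [CompactSpace M] [MetricSpace P] [CompactSpace P]
    (Ω : Set ℂ) (φ : ℂ → ℝ) (pr : ℂ → M) (q : Y → P) (c : ℝ → ℂ) (Γ : ℕ → ℂ → ℂ), IsUT Ω φ pr q →
    Gc Ω φ pr c → Ap c Γ → (∀ z ∈ Ω, curv φ z < 0) → ∃ (N : ℕ) (k K : ℝ), 0 < k ∧ 0 < K ∧
      ∀ n : ℕ, N ≤ n → ContDiffOn ℝ ∞ (Pb φ (Γ n)) (Sx 0 (1 / ((n : ℝ) + 1))) ∧
      (∀ z ∈ Sx 0 (1 / ((n : ℝ) + 1)), Pb φ (Γ n) (z + 2 * π * Complex.I) = Pb φ (Γ n) z) ∧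
      ∀ z ∈ Sx 0 (1 / ((n : ℝ) + 1)),
        4 * k ≤ Lp2 (Pb φ (Γ n)) z ∧ Lp2 (Pb φ (Γ n)) z ≤ K ∧
        |px (px (Pb φ (Γ n))) z| ≤ K ∧ |px (py (Pb φ (Γ n))) z| ≤ K ∧
        |px (px (px (Pb φ (Γ n)))) z| ≤ K

/-- `GV-8`: the bounds `Bd` from `GV-6` and `GV-7` -/
def StTay : Prop :=
  ∀ (k K C : ℝ), 0 < k → 0 < K → 0 ≤ C → ∃ (N : ℕ) (K' C' : ℝ), 0 < K' ∧ 0 ≤ C' ∧
    ∀ (n : ℕ) (Φ : ℂ → ℝ), N ≤ n → ContDiffOn ℝ ∞ Φ (Sx 0 (1 / ((n : ℝ) + 1))) →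
      (∀ z ∈ Sx 0 (1 / ((n : ℝ) + 1)), Φ (z + 2 * π * Complex.I) = Φ z) →
      (∀ z ∈ Sx 0 (1 / ((n : ℝ) + 1)), 4 * k ≤ Lp2 Φ z ∧ Lp2 Φ z ≤ K ∧
        |px (px Φ) z| ≤ K ∧ |px (py Φ) z| ≤ K ∧ |px (px (px Φ)) z| ≤ K) →
      (∀ z : ℂ, z.re = 0 → |Φ z| ≤ C / ((n : ℝ) + 1) ^ 4 ∧ |px Φ z| ≤ C / ((n : ℝ) + 1) ^ 4 ∧
        |py Φ z| ≤ C / ((n : ℝ) + 1) ^ 4 ∧ |py (py Φ) z| ≤ C / ((n : ℝ) + 1) ^ 4) →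
      Bd Φ 0 (1 / ((n : ℝ) + 1)) k K' (C' / ((n : ℝ) + 1) ^ 4)

/-- `GV-9`: the closed geodesic of the new metric -/
def StGeoG : Prop :=
  ∀ (M P : Type) [MetricSpace M] [CompactSpace M] [MetricSpace P] [CompactSpace P]
    (Ω : Set ℂ) (φ : ℂ → ℝ) (pr : ℂ → M) (q : Y → P) (Γ : ℂ → ℂ) (δ : ℝ), IsUT Ω φ pr q →
    Cg Ω pr Γ δ → (∀ z : ℂ, z.re = 0 → Pb φ Γ z = 0 ∧ px (Pb φ Γ) z = 0) →
    ∃ θ0 : ℝ, ∀ Fl : ℝ → Y → Y, IsGeo Ω φ Fl →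
      ∀ t : ℝ, (Fl t (Γ 0, θ0)).1 = Γ (t * Complex.I)

/-- `GV-10`: the `C¹` norm of the corrections with explicit constants -/
def StNr2 : Prop :=
  ∀ (M P : Type) [MetricSpace M] [CompactSpace M] [MetricSpace P] [CompactSpace P]
    (Ω : Set ℂ) (φ : ℂ → ℝ) (pr : ℂ → M) (q : Y → P) (x0 δ : ℝ), IsUT Ω φ pr q → Co Ω pr x0 δ →
    (∀ z ∈ Sx x0 δ, |φ z| ≤ 1) →
    ∀ (w : ℂ → ℝ) (c : ℝ) (H : ℝ → ℝ) (cH ε : ℝ), Cw x0 δ w →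
      (∀ z ∈ Sx x0 δ, |w z| ≤ ε ∧ |px w z| ≤ ε ∧ |py w z| ≤ ε) →
      (∀ z ∈ Sx x0 δ, δ / 2 ≤ |z.re - x0| → w z = 0) → |c| ≤ ε → ContDiff ℝ ∞ H →
      (∀ t, δ / 2 ≤ |t| → H t = 0) → (∀ t, |H t| ≤ ε ∧ |deriv H t| ≤ ε) → |cH| ≤ ε →
      (∀ x : M, |Vm pr x0 δ w c H cH x| ≤ 10 * ε) ∧
      ∀ z ∈ Ω, Real.exp (-φ z) * ‖fderiv ℝ (fun z => Vm pr x0 δ w c H cH (pr z)) z‖ ≤ 10 * ε

/-- `GV-11`: the lower bound of the curvature with explicit constants -/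
def StKb2 : Prop :=
  ∀ (M P : Type) [MetricSpace M] [CompactSpace M] [MetricSpace P] [CompactSpace P]
    (Ω : Set ℂ) (φ : ℂ → ℝ) (pr : ℂ → M) (q : Y → P) (x0 δ : ℝ), IsUT Ω φ pr q → Co Ω pr x0 δ →
    (∀ z ∈ Sx x0 δ, |φ z| ≤ 1) →
    ∀ B K0 : ℝ, 0 ≤ B → 0 ≤ K0 → (∀ z ∈ Ω, -K0 ≤ curv φ z) →
      ∀ (w : ℂ → ℝ) (c : ℝ) (H : ℝ → ℝ) (cH : ℝ), Cw x0 δ w →
      (∀ z ∈ Sx x0 δ, |w z| ≤ 1) → |c| ≤ 1 → (∀ z ∈ Sx x0 δ, δ / 2 ≤ |z.re - x0| → w z = 0) →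
      (∀ z ∈ Sx x0 δ, |z.re - x0| ≤ δ / 2 → Lp2 (fun z => φ z + w z) z ≤ B) →
      ContDiff ℝ ∞ H → (∀ t, δ / 2 ≤ |t| → H t = 0) →
      (∀ j ≤ 2, ∀ t, |iteratedDeriv j H t| ≤ 1) → |cH| ≤ 1 →
      ∀ z ∈ Ω, -(Real.exp 10 * (B + 1) + Real.exp 4 * K0) ≤
        curv (fun z => φ z + Vm pr x0 δ w c H cH (pr z)) z

end Pool.Agent.H240.GV
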