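import Pool.Agent.H240.GU.Lim
import Pool.Agent.H539.GU.StEt

/-!
# Scars near every negatively curved surface: the directions with control of the third derivative
-/

set_option autoImplicit false
set_option linter.unusedSectionVars false

open Set Filter Topology MeasureTheory
open scoped ContDiff ComplexConjugate Real

noncomputable section

namespace Pool.Agent.H240.GU

open Pool.Agent.Y262.EG Pool.Agent.Y262.EX Pool.Agent.Y262.EL Pool.Agent.Y262.QE
open Pool.Agent.Y264.QR Pool.Agent.H240.SC Pool.Agent.H240.SG Pool.Agent.H240.CG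
open Pool.Agent.H240.AL

/-- control of the third derivative -/
def D3 (δ : ℝ) (η : ℝ → ℝ) (C : ℝ) : Prop :=
  ∀ t, |t| ≤ δ / 4 → |iteratedDeriv 3 η t| ≤ C * (iteratedDeriv 2 η t) ^ (39 / 40 : ℝ)

/-- the direction without flat cylinder, and directions with control of the third derivative -/
theorem etE : (∀ δ ρ : ℝ, 0 < ρ → ρ < δ / 4 → ∃ (η : ℝ → ℝ) (C : ℝ), Et δ η ρ ∧ 0 ≤ C ∧ D3 δ η C) ∧
    StEt := by
  refine ⟨fun δ ρ hρ hρδ => ?_, Pool.Agent.H539.GU.stEt⟩
  have hδ : 0 < δ := by linarith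
  obtain ⟨B, D, hB, hD, h0, h1, h2, h3⟩ := Pool.Agent.H240.CG.bfun_ex 0 ρ (δ / 4) hρ
  simp only [sub_zero] at h0 h2 h3
  obtain ⟨hp, hp2⟩ := Pool.Agent.H539.GU.bpos hB hρ h0 h1 h2
  let χ : ContDiffBump (0 : ℝ) := ⟨δ / 4 + δ / 16, δ / 2 - δ / 16, by positivity, by linarith⟩
  have hχ : ContDiff ℝ ∞ χ := χ.contDiff
  have hout : χ.rOut = δ / 2 - δ / 16 := rfl
  have hin : χ.rIn = δ / 4 + δ / 16 := rfl
  have hη : ContDiff ℝ ∞ (fun t => χ t * (B t - 1)) := hχ.mul (hB.sub contDiff_const)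
  have hnear : ∀ t : ℝ, |t| ≤ δ / 4 → (fun t => χ t * (B t - 1)) =ᶠ[𝓝 t] fun t => B t - 1 := by
    intro t ht
    have h1 : Metric.ball (0 : ℝ) (δ / 4 + δ / 16) ∈ 𝓝 t := by
      apply Metric.isOpen_ball.mem_nhds
      rw [Metric.mem_ball, Real.dist_eq, sub_zero]
      linarith
    filter_upwards [h1] with x hx
    rw [χ.one_of_mem_closedBall (by rw [hin]; exact Metric.ball_subset_closedBall hx), one_mul]
  have hd : deriv (fun t => B t - 1) = deriv B := by
    funext x
    rw [deriv_sub_const]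
  have hi2 : ∀ t, |t| ≤ δ / 4 → iteratedDeriv 2 (fun t => χ t * (B t - 1)) t =
      deriv (deriv B) t := by
    intro t ht
    rw [(hnear t ht).iteratedDeriv_eq 2, iteratedDeriv_succ, iteratedDeriv_one, hd]
  have hi3 : ∀ t, |t| ≤ δ / 4 → iteratedDeriv 3 (fun t => χ t * (B t - 1)) t =
      deriv (deriv (deriv B)) t := by
    intro t ht
    rw [(hnear t ht).iteratedDeriv_eq 3, iteratedDeriv_succ, iteratedDeriv_succ, iteratedDeriv_one,
      hd]
  refine ⟨fun t => χ t * (B t - 1), D, ⟨hη, fun t ht => ?_, fun t ht => ?_, fun t ht => ?_,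
    fun t ht1 ht2 => ?_, fun j => ?_⟩, hD, fun t ht => ?_⟩
  · have h1 : χ t = 0 := by
      apply χ.zero_of_le_dist
      rw [hout, Real.dist_eq, sub_zero]
      linarith
    rw [h1, zero_mul]
  · rw [(hnear t (by linarith)).eq_of_nhds, h0 t ht]
    norm_num
  · have e0 : 0 ≤ χ t := χ.nonneg
    have e1 : χ t ≤ 1 := χ.le_one
    have ht' := hp t ht
    rcases e0.eq_or_lt with e2 | e2
    · rw [← e2, zero_mul]
      norm_num
    · have e3 : 0 < χ t * B t := mul_pos e2 ht'
      nlinarith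
  · rw [hi2 t ht2]
    exact hp2 t ht1
  · refine Pool.Agent.H539.GU.bd_all hη ?_ j
    exact χ.hasCompactSupport.mul_right
  · rw [hi2 t ht, hi3 t ht]
    exact h3 t ht

end Pool.Agent.H240.GU
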