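import Pool.Agent.H240.GU.Lim
import Pool.Agent.H240.GU.Def2
import Pool.Agent.H240.GB.Def
import Pool.Agent.H591.GU.StKb

/-!
# Scars near every negatively curved surface: the final theorem
-/

set_option autoImplicit false
set_option linter.unusedSectionVars false

open Set Filter Topology MeasureTheory
open scoped ContDiff ComplexConjugate Real

noncomputable section

namespace Pool.Agent.H240.GU

open Pool.Agent.Y262.EG Pool.Agent.Y262.EX Pool.Agent.Y262.EL Pool.Agent.Y262.QE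
open Pool.Agent.Y264.QR Pool.Agent.H240.SC Pool.Agent.H240.SG Pool.Agent.H240.CG
open Pool.Agent.H240.AL

/-- smooth functions on the surface which are small in the `C^1` norm of the metric -/
structure Sm {M : Type} (Ω : Set ℂ) (φ : ℂ → ℝ) (pr : ℂ → M) (f : M → ℝ) (ε : ℝ) : Prop where
  sm : ContDiffOn ℝ ∞ (fun z => f (pr z)) Ω
  c0 : ∀ x, |f x| ≤ ε
  c1 : ∀ z ∈ Ω, Real.exp (-φ z) * ‖fderiv ℝ (fun z => f (pr z)) z‖ ≤ ε

/-- the image of the line `Re z = x0` is a geodesic of the metric `exp (2 φ) |dz|²`, parametrized by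
the arc length `Im z` -/
def Ge (Ω : Set ℂ) (φ : ℂ → ℝ) (x0 : ℝ) : Prop :=
  ∀ Fl : ℝ → Y → Y, IsGeo Ω φ Fl → ∀ z : ℂ, z.re = x0 → ∀ t : ℝ,
    Fl t (z, π / 2) = (z + t * Complex.I, π / 2)

section

variable {M P : Type} [MetricSpace M] [CompactSpace M] [MetricSpace P] [CompactSpace P]
  [MeasurableSpace M] [BorelSpace M] {Ω : Set ℂ} {φ : ℂ → ℝ} {pr : ℂ → M} {q : Y → P}
  {x0 δ : ℝ} {w : ℂ → ℝ} {c r0 : ℝ} {μ : Measure M} {D : Data M} {Φ : ℂ → M}

theorem Co.line (h : Co Ω pr x0 δ) {z : ℂ} (hz : z.re = x0) : |z.re - x0| < δ := by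
  rw [hz, sub_self, abs_zero]
  exact h.δp

/-- the data of the metric `exp (2 f)` times the given metric -/
theorem fdata (h : Su Ω φ pr q x0 δ w c r0) (hB : Bu Ω φ pr x0 δ w c r0 μ D Φ) {f : M → ℝ}
    (hf : ContDiffOn ℝ ∞ (fun z => f (pr z)) Ω) :
    ∃ κ : C(M, ℝ), (∀ x, κ x = 2 * (f x - (c + cx pr x0 δ w x))) ∧
      (D.conf fun x => Real.exp (κ x)).IsSurf (wm μ fun x => Real.exp (κ x)) ∧
      Compat (D.conf fun x => Real.exp (κ x)) Ω (fun z => φ z + f (pr z)) pr ∧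
      IsArea Ω (fun z => φ z + f (pr z)) pr (wm μ fun x => Real.exp (κ x)) := by
  have hfc := Pool.Agent.H240.NL.cont_of h.ut hf.continuousOn
  set e : C(M, ℝ) := ⟨fun x => f x - (c + cx pr x0 δ w x), hfc.sub h.w1.2⟩ with he
  have hes : ContDiffOn ℝ ∞ (fun z => e (pr z)) Ω := hf.sub h.w1.1
  obtain ⟨b1, b2, b3⟩ := udata h hB e hes
  have hz : ∀ z ∈ Ω, φ z + f (pr z) = pb φ pr x0 δ w c z + e (pr z) := by
    intro z _
    show φ z + f (pr z) = φ z + (c + cx pr x0 δ w (pr z)) +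
      (f (pr z) - (c + cx pr x0 δ w (pr z)))
    ring
  exact ⟨(2 : ℝ) • e, fun x => rfl, b1, cmp_congr b2 hz, area_congr b3 hz⟩

theorem gm_eq (h : Co Ω pr x0 δ) (hpr : ContinuousOn pr Ω) : IsClosed (Gm pr x0) := by
  have h1 : Gm pr x0 = pr '' {z : ℂ | z.re = x0 ∧ z.im ∈ Icc 0 (2 * π)} := by
    apply Subset.antisymm
    · rintro x ⟨z, hz, rfl⟩
      have hz' : z.re = x0 := hz
      obtain ⟨n, hn, -⟩ := existsUnique_add_zsmul_mem_Ioc (by positivity : (0 : ℝ) < 2 * π) z.im 0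
      rw [zero_add, zsmul_eq_mul] at hn
      have hre : (z + n * (2 * π * Complex.I)).re = x0 := by simp [hz']
      have him : (z + n * (2 * π * Complex.I)).im = z.im + n * (2 * π) := by simp
      refine ⟨z + n * (2 * π * Complex.I), ⟨hre, by rw [him]; exact ⟨hn.1.le, hn.2⟩⟩, ?_⟩
      exact ((h.per z _ (h.line hz') (h.line hre)).2 ⟨n, rfl⟩).symm
    · exact image_mono fun z hz => hz.1
  rw [h1]
  have h2 : IsCompact {z : ℂ | z.re = x0 ∧ z.im ∈ Icc 0 (2 * π)} := by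
    have h3 : {z : ℂ | z.re = x0 ∧ z.im ∈ Icc 0 (2 * π)} = Icc x0 x0 ×ℂ Icc 0 (2 * π) := by
      ext z
      rw [Complex.mem_reProdIm, Icc_self]
      rfl
    rw [h3]
    exact isCompact_Icc.reProdIm isCompact_Icc
  exact (h2.image_of_continuousOn (hpr.mono fun z hz => h.sub z (h.line hz.1))).isClosed

/-- facts about all metrics -/
theorem all_facts (h : Su Ω φ pr q x0 δ w c r0) (hB : Bu Ω φ pr x0 δ w c r0 μ D Φ) {f : M → ℝ}
    (hf : ContDiffOn ℝ ∞ (fun z => f (pr z)) Ω) :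
    IsUT Ω (fun z => φ z + f (pr z)) pr q ∧
    (∃ μ' : Measure M, IsArea Ω (fun z => φ z + f (pr z)) pr μ' ∧
      ∃ u lam, EB Ω (fun z => φ z + f (pr z)) pr μ' u lam) ∧
    ∀ μ' : Measure M, IsArea Ω (fun z => φ z + f (pr z)) pr μ' → IsFiniteMeasure μ' ∧
      μ' (Gm pr x0) = 0 ∧
      ∀ (u : ℕ → M → ℝ) (lam : ℕ → ℝ), EB Ω (fun z => φ z + f (pr z)) pr μ' u lam →
        Tendsto lam atTop atTop ∧ (∀ j, Integrable (fun x => (u j x) ^ 2) μ') ∧
        ∀ j, ∫ x, (u j x) ^ 2 ∂μ' = 1 := by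
  have hneM : Nonempty M := ⟨Φ 0⟩
  obtain ⟨κ, -, b1, b2, b3⟩ := fdata h hB hf
  have hUT := ut_smooth h.ut hf
  refine ⟨hUT, ⟨_, b3, ?_⟩, fun μ' hμ' => ?_⟩
  · obtain ⟨u, lam, hu⟩ := tEx M μ D hB.surf hneM κ
    obtain ⟨v, hv⟩ := eb_ex hUT b1 b2 b3 hu
    exact ⟨v, lam, hv⟩
  · have hνeq : μ' = wm μ fun x => Real.exp (κ x) :=
      Pool.Agent.H240.NL.area_unique hUT hμ' b3
    subst hνeq
    refine ⟨(tFin M _ _ b1).1, gm_null hμ' (fun z hz => h.co.sub z (h.co.line hz))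
      fun z v hz hv => h.co.per z v (h.co.line hz) (h.co.line hv), fun u lam hu => ?_⟩
    have hw := eb_weak hUT b1 b2 b3 hu
    refine ⟨Pool.Agent.H240.NL.eb_tt hB.surf hneM hw, fun j => (hw.eig j).mem.integrable_sq,
      fun j => ?_⟩
    have h8 := hw.orth j j
    rw [if_pos rfl] at h8
    rw [← h8]
    refine integral_congr_ae (Filter.Eventually.of_forall fun x => ?_)
    simp only
    ring

theorem av_lip (h : Co Ω pr x0 δ) (hpr : ContinuousOn pr Ω) (F F' : C(M, ℝ)) :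
    |Av pr x0 F - Av pr x0 F'| ≤ ‖F - F'‖ := by
  have hc : ∀ G : C(M, ℝ), Continuous fun y : ℝ => G (pr (x0 + y * Complex.I)) := by
    intro G
    refine G.continuous.comp ?_
    refine hpr.comp_continuous (by fun_prop) fun y => ?_
    exact h.sub _ (h.line (by simp))
  unfold Av
  rw [← mul_sub, ← intervalIntegral.integral_sub ((hc F).intervalIntegrable _ _)
    ((hc F').intervalIntegrable _ _), abs_mul, abs_of_pos (by positivity : (0 : ℝ) < (2 * π)⁻¹)]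
  have h1 : ‖∫ y in (0 : ℝ)..(2 * π), (F (pr (x0 + y * Complex.I)) -
      F' (pr (x0 + y * Complex.I)))‖ ≤ ‖F - F'‖ * |2 * π - 0| := by
    refine intervalIntegral.norm_integral_le_of_norm_le_const fun y _ => ?_
    exact (F - F').norm_coe_le_norm _
  rw [sub_zero, abs_of_pos (by positivity : (0 : ℝ) < 2 * π), Real.norm_eq_abs] at h1
  have h2 : (0 : ℝ) < 2 * π := by positivity
  calc (2 * π)⁻¹ * _ ≤ (2 * π)⁻¹ * (‖F - F'‖ * (2 * π)) :=
        mul_le_mul_of_nonneg_left h1 (by positivity)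
    _ = ‖F - F'‖ := by field_simp

/-- the metric near the geodesic -/
theorem Su.near (h : Su Ω φ pr q x0 δ w c r0) {H : ℝ → ℝ} (hs : ContDiff ℝ ∞ H)
    (hf : ∀ t, δ / 2 ≤ |t| → H t = 0) (cH : ℝ) {z : ℂ} (hz : |z.re - x0| ≤ r0) :
    φ z + Vm pr x0 δ w c H cH (pr z) = cH + H (z.re - x0) := by
  obtain ⟨h1, h2, h3⟩ := h.r0p
  obtain ⟨e, he1, -, he3, -⟩ := h.eH_ex hs hf cH
  have h4 := h.pb0 hz
  unfold pb at h4
  rw [vm_eq, ← he1, he3 z (lt_of_le_of_lt hz h2)]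
  linarith

theorem Su.vsm (h : Su Ω φ pr q x0 δ w c r0) {H : ℝ → ℝ} (hs : ContDiff ℝ ∞ H)
    (hf : ∀ t, δ / 2 ≤ |t| → H t = 0) (cH : ℝ) :
    ContDiffOn ℝ ∞ (fun z => Vm pr x0 δ w c H cH (pr z)) Ω := by
  obtain ⟨e, he1, he2, -, -⟩ := h.eH_ex hs hf cH
  refine (h.w1.1.add he2).congr fun z hz => ?_
  rw [vm_eq, he1]

/-- the closed geodesic persists -/
theorem Su.geo (h : Su Ω φ pr q x0 δ w c r0) {H : ℝ → ℝ} (hs : ContDiff ℝ ∞ H)
    (hf : ∀ t, δ / 2 ≤ |t| → H t = 0) {cH : ℝ} (h0 : H 0 = -cH) (h1 : deriv H 0 = 0) :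
    Ge Ω (fun z => φ z + Vm pr x0 δ w c H cH (pr z)) x0 := by
  intro Fl hFl
  obtain ⟨g1, g2, g3⟩ := h.r0p
  refine geo_line h.ut.opn (h.ut.smooth.add (h.vsm hs hf cH)) hFl
    (fun z hz => h.co.sub z (h.co.line hz)) fun z hz => ?_
  have hO : IsOpen {z : ℂ | |z.re - x0| < r0} := isOpen_lt (by fun_prop) continuous_const
  have hzO : z ∈ {z : ℂ | |z.re - x0| < r0} := by
    show |z.re - x0| < r0
    rw [hz, sub_self, abs_zero]
    exact g1
  have h2 : (fun z => φ z + Vm pr x0 δ w c H cH (pr z)) =ᶠ[𝓝 z]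
      fun z => (fun t => cH + H t) (z.re - x0) := by
    filter_upwards [hO.mem_nhds hzO] with v hv
    exact h.near hs hf cH (le_of_lt hv)
  refine ⟨?_, ?_⟩
  · rw [h2.eq_of_nhds]
    show cH + H (z.re - x0) = 0
    rw [hz, sub_self, h0]
    ring
  · have h3 : Differentiable ℝ fun t => cH + H t :=
      (hs.differentiable (by simp)).const_add cH
    unfold px
    rw [h2.fderiv_eq]
    have h4 := congrFun (Pool.Agent.H591.GU.px_re h3 x0) z
    unfold px at h4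
    rw [h4, hz, sub_self, deriv_const_add]
    exact h1

/-- the curvature on the closed geodesic -/
theorem Su.curv0 (hCx : StCx) (h : Su Ω φ pr q x0 δ w c r0) {H : ℝ → ℝ} (hs : ContDiff ℝ ∞ H)
    (hf : ∀ t, δ / 2 ≤ |t| → H t = 0) {cH : ℝ} (h2 : iteratedDeriv 2 H 0 = 0) {z : ℂ} (hz : z ∈ Ω)
    (hzG : pr z ∈ Gm pr x0) : curv (fun z => φ z + Vm pr x0 δ w c H cH (pr z)) z = 0 := by
  obtain ⟨g1, g2, g3⟩ := h.r0p
  obtain ⟨v, hv, hvz⟩ := hzG
  have hv' : v.re = x0 := hv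
  have hUT := ut_smooth h.ut (h.vsm hs hf cH)
  have h1 := (hCx M P Ω _ pr q x0 δ hUT h.co).1 z v hz (h.co.sub v (h.co.line hv')) hvz.symm
  rw [h1]
  have hO : IsOpen {z : ℂ | |z.re - x0| < r0} := isOpen_lt (by fun_prop) continuous_const
  have hzO : v ∈ {z : ℂ | |z.re - x0| < r0} := by
    show |v.re - x0| < r0
    rw [hv', sub_self, abs_zero]
    exact g1
  have h3 : (fun z => φ z + Vm pr x0 δ w c H cH (pr z)) =ᶠ[𝓝 v]
      fun z => (fun t => cH + H t) (z.re - x0) := by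
    filter_upwards [hO.mem_nhds hzO] with v hv
    exact h.near hs hf cH (le_of_lt hv)
  have h4 : ContDiff ℝ ∞ fun t => cH + H t := contDiff_const.add hs
  have h5 := Pool.Agent.H591.GU.Lp2_re h4 x0 v
  have h6 : iteratedDeriv 2 (fun t => cH + H t) 0 = 0 := by
    have h7 := itd_add' (f := fun _ => cH) contDiff_const hs 2 0
    rw [h7, h2, iteratedDeriv_const]
    simp
  rw [Pool.Agent.H240.CG.curv_congr h3]
  rw [hv', sub_self, h6] at h5
  show -(Real.exp _ * Lp2 (fun z : ℂ => (fun t => cH + H t) (z.re - x0)) v) = 0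
  rw [h5, mul_zero, neg_zero]

end

end Pool.Agent.H240.GU
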