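import Pool.Agent.H240.GU.Fin
import Pool.Agent.H596.GU.StSer
import Pool.Agent.H539.GU.StEt
import Pool.Agent.H643.GU.K8
import Pool.Agent.H181.GU.StYU
import Pool.Agent.H396.GB.SeqJ
import Pool.Agent.H127.GU.Cx
import Pool.Agent.H618.GU.StBase
import Pool.Agent.H356.GU.Fl
import Pool.Agent.H695.GU.LimI
import Pool.Agent.H996.GU.Stab

/-!
# Scars near every negatively curved surface: the final theorem, II
-/

set_option autoImplicit false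
set_option linter.unusedSectionVars false

open Set Filter Topology MeasureTheory
open scoped ContDiff ComplexConjugate Real

noncomputable section

namespace Pool.Agent.H240.GU

open Pool.Agent.Y262.EG Pool.Agent.Y262.EX Pool.Agent.Y262.EL Pool.Agent.Y262.QE
open Pool.Agent.Y264.QR Pool.Agent.H240.SC Pool.Agent.H240.SG Pool.Agent.H240.CG
open Pool.Agent.H240.AL

theorem tCx : StCx := Pool.Agent.H127.GU.stCx
theorem tBase : StBase := Pool.Agent.H618.GU.stBase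
theorem tFl : StFl := Pool.Agent.H356.GU.stFl
theorem tYU : StYU := Pool.Agent.H181.GU.stYU Pool.Agent.H695.GU.stLimI
theorem tStab : StStab := Pool.Agent.H996.GU.stStab
theorem tK : StK := Pool.Agent.H643.GU.stK tCx
theorem tKb : StKb := Pool.Agent.H591.GU.stKb tCx
theorem tEt : StEt := Pool.Agent.H539.GU.stEt
theorem tSer : StSer := Pool.Agent.H596.GU.stSer

/-- The final statement. -/
def ConclU : Prop :=
  ∀ (M P : Type) [MetricSpace M] [CompactSpace M] [MetricSpace P] [CompactSpace P]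
    [MeasurableSpace M] [BorelSpace M] (Ω : Set ℂ) (φ : ℂ → ℝ) (pr : ℂ → M) (q : Y → P)
    (x0 δ : ℝ), IsUT Ω φ pr q → Co Ω pr x0 δ → (∀ z : ℂ, z.re = x0 → φ z = 0 ∧ px φ z = 0) →
    (∀ z ∈ Ω, curv φ z < 0) →
    IsClosed (Gm pr x0) ∧ Ge Ω φ x0 ∧
    (∀ f : M → ℝ, ContDiffOn ℝ ∞ (fun z => f (pr z)) Ω →
      IsUT Ω (fun z => φ z + f (pr z)) pr q ∧ ∃ μ : Measure M,
        IsArea Ω (fun z => φ z + f (pr z)) pr μ ∧ IsFiniteMeasure μ ∧ μ (Gm pr x0) = 0 ∧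
        ∃ u lam, EB Ω (fun z => φ z + f (pr z)) pr μ u lam) ∧
    ∃ K : ℝ, ∀ ε : ℝ, 0 < ε → ∃ (f ψ : M → ℝ) (τ1 : ℝ), 0 < τ1 ∧
      (∀ τ : ℝ, 0 ≤ τ → τ < τ1 → Sm Ω φ pr (fun x => f x + τ * ψ x) ε ∧
        Ge Ω (fun z => φ z + (f (pr z) + τ * ψ (pr z))) x0 ∧
        ∀ z ∈ Ω, -K ≤ curv (fun z => φ z + (f (pr z) + τ * ψ (pr z))) z ∧
          (0 < τ → curv (fun z => φ z + (f (pr z) + τ * ψ (pr z))) z < 0)) ∧
      (∀ z ∈ Ω, curv (fun z => φ z + f (pr z)) z ≤ 0 ∧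
        (curv (fun z => φ z + f (pr z)) z = 0 ↔ pr z ∈ Gm pr x0)) ∧
      (∀ μ : Measure M, IsArea Ω (fun z => φ z + f (pr z)) pr μ →
        ∀ (u : ℕ → M → ℝ) (lam : ℕ → ℝ), EB Ω (fun z => φ z + f (pr z)) pr μ u lam →
        Tendsto lam atTop atTop ∧ ∃ J : Set ℕ,
          (∀ C : ℝ, ∃ᶠ Λ : ℝ in atTop, C * √Λ < ({j | j ∈ J ∧ lam j ≤ Λ}.ncard : ℝ)) ∧
          ∀ F : M → ℝ, Continuous F →
            Tendsto (fun j => ∫ x, F x * (u j x) ^ 2 ∂μ) (atTop ⊓ 𝓟 J) (𝓝 (Av pr x0 F))) ∧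
      ∀ (T : Finset C(M, ℝ)) (C ε' Λ0 : ℝ), 0 < ε' → ∃ (Λ1 η : ℝ), 0 < η ∧
        ∀ f' : M → ℝ, ContDiffOn ℝ ∞ (fun z => f' (pr z)) Ω → (∀ x, |f' x - f x| < η) →
        ∀ μ : Measure M, IsArea Ω (fun z => φ z + f' (pr z)) pr μ →
        ∀ (u : ℕ → M → ℝ) (lam : ℕ → ℝ), EB Ω (fun z => φ z + f' (pr z)) pr μ u lam →
        ∃ Λ : ℝ, Λ0 ≤ Λ ∧ Λ ≤ Λ1 ∧
          C * √Λ < ({j | (∀ F ∈ T, |(∫ x, F x * (u j x) ^ 2 ∂μ) - Av pr x0 F| ≤ ε') ∧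
            lam j ≤ Λ}.ncard : ℝ)

section

variable {M P : Type} [MetricSpace M] [CompactSpace M] [MetricSpace P] [CompactSpace P]
  [MeasurableSpace M] [BorelSpace M] {Ω : Set ℂ} {φ : ℂ → ℝ} {pr : ℂ → M} {q : Y → P}
  {x0 δ : ℝ} {w : ℂ → ℝ} {c r0 : ℝ} {μ : Measure M} {D : Data M} {Φ : ℂ → M}

/-- windows at all stages give one sequence -/
theorem seq_of_wu (h : Su Ω φ pr q x0 δ w c r0) (hB : Bu Ω φ pr x0 δ w c r0 μ D Φ) {f : M → ℝ}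
    (hf : ContDiffOn ℝ ∞ (fun z => f (pr z)) Ω) {T : ℕ → Finset C(M, ℝ)}
    (hT : ∀ (ν : Measure M) [IsFiniteMeasure ν] (u : ℕ → M → ℝ) (lam : ℕ → ℝ),
      Tendsto lam atTop atTop → (∀ j, Integrable (fun x => (u j x) ^ 2) ν) →
      (∀ j, ∫ x, (u j x) ^ 2 ∂ν = 1) →
      (∀ n : ℕ, ∃ Λ : ℝ, (n : ℝ) ≤ Λ ∧ n * √Λ <
        ({j | (∀ h ∈ T n, |(∫ x, h x * (u j x) ^ 2 ∂ν) - Av pr x0 h| ≤ 1 / ((n : ℝ) + 1)) ∧
          lam j ≤ Λ}.ncard : ℝ)) →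
      ∃ J : Set ℕ, (∀ C : ℝ, ∃ᶠ Λ : ℝ in atTop, C * √Λ < ({j | j ∈ J ∧ lam j ≤ Λ}.ncard : ℝ)) ∧
        ∀ h : C(M, ℝ), Tendsto (fun j => ∫ x, h x * (u j x) ^ 2 ∂ν) (atTop ⊓ 𝓟 J)
          (𝓝 (Av pr x0 h)))
    (hW : ∀ n : ℕ, Wu Ω pr x0 (fun z => φ z + f (pr z)) (T n) n (1 / ((n : ℝ) + 1)) n)
    {μ' : Measure M} (hμ' : IsArea Ω (fun z => φ z + f (pr z)) pr μ') {u : ℕ → M → ℝ}
    {lam : ℕ → ℝ} (hu : EB Ω (fun z => φ z + f (pr z)) pr μ' u lam) :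
    Tendsto lam atTop atTop ∧ ∃ J : Set ℕ,
      (∀ C : ℝ, ∃ᶠ Λ : ℝ in atTop, C * √Λ < ({j | j ∈ J ∧ lam j ≤ Λ}.ncard : ℝ)) ∧
      ∀ F : M → ℝ, Continuous F →
        Tendsto (fun j => ∫ x, F x * (u j x) ^ 2 ∂μ') (atTop ⊓ 𝓟 J) (𝓝 (Av pr x0 F)) := by
  obtain ⟨-, -, h3⟩ := all_facts h hB hf
  obtain ⟨h4, -, h5⟩ := h3 μ' hμ'
  obtain ⟨h6, h7, h8⟩ := h5 u lam hu
  refine ⟨h6, ?_⟩
  obtain ⟨J, hJ1, hJ2⟩ := hT μ' u lam h6 h7 h8 fun n => by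
    obtain ⟨Λ1, η, hη, h9⟩ := hW n
    have hz : ∀ z ∈ Ω, φ z + f (pr z) + (fun _ : M => (0 : ℝ)) (pr z) = φ z + f (pr z) :=
      fun z _ => add_zero _
    obtain ⟨Λ, e1, -, e3⟩ := h9 (fun _ => 0) contDiffOn_const
      (fun x => by rw [abs_zero]; exact hη) μ' (area_congr hμ' hz) u lam (eb_congr hu hz)
    exact ⟨Λ, e1, e3⟩
  exact ⟨J, hJ1, fun F hF => hJ2 ⟨F, hF⟩⟩

/-- complete scars give windows for all nearby metrics -/
theorem win_of_seq (h : Su Ω φ pr q x0 δ w c r0) (hB : Bu Ω φ pr x0 δ w c r0 μ D Φ) {f : M → ℝ}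
    (hf : ContDiffOn ℝ ∞ (fun z => f (pr z)) Ω)
    (hJ : ∀ μ : Measure M, IsArea Ω (fun z => φ z + f (pr z)) pr μ →
        ∀ (u : ℕ → M → ℝ) (lam : ℕ → ℝ), EB Ω (fun z => φ z + f (pr z)) pr μ u lam →
        Tendsto lam atTop atTop ∧ ∃ J : Set ℕ,
          (∀ C : ℝ, ∃ᶠ Λ : ℝ in atTop, C * √Λ < ({j | j ∈ J ∧ lam j ≤ Λ}.ncard : ℝ)) ∧
          ∀ F : M → ℝ, Continuous F →
            Tendsto (fun j => ∫ x, F x * (u j x) ^ 2 ∂μ) (atTop ⊓ 𝓟 J) (𝓝 (Av pr x0 F)))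
    (T : Finset C(M, ℝ)) (C ε' Λ0 : ℝ) (hε' : 0 < ε') : ∃ (Λ1 η : ℝ), 0 < η ∧
        ∀ f' : M → ℝ, ContDiffOn ℝ ∞ (fun z => f' (pr z)) Ω → (∀ x, |f' x - f x| < η) →
        ∀ μ : Measure M, IsArea Ω (fun z => φ z + f' (pr z)) pr μ →
        ∀ (u : ℕ → M → ℝ) (lam : ℕ → ℝ), EB Ω (fun z => φ z + f' (pr z)) pr μ u lam →
        ∃ Λ : ℝ, Λ0 ≤ Λ ∧ Λ ≤ Λ1 ∧
          C * √Λ < ({j | (∀ F ∈ T, |(∫ x, F x * (u j x) ^ 2 ∂μ) - Av pr x0 F| ≤ ε') ∧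
            lam j ≤ Λ}.ncard : ℝ) := by
  have hneM : Nonempty M := ⟨Φ 0⟩
  obtain ⟨κ, hκ, b1, b2, b3⟩ := fdata h hB hf
  have hUT := ut_smooth h.ut hf
  obtain ⟨Λ1, η, hη, hst⟩ := stabW μ D hB.surf hneM κ T (fun F => Av pr x0 F)
    (fun u lam hu => by
      obtain ⟨v, hv, huv⟩ := eb_ex2 hUT b1 b2 b3 hu
      obtain ⟨-, J, hJ1, hJ2⟩ := hJ _ b3 v lam hv
      refine ⟨J, hJ1, fun F _ => ?_⟩
      refine (hJ2 F F.continuous).congr fun j => integral_congr_ae ?_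
      filter_upwards [huv j] with x hx
      rw [hx]) C ε' Λ0 hε'
  refine ⟨Λ1, η / 2, by positivity, fun f' hf' hfη μ' hμ' u lam hu => ?_⟩
  obtain ⟨κ', hκ', d1, d2, d3⟩ := fdata h hB hf'
  have hUT' := ut_smooth h.ut hf'
  have hνeq : μ' = wm μ fun x => Real.exp (κ' x) :=
    Pool.Agent.H240.NL.area_unique hUT' hμ' d3
  subst hνeq
  have hw := eb_weak hUT' d1 d2 d3 hu
  have hκκ : κ' = κ + (κ' - κ) := by abel
  have hn : ‖κ' - κ‖ < η := by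
    rw [ContinuousMap.norm_lt_iff _ hη]
    intro x
    have h1 : (κ' - κ) x = 2 * (f' x - f x) := by
      show κ' x - κ x = _
      rw [hκ, hκ']
      ring
    rw [h1, Real.norm_eq_abs, abs_mul, abs_two]
    linarith [hfη x]
  rw [hκκ] at hw
  obtain ⟨Λ, e1, e2, e3⟩ := hst (κ' - κ) hn u lam hw
  rw [← hκκ] at e3
  exact ⟨Λ, e1, e2, e3⟩

end

/-- **The main theorem.** -/
theorem conclU (tSurf : StSurf) (tNr : StNr) : ConclU := by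
  intro M P _ _ _ _ _ _ Ω φ pr q x0 δ hUT hCo hgeo hneg
  have hδ := hCo.δp
  obtain ⟨-, hper, hcxp⟩ := tCx M P Ω φ pr q x0 δ hUT hCo
  have hsub : Sx x0 δ ⊆ Ω := fun z hz => hCo.sub z hz
  have hL : ∀ z ∈ Sx x0 δ, 0 < Lp2 φ z := fun z hz =>
    (Pool.Agent.H643.GU.curv_neg_iff φ z).1 (hneg z (hsub hz))
  obtain ⟨B, hB⟩ := tFl φ x0 δ hδ (hUT.smooth.mono hsub) hper hgeo hL
  obtain ⟨K1, hK1⟩ := tKb M P Ω φ pr q x0 δ hUT hCo B
  obtain ⟨Kn, hKn0, hKn⟩ := tNr M P Ω φ pr q x0 δ hUT hCo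
  have hmk : ∀ {w : ℂ → ℝ} {c r0 : ℝ}, FlU φ x0 δ w c r0 →
      (∀ z ∈ Sx x0 δ, δ / 2 ≤ |z.re - x0| → w z = 0) → Su Ω φ pr q x0 δ w c r0 :=
    fun h1 h2 => ⟨hUT, hCo, h1, h2, hcxp⟩
  -- general facts
  obtain ⟨w1, c1, r1, hw1, -, -, -, hw1', -⟩ := hB 1 one_pos
  have hSu1 := hmk hw1 hw1'
  obtain ⟨μ1, D1, Φ1, hB1⟩ := bu_ex tBase hSu1
  refine ⟨gm_eq hCo hUT.contp, fun Fl hFl => geo_line hUT.opn hUT.smooth hFl
    (fun z hz => hCo.sub z (hCo.line hz)) hgeo, fun f hf => ?_, K1, fun ε hε => ?_⟩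
  · obtain ⟨a1, ⟨μ', a2, u, lam, a3⟩, a4⟩ := all_facts hSu1 hB1 hf
    exact ⟨a1, μ', a2, (a4 μ' a2).1, (a4 μ' a2).2.1, u, lam, a3⟩
  · -- the flattening
    set ε1 : ℝ := min 1 (ε / Kn) with hε1
    have hε1p : 0 < ε1 := by positivity
    have hε11 : ε1 ≤ 1 := min_le_left _ _
    have hε1K : Kn * ε1 ≤ ε := by
      have h1 : ε1 ≤ ε / Kn := min_le_right _ _
      calc Kn * ε1 ≤ Kn * (ε / Kn) := mul_le_mul_of_nonneg_left h1 hKn0.le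
        _ = ε := by field_simp
    obtain ⟨w, c, r0, hFl, -, hcε, hwε, hw2, hwB⟩ := hB ε1 hε1p
    have hSu := hmk hFl hw2
    obtain ⟨μ, D, Φ, hBu⟩ := bu_ex tBase hSu
    obtain ⟨κ0, hκ0, hκ⟩ := tK M P Ω φ pr q x0 δ hUT hCo hneg w c r0 hFl hw2
    set κ1 : ℝ := min (κ0 / 2) (ε1 / 2) with hκ1
    have hκ1p : 0 < κ1 := by positivity
    have hκ1a : κ1 ≤ κ0 / 2 := min_le_left _ _
    have hκ1b : κ1 ≤ ε1 / 2 := min_le_right _ _
    obtain ⟨T, hT⟩ := Pool.Agent.H396.GB.stSeqJ M (fun F => Av pr x0 F) (av_lip hCo hUT.contp)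
    obtain ⟨H, cH, hHt, hHj, hHW⟩ := lim_gu tSurf tYU tStab tEt tSer hSu hBu T hκ1p
    -- the direction
    obtain ⟨η, hη1, hη2, hη3, hη4, hη5, hη6⟩ := tEt.2 δ hδ
    choose Kη hKη using hη6
    set Km : ℝ := 1 + (|Kη 0| + |Kη 1| + |Kη 2|) with hKm
    have hKmp : 0 < Km := by positivity
    have hKj : ∀ j ≤ 2, Kη j ≤ Km := by
      intro j hj
      have a0 := le_abs_self (Kη 0)
      have a1 := le_abs_self (Kη 1)
      have a2 := le_abs_self (Kη 2)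
      have b0 := abs_nonneg (Kη 0)
      have b1 := abs_nonneg (Kη 1)
      have b2 := abs_nonneg (Kη 2)
      interval_cases j <;> linarith
    have hKm1 : 1 ≤ Km := by
      have b0 := abs_nonneg (Kη 0)
      have b1 := abs_nonneg (Kη 1)
      have b2 := abs_nonneg (Kη 2)
      linarith
    have hsm : ∀ τ : ℝ, ContDiff ℝ ∞ fun t => H t + τ * η t := fun τ =>
      hHt.sm.add (contDiff_const.mul hη1)
    have hfar : ∀ (τ : ℝ) (t : ℝ), δ / 2 ≤ |t| → H t + τ * η t = 0 := fun τ t ht => by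
      rw [hHt.far t ht, hη2 t ht, mul_zero, add_zero]
    have hz0 : ∀ τ : ℝ, H 0 + τ * η 0 = -(cH + τ) := fun τ => by
      rw [hHt.z0, hη3]
      ring
    have hz1 : ∀ τ : ℝ, deriv (fun t => H t + τ * η t) 0 = 0 := fun τ => by
      have d1 : HasDerivAt H (deriv H 0) 0 := ((hHt.sm.differentiable (by simp)) _).hasDerivAt
      have d2 : HasDerivAt η (deriv η 0) 0 := ((hη1.differentiable (by simp)) _).hasDerivAt
      have d3 : HasDerivAt (fun t => H t + τ * η t) (deriv H 0 + τ * deriv η 0) 0 :=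
        d1.add (d2.const_mul τ)
      rw [d3.deriv, hHt.z1, hη4]
      ring
    have hbd : ∀ τ : ℝ, 0 ≤ τ → τ < κ1 / Km → ∀ j ≤ 2, ∀ t,
        |iteratedDeriv j (fun t => H t + τ * η t) t| ≤ 2 * κ1 := by
      intro τ hτ hτ1 j hj t
      rw [itd_add' hHt.sm (contDiff_const.mul hη1), itd_smul' hη1]
      refine (abs_add_le _ _).trans ?_
      have h1 := hHt.bd j hj t
      rw [abs_mul, abs_of_nonneg hτ]
      have h2 : τ * |iteratedDeriv j η t| ≤ τ * Km :=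
        mul_le_mul_of_nonneg_left ((hKη j t).trans (hKj j hj)) hτ
      have h3 : τ * Km ≤ κ1 := ((lt_div_iff₀ hKmp).1 hτ1).le
      linarith
    have hbc : ∀ τ : ℝ, 0 ≤ τ → τ < κ1 / Km → |cH + τ| ≤ 2 * κ1 := by
      intro τ hτ hτ1
      refine (abs_add_le _ _).trans ?_
      have h1 := hHt.bc
      have h3 : τ * Km ≤ κ1 := ((lt_div_iff₀ hKmp).1 hτ1).le
      have h4 : τ ≤ τ * Km := le_mul_of_one_le_right hτ hKm1
      rw [abs_of_nonneg hτ]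
      linarith
    set f : M → ℝ := Vm pr x0 δ w c H cH with hf
    set ψ : M → ℝ := eH pr x0 δ η 1 with hψ
    have hfψ : ∀ (τ : ℝ) (x : M),
        f x + τ * ψ x = Vm pr x0 δ w c (fun t => H t + τ * η t) (cH + τ) x := by
      intro τ x
      rw [hf, hψ, vm_eq, vm_eq, eH_lin]
      ring
    have hfψ' : ∀ τ : ℝ, (fun x => f x + τ * ψ x) =
        Vm pr x0 δ w c (fun t => H t + τ * η t) (cH + τ) := fun τ => funext (hfψ τ)
    have hfs : ContDiffOn ℝ ∞ (fun z => f (pr z)) Ω := hSu.vsm hHt.sm hHt.far cH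
    have hseq : ∀ μ : Measure M, IsArea Ω (fun z => φ z + f (pr z)) pr μ →
        ∀ (u : ℕ → M → ℝ) (lam : ℕ → ℝ), EB Ω (fun z => φ z + f (pr z)) pr μ u lam →
        Tendsto lam atTop atTop ∧ ∃ J : Set ℕ,
          (∀ C : ℝ, ∃ᶠ Λ : ℝ in atTop, C * √Λ < ({j | j ∈ J ∧ lam j ≤ Λ}.ncard : ℝ)) ∧
          ∀ F : M → ℝ, Continuous F →
            Tendsto (fun j => ∫ x, F x * (u j x) ^ 2 ∂μ) (atTop ⊓ 𝓟 J) (𝓝 (Av pr x0 F)) :=
      fun μ' hμ' u lam hu => seq_of_wu hSu hBu hfs hT hHW hμ' hu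
    refine ⟨f, ψ, κ1 / Km, by positivity, fun τ hτ hτ1 => ?_, fun z hz => ?_, hseq,
      fun T' C ε' Λ0 hε' => win_of_seq hSu hBu hfs hseq T' C ε' Λ0 hε'⟩
    · have hφe : (fun z => φ z + (f (pr z) + τ * ψ (pr z))) =
          fun z => φ z + Vm pr x0 δ w c (fun t => H t + τ * η t) (cH + τ) (pr z) := by
        funext z
        rw [hfψ τ]
      have h2κ : 2 * κ1 ≤ ε1 := by linarith
      rw [hfψ' τ, hφe]
      refine ⟨?_, hSu.geo (hsm τ) (hfar τ) (hz0 τ) (hz1 τ), fun z hz => ⟨?_, fun hτp => ?_⟩⟩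
      · obtain ⟨n1, n2⟩ := hKn w c (fun t => H t + τ * η t) (cH + τ) ε1 hFl.cw hwε hw2 hcε (hsm τ)
          (hfar τ) (fun t => by
            have e0 := hbd τ hτ hτ1 0 (by norm_num) t
            have e1 := hbd τ hτ hτ1 1 (by norm_num) t
            rw [iteratedDeriv_zero] at e0
            rw [iteratedDeriv_one] at e1
            exact ⟨by linarith, by linarith⟩) ((hbc τ hτ hτ1).trans h2κ)
        exact ⟨hSu.vsm (hsm τ) (hfar τ) _, fun x => (n1 x).trans hε1K,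
          fun z hz => (n2 z hz).trans hε1K⟩
      · refine hK1 w c _ _ hFl.cw (fun z hz => (hwε z hz).1.trans hε11) (hcε.trans hε11) hw2 hwB
          (hsm τ) (hfar τ) (fun j hj t => ?_) ?_ z hz
        · exact (hbd τ hτ hτ1 j hj t).trans (h2κ.trans hε11)
        · exact (hbc τ hτ hτ1).trans (h2κ.trans hε11)
      · have hHt' : Ht δ κ0 (fun t => H t + τ * η t) (cH + τ) (-1) := by
          refine ⟨hsm τ, hfar τ, fun t ht => ?_, hz0 τ, hz1 τ, fun t _ ht => ?_,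
            fun j hj t => (hbd τ hτ hτ1 j hj t).trans (by linarith),
            (hbc τ hτ hτ1).trans (by linarith)⟩
          · have := abs_nonneg t
            linarith
          · rw [itd_add' hHt.sm (contDiff_const.mul hη1), itd_smul' hη1]
            have h1 := mul_pos hτp (hη5 t ht)
            rcases eq_or_ne t 0 with h2 | h2
            · rw [h2, hHj 2 (by norm_num)]
              rw [h2] at h1
              linarith
            · have h3 := hHt.cvx t (abs_pos.2 h2) ht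
              linarith
        refine ((hκ _ _ (-1) (by linarith [hFl.rp]) hHt') z hz).2 ?_
        rintro ⟨v, hv, -⟩
        have hv' : |v.re - x0| ≤ -1 := hv
        have := abs_nonneg (v.re - x0)
        linarith
    · obtain ⟨k1, k2⟩ := hκ H cH 0 hFl.rp (hHt.mono (by linarith)) z hz
      refine ⟨k1, fun h0 => ?_, fun hG => hSu.curv0 tCx hHt.sm hHt.far (hHj 2 (by norm_num)) hz hG⟩
      by_contra hcon
      have hnot : pr z ∉ pr '' {z : ℂ | |z.re - x0| ≤ 0} := by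
        rintro ⟨v, hv, hvz⟩
        have hv' : |v.re - x0| ≤ 0 := hv
        exact hcon ⟨v, sub_eq_zero.1 (abs_nonpos_iff.1 hv'), hvz⟩
      exact absurd h0 (k2 hnot).ne

end Pool.Agent.H240.GU
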