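import Pool.Agent.H240.GU.Fin2
import Pool.Agent.H94.GU.Surf
import Pool.Agent.H727.GU.Nr

/-!
# Scars near every negatively curved surface: the final theorem, III
-/

set_option autoImplicit false
set_option linter.unusedSectionVars false

open Set Filter Topology MeasureTheory
open scoped ContDiff ComplexConjugate Real

noncomputable section

namespace Pool.Agent.H240.GU

open Pool.Agent.Y262.EG Pool.Agent.Y262.EX Pool.Agent.Y262.EL Pool.Agent.Y262.QE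
open Pool.Agent.Y264.QR Pool.Agent.H240.SC Pool.Agent.H240.SG Pool.Agent.H240.CG
open Pool.Agent.H240.AL

theorem tSurf : StSurf := Pool.Agent.H94.GU.stSurf
theorem tNr : StNr := Pool.Agent.H727.GU.stNr tCx

theorem fin9 : ConclU := conclU tSurf tNr

/-- the unit tangent bundle of a quotient -/
theorem act_ut {G : Type} [Group G] {Ω : Set ℂ} {a : G → ℂ → ℂ} {φ : ℂ → ℝ} {M : Type}
    [MetricSpace M] [CompactSpace M] {pr : ℂ → M} (hA : Act G Ω a) (hI : Inva Ω φ a)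
    (hpr : PrM Ω a pr) :
    ∃ (P : Type) (_ : MetricSpace P) (_ : CompactSpace P) (q : Y → P), PrP Ω a q ∧
      IsUT Ω φ pr q := by
  obtain ⟨P, iP, cP, q, hq⟩ := Pool.Agent.Y848.EX.qP Pool.Agent.Y749.EX.top G Ω a hA
    (fun γ z hz => (hI.2 γ z hz).1)
  exact ⟨P, iP, cP, q, hq, Pool.Agent.Y145.EX.qU G Ω a φ M P pr q hA hI hpr hq⟩

/-- invariance of the changed metric -/
theorem act_inva {G : Type} [Group G] {Ω : Set ℂ} {a : G → ℂ → ℂ} {φ : ℂ → ℝ} {M : Type}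
    [MetricSpace M] {pr : ℂ → M} (hA : Act G Ω a) (hI : Inva Ω φ a)
    (hpr : PrM Ω a pr) {f : M → ℝ} (hf : ContDiffOn ℝ ∞ (fun z => f (pr z)) Ω) :
    Inva Ω (fun z => φ z + f (pr z)) a := by
  refine ⟨hI.1.add hf, fun γ z hz => ?_⟩
  obtain ⟨k1, k2⟩ := hI.2 γ z hz
  refine ⟨k1, ?_⟩
  have k3 : pr (a γ z) = pr z := ((hpr.rel z hz _ (hA.maps γ z hz)).2 ⟨γ, rfl⟩).symm
  show φ (a γ z) + f (pr (a γ z)) + Real.log ‖deriv (a γ) z‖ = φ z + f (pr z)
  rw [k3]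
  linarith

/-- the closed geodesic and the geodesic flow of the changed metric -/
theorem act_geo {G : Type} [Group G] {Ω : Set ℂ} {a : G → ℂ → ℂ} {φ : ℂ → ℝ} {M : Type}
    [MetricSpace M] {pr : ℂ → M} {x0 : ℝ} (hA : Act G Ω a) (hI : Inva Ω φ a)
    (hpr : PrM Ω a pr) {f : M → ℝ} (hf : ContDiffOn ℝ ∞ (fun z => f (pr z)) Ω)
    (hG : Ge Ω (fun z => φ z + f (pr z)) x0) :
    ∃ Fl : ℝ → Y → Y, IsGeo Ω (fun z => φ z + f (pr z)) Fl ∧ ∀ z : ℂ, z.re = x0 → ∀ t : ℝ,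
      Fl t (z, π / 2) = (z + t * Complex.I, π / 2) := by
  obtain ⟨Fl, hFl⟩ := tGeo G Ω a _ hA (act_inva hA hI hpr hf)
  exact ⟨Fl, hFl, hG Fl hFl⟩

end Pool.Agent.H240.GU
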