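import Pool.Agent.H240.GU.SeqE

/-!
# Scars near every negatively curved surface: the limit metric with control of the third derivative
-/

set_option autoImplicit false
set_option linter.unusedSectionVars false

open Set Filter Topology MeasureTheory
open scoped ContDiff ComplexConjugate Real

noncomputable section

namespace Pool.Agent.H240.GU

open Pool.Agent.Y262.EG Pool.Agent.Y262.EX Pool.Agent.Y262.EL Pool.Agent.Y262.QE
open Pool.Agent.Y264.QR Pool.Agent.H240.SC Pool.Agent.H240.SG Pool.Agent.H240.CG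
open Pool.Agent.H240.AL

section

variable {M P : Type} [MetricSpace M] [CompactSpace M] [MetricSpace P] [CompactSpace P]
  [MeasurableSpace M] [BorelSpace M] {Ω : Set ℂ} {φ : ℂ → ℝ} {pr : ℂ → M} {q : Y → P}
  {x0 δ : ℝ} {w : ℂ → ℝ} {c r0 : ℝ} {μ : Measure M} {D : Data M} {Φ : ℂ → M}

/-- **The limit metric.** -/
theorem lim_ge (hSf : StSurf) (hYU : StYU) (hStab : StStab) (hSer : StSer)
    (h : Su Ω φ pr q x0 δ w c r0) (hB : Bu Ω φ pr x0 δ w c r0 μ D Φ) (T : ℕ → Finset C(M, ℝ))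
    {κ1 : ℝ} (hκ1 : 0 < κ1) :
    ∃ (H : ℝ → ℝ) (cH : ℝ), Ht δ κ1 H cH 0 ∧ (∀ j, 1 ≤ j → iteratedDeriv j H 0 = 0) ∧
      (∃ C : ℝ, D3 δ H C) ∧ ∀ n : ℕ, Wu Ω pr x0 (fun z => φ z + Vm pr x0 δ w c H cH (pr z)) (T n) n
        (1 / ((n : ℝ) + 1)) n := by
  classical
  obtain ⟨h1, h2, h3⟩ := h.r0p
  have hoscn := fun n : ℕ => osc h.co h.ut.contp (T n)
    (ε := 1 / ((n : ℝ) + 1) / 2) (by positivity)
  choose ro hro1 hro2 using hoscn
  -- the initial state
  obtain ⟨H0, c0, ρ0, hH0, hρ0, hρ0r, hρ01, hρ0o, hH0D⟩ : ∃ (H0 : ℝ → ℝ) (c0 ρ0 : ℝ),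
      Ht δ (κ1 * (1 - 1 / 2 ^ (0 + 1))) H0 c0 ρ0 ∧ 0 < ρ0 ∧ ρ0 < r0 ∧
      ρ0 ≤ 1 / (((0 : ℕ) : ℝ) + 1) ∧ ρ0 ≤ ro 0 ∧ D3 δ H0 1 := by
    set ρ0 : ℝ := min (r0 / 2) (min 1 (ro 0)) with hρ0
    have hp : 0 < ρ0 := by
      have := hro1 0
      positivity
    have hlt : ρ0 < r0 := (min_le_left _ _).trans_lt (by linarith)
    obtain ⟨η, Ce, hη, hCe, hD3⟩ := etE.1 δ ρ0 hp (by linarith [h.fl.rL])
    have hbd := hη.bd
    choose K hK using hbd
    set Km : ℝ := 1 + (|K 0| + |K 1| + |K 2|) with hKm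
    have hKp : 0 < Km := by positivity
    set s : ℝ := min (κ1 / 2 / Km) ((1 / (Ce + 1)) ^ (40 : ℕ)) with hs
    have hsp : 0 < s := by positivity
    have hsK : s * Km ≤ κ1 / 2 := by
      calc s * Km ≤ κ1 / 2 / Km * Km := mul_le_mul_of_nonneg_right (min_le_left _ _) hKp.le
        _ = κ1 / 2 := by field_simp
    have hn : ∀ t, |t| ≤ δ / 4 → 0 ≤ iteratedDeriv 2 η t := by
      intro t ht
      rcases le_or_gt (|t|) ρ0 with h4 | h4
      · exact (itd2_const_on hp hη.sm hη.zer h4).ge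
      · exact (hη.cvx t h4 ht).le
    have hKj : ∀ j ≤ 2, K j ≤ Km := by
      intro j hj
      have a0 := le_abs_self (K 0)
      have a1 := le_abs_self (K 1)
      have a2 := le_abs_self (K 2)
      have b0 := abs_nonneg (K 0)
      have b1 := abs_nonneg (K 1)
      have b2 := abs_nonneg (K 2)
      interval_cases j <;> linarith
    have hs1 : s ≤ κ1 / 2 := by
      have : 1 ≤ Km := by
        have b0 := abs_nonneg (K 0)
        have b1 := abs_nonneg (K 1)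
        have b2 := abs_nonneg (K 2)
        linarith
      nlinarith
    have hz : ∀ t, |t| ≤ ρ0 → s * η t = -s := by
      intro t ht
      rw [hη.zer t ht]
      ring
    have hκe : κ1 * (1 - 1 / 2 ^ (0 + 1)) = κ1 / 2 := by
      norm_num
      ring
    refine ⟨fun t => s * η t, s, ρ0, ⟨contDiff_const.mul hη.sm, fun t ht => ?_, hz,
      hz 0 (by rw [abs_zero]; exact hp.le), ?_, fun t ht1 ht2 => ?_, fun j hj t => ?_, ?_⟩, hp, hlt,
      ?_, (min_le_right _ _).trans (min_le_right _ _),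
      D3.smul hη.sm hCe hD3 hn hsp one_pos (min_le_right _ _)⟩
    · rw [hη.far t ht, mul_zero]
    · exact deriv_const_on hp (contDiff_const.mul hη.sm) hz (by rw [abs_zero]; exact hp.le)
    · rw [itd_smul' hη.sm]
      exact mul_pos hsp (hη.cvx t ht1 ht2)
    · rw [itd_smul' hη.sm, abs_mul, abs_of_pos hsp, hκe]
      exact (mul_le_mul_of_nonneg_left ((hK j t).trans (hKj j hj)) hsp.le).trans hsK
    · rw [hκe, abs_of_pos hsp]
      exact hs1
    · have : ρ0 ≤ 1 := (min_le_right _ _).trans (min_le_left _ _)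
      simpa using this
  let P0 : ℕ → (ℝ → ℝ) × ℝ × ℝ × ℝ → Prop := fun n S =>
    Ht δ (κ1 * (1 - 1 / 2 ^ (n + 1))) S.1 S.2.1 S.2.2.1 ∧ 0 < S.2.2.1 ∧ S.2.2.1 < r0 ∧
      S.2.2.1 ≤ 1 / ((n : ℝ) + 1) ∧ S.2.2.1 ≤ ro n ∧ 0 < S.2.2.2
  let R0 : ℕ → (ℝ → ℝ) × ℝ × ℝ × ℝ → (ℝ → ℝ) × ℝ × ℝ × ℝ → Prop := fun n S S' =>
    ∃ (d : ℝ → ℝ) (s : ℝ), S'.1 = (fun t => S.1 t + d t) ∧ S'.2.1 = S.2.1 + s ∧
      ContDiff ℝ ∞ d ∧ (∀ t, δ / 2 ≤ |t| → d t = 0) ∧ 0 < s ∧
      s ≤ min (S.2.2.2 / 8) (κ1 / 2 ^ (n + 2)) ∧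
      (∀ t, |t| ≤ S'.2.2.1 → d t = -s) ∧
      (∀ j ≤ n + 2, ∀ t, |iteratedDeriv j d t| ≤ min (S.2.2.2 / 8) (κ1 / 2 ^ (n + 2))) ∧
      (∀ j, ∃ K : ℝ, ∀ t, |iteratedDeriv j d t| ≤ K) ∧
      (∀ t, S'.2.2.1 < |t| → |t| ≤ δ / 4 → 0 < iteratedDeriv 2 d t) ∧
      D3 δ d (1 / 2 ^ (n + 1)) ∧ S'.2.2.2 ≤ S.2.2.2 / 2 ∧
      ∃ (Λ1 θ : ℝ), 2 * S'.2.2.2 ≤ θ ∧ ∀ f' : M → ℝ, ContDiffOn ℝ ∞ (fun z => f' (pr z)) Ω →
        (∀ x, |f' x| < θ) → ∀ μ' : Measure M,
        IsArea Ω (fun z => (φ z + Vm pr x0 δ w c S'.1 S'.2.1 (pr z)) + f' (pr z)) pr μ' →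
        ∀ (u : ℕ → M → ℝ) (lam : ℕ → ℝ),
        EB Ω (fun z => (φ z + Vm pr x0 δ w c S'.1 S'.2.1 (pr z)) + f' (pr z)) pr μ' u lam →
        ∃ Λ : ℝ, (n : ℝ) ≤ Λ ∧ Λ ≤ Λ1 ∧
          n * √Λ < ({j | (∀ h ∈ T n, |(∫ x, h x * (u j x) ^ 2 ∂μ') - Av pr x0 h| ≤
            1 / ((n : ℝ) + 1)) ∧ lam j ≤ Λ}.ncard : ℝ)
  obtain ⟨S, hS0, hSP, hSR⟩ := seq_ex2 (P := P0) (R := R0) (H0, c0, ρ0, 1)
      ⟨hH0, hρ0, hρ0r, hρ01, hρ0o, one_pos⟩ (by
    rintro n ⟨H, cH, ρ, t⟩ ⟨hH, hρ, hρr, hρn, hρo, ht⟩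
    have hH' : Ht δ (κ1 * (1 - 1 / 2 ^ (n + 1))) H cH ρ := hH
    have hρ' : 0 < ρ := hρ
    have hρr' : ρ < r0 := hρr
    have hρo' : ρ ≤ ro n := hρo
    have ht' : 0 < t := ht
    set ρ1 : ℝ := min (ρ / 2) (min (1 / ((n : ℝ) + 1 + 1)) (ro (n + 1))) with hρ1
    have hρ1p : 0 < ρ1 := by
      have := hro1 (n + 1)
      positivity
    have hρ1l : ρ1 < ρ := (min_le_left _ _).trans_lt (by linarith)
    obtain ⟨d, s, d1, d2, d3, d4, d5, d6, d7, d8, d8b, Λ1, θ, hθ, hwin⟩ :=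
      step_ge hSf hYU hStab h hB hH' hρ1p hρ1l hρr' (T n) n (ε := 1 / ((n : ℝ) + 1)) n
        (by positivity) (fun F hF z hz => hro2 n F hF z (hz.trans hρo'))
        (b := min (t / 8) (κ1 / 2 ^ (n + 2))) (by positivity)
        (b2 := 1 / 2 ^ (n + 1)) (by positivity) (n + 2)
    refine ⟨(fun t => H t + d t, cH + s, ρ1, min (t / 2) (θ / 2)), ⟨?_, hρ1p,
      hρ1l.trans hρr', ?_, ?_, ?_⟩, d, s, rfl, rfl, d1, d2, d3, d4, d5, d6, d7, d8, d8b,
      min_le_left _ _, Λ1, θ, ?_, hwin⟩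
    · refine ht_add hH' hρ1p hρ1l d1 d2 d3 d4 d5 (fun j hj t => d6 j (by omega) t) d8 ?_
      have e1 : min (t / 8) (κ1 / 2 ^ (n + 2)) ≤ κ1 / 2 ^ (n + 2) := min_le_right _ _
      have e2 : κ1 * (1 - 1 / 2 ^ (n + 1)) + κ1 / 2 ^ (n + 2) = κ1 * (1 - 1 / 2 ^ (n + 1 + 1)) := by
        have e3 : (2 : ℝ) ^ (n + 1) ≠ 0 := by positivity
        rw [pow_succ 2 (n + 1)]
        field_simp
        ring
      linarith
    · show ρ1 ≤ 1 / (((n + 1 : ℕ) : ℝ) + 1)
      push_cast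
      exact (min_le_right _ _).trans (min_le_left _ _)
    · exact (min_le_right _ _).trans (min_le_right _ _)
    · show 0 < min (t / 2) (θ / 2)
      positivity
    · have e1 : min (t / 2) (θ / 2) ≤ θ / 2 := min_le_right _ _
      show 2 * min (t / 2) (θ / 2) ≤ θ
      linarith)
  set H : ℕ → ℝ → ℝ := fun n => (S n).1 with hHd
  set cc : ℕ → ℝ := fun n => (S n).2.1 with hccd
  set ρ : ℕ → ℝ := fun n => (S n).2.2.1 with hρd
  set t : ℕ → ℝ := fun n => (S n).2.2.2 with htd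
  set b : ℕ → ℝ := fun n => min (t n / 8) (κ1 / 2 ^ (n + 2)) with hbd
  have hHn : ∀ n, Ht δ (κ1 * (1 - 1 / 2 ^ (n + 1))) (H n) (cc n) (ρ n) := fun n => (hSP n).1
  have hρp : ∀ n, 0 < ρ n := fun n => (hSP n).2.1
  have hρ1 : ∀ n : ℕ, ρ n ≤ 1 / ((n : ℝ) + 1) := fun n => (hSP n).2.2.2.1
  have htp : ∀ n, 0 < t n := fun n => (hSP n).2.2.2.2.2
  choose d s d0 dc d1 d2 d3 d4 d5 d6 d7 d8 d8b d9 hwin using hSR
  have d0' : ∀ n, H (n + 1) = fun x => H n x + d n x := d0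
  have dc' : ∀ n, cc (n + 1) = cc n + s n := dc
  have d4' : ∀ n, s n ≤ b n := d4
  have d5' : ∀ n x, |x| ≤ ρ (n + 1) → d n x = -s n := d5
  have d6' : ∀ n, ∀ j ≤ n + 2, ∀ x, |iteratedDeriv j (d n) x| ≤ b n := d6
  have d8' : ∀ n x, ρ (n + 1) < |x| → |x| ≤ δ / 4 → 0 < iteratedDeriv 2 (d n) x := d8
  have htn : ∀ n, t (n + 1) ≤ t n / 2 := d9
  have hbp : ∀ n, 0 ≤ b n := fun n => by
    have := htp n
    have h1 : 0 < min (t n / 8) (κ1 / 2 ^ (n + 2)) := by positivity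
    exact h1.le
  -- sums
  have hgeo : HasSum (fun n : ℕ => κ1 / 2 ^ (n + 2)) (κ1 / 2) := by
    have h1 := hasSum_geometric_two' (κ1 / 2)
    have e1 : (fun n : ℕ => κ1 / 2 ^ (n + 2)) = fun n : ℕ => κ1 / 2 / 2 / 2 ^ n := by
      funext n
      rw [pow_add]
      field_simp
    rw [e1]
    exact h1
  have hsum : Summable b :=
    Summable.of_nonneg_of_le hbp (fun n => min_le_right _ _) hgeo.summable
  have hsumκ : ∑' n, b n ≤ κ1 / 2 := by
    rw [← hgeo.tsum_eq]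
    exact hsum.tsum_le_tsum (fun n => min_le_right _ _) hgeo.summable
  have htpow : ∀ n k, t (n + k) ≤ t n * (1 / 2) ^ k := by
    intro n k
    induction k with
    | zero => simp
    | succ k ih =>
      have h1 := htn (n + k)
      rw [← add_assoc, pow_succ]
      linarith
  have htail : ∀ n, ∑' k, b (n + k) ≤ t n / 4 := by
    intro n
    have h1 : Summable fun k => b (n + k) := by
      have h2 := (summable_nat_add_iff n).2 hsum
      refine h2.congr fun k => ?_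
      rw [add_comm]
    have h3 : HasSum (fun k : ℕ => t n / 8 * (1 / 2) ^ k) (t n / 8 * 2) :=
      hasSum_geometric_two.mul_left _
    calc ∑' k, b (n + k) ≤ ∑' k : ℕ, t n / 8 * (1 / 2) ^ k := by
          refine h1.tsum_le_tsum (fun k => ?_) h3.summable
          have h4 : b (n + k) ≤ t (n + k) / 8 := min_le_left _ _
          have h5 := htpow n k
          linarith
      _ = t n / 4 := by
          rw [h3.tsum_eq]
          ring
  obtain ⟨hFs, hF⟩ := hSer d b d1 (fun n j hj x => d6' n j (by omega) x) d7 hsum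
  set F : ℝ → ℝ := fun x => ∑' n, d n x with hFd
  have hss : Summable s := Summable.of_nonneg_of_le (fun n => (d3 n).le) d4' hsum
  have hd0s : ∀ x, HasSum (fun n => d n x) (F x) := by
    intro x
    have h4 := hF 0 x
    simpa using h4
  have hFb : ∀ j ≤ 2, ∀ x, |iteratedDeriv j F x| ≤ κ1 / 2 := by
    intro j hj x
    have h4 : |iteratedDeriv j F x| ≤ ∑' n, b n := by
      rw [← (hF j x).tsum_eq, ← Real.norm_eq_abs]
      refine tsum_of_norm_bounded hsum.hasSum fun k => ?_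
      rw [Real.norm_eq_abs]
      exact d6' k j (by omega) x
    exact h4.trans hsumκ
  have hsb : |∑' n, s n| ≤ κ1 / 2 := by
    rw [← Real.norm_eq_abs]
    refine (tsum_of_norm_bounded hsum.hasSum fun k => ?_).trans hsumκ
    rw [Real.norm_eq_abs, abs_of_pos (d3 k)]
    exact d4' k
  have hκe : κ1 * (1 - 1 / 2 ^ (0 + 1)) = κ1 / 2 := by
    norm_num
    ring
  have hH0' := hHn 0
  rw [hκe] at hH0'
  have hz : H 0 0 + F 0 = -(cc 0 + ∑' n, s n) := by
    have h4 : F 0 = -∑' n, s n := by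
      rw [← tsum_neg]
      exact tsum_congr fun n => d5' n 0 (by rw [abs_zero]; exact (hρp _).le)
    rw [h4, hH0'.z0]
    ring
  have hj0 : ∀ j, 1 ≤ j → iteratedDeriv j (fun x => H 0 x + F x) 0 = 0 := by
    intro j hj
    rw [itd_add' hH0'.sm hFs, itd_near (hρp 0) hH0'.zer hj, zero_add]
    have h4 : HasSum (fun n => iteratedDeriv j (d n) 0) 0 := by
      have h5 : (fun n => iteratedDeriv j (d n) 0) = fun _ => (0 : ℝ) := by
        funext n
        exact itd_near (hρp (n + 1)) (d5' n) hj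
      rw [h5]
      exact hasSum_zero
    exact (hF j 0).unique h4
  have hd2 : ∀ n x, |x| ≤ δ / 4 → 0 ≤ iteratedDeriv 2 (d n) x := by
    intro n x hx
    rcases le_or_gt (|x|) (ρ (n + 1)) with h4 | h4
    · exact (itd2_const_on (hρp (n + 1)) (d1 n) (d5' n) h4).ge
    · exact (d8' n x h4 hx).le
  refine ⟨fun x => H 0 x + F x, cc 0 + ∑' n, s n, ⟨hH0'.sm.add hFs, fun x hx => ?_, fun x hx => ?_,
    hz, ?_, fun x hx1 hx2 => ?_, fun j hj x => ?_, ?_⟩, hj0, ⟨2, fun x hx => ?_⟩, fun n => ?_⟩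
  · show H 0 x + F x = 0
    have h4 : F x = 0 := by
      have h5 : (fun n => d n x) = fun _ => (0 : ℝ) := funext fun n => d2 n x hx
      show ∑' n, d n x = 0
      rw [h5, tsum_zero]
    rw [hH0'.far x hx, h4, add_zero]
  · have h4 := abs_nonpos_iff.1 hx
    rw [h4]
    exact hz
  · have h4 := hj0 1 le_rfl
    rwa [iteratedDeriv_one] at h4
  · rw [itd_add' hH0'.sm hFs]
    have h4 : 0 ≤ iteratedDeriv 2 (H 0) x := by
      rcases le_or_gt (|x|) (ρ 0) with h5 | h5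
      · exact (itd2_const_on (hρp 0) hH0'.sm hH0'.zer h5).ge
      · exact (hH0'.cvx x h5 hx2).le
    obtain ⟨n, hn⟩ := exists_nat_one_div_lt hx1
    have h5 : ρ (n + 1) < |x| := by
      have h6 := hρ1 (n + 1)
      have h7 : (1 : ℝ) / (((n + 1 : ℕ) : ℝ) + 1) ≤ 1 / ((n : ℝ) + 1) := by
        refine one_div_le_one_div_of_le (by positivity) ?_
        push_cast
        linarith
      linarith
    have h6 := d8' n x h5 hx2
    have h7 := le_hasSum (hF 2 x) n fun k _ => hd2 k x hx2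
    linarith
  · rw [itd_add' hH0'.sm hFs]
    exact (abs_add_le _ _).trans (by linarith [hH0'.bd j hj x, hFb j hj x])
  · exact (abs_add_le _ _).trans (by linarith [hH0'.bc, hsb])
  · -- the third derivative
    have hH02 : 0 ≤ iteratedDeriv 2 (H 0) x := by
      rcases le_or_gt (|x|) (ρ 0) with h5 | h5
      · exact (itd2_const_on (hρp 0) hH0'.sm hH0'.zer h5).ge
      · exact (hH0'.cvx x h5 hx).le
    have hHe : H 0 = H0 := by
      simp only [hHd, hS0]
    have hH0D' : |iteratedDeriv 3 (H 0) x| ≤ 1 * (iteratedDeriv 2 (H 0) x) ^ (39 / 40 : ℝ) := by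
      rw [hHe]
      exact hH0D x hx
    have hF2 : 0 ≤ iteratedDeriv 2 F x := (hF 2 x).nonneg fun n => hd2 n x hx
    rw [itd_add' hH0'.sm hFs, itd_add' hH0'.sm hFs]
    set A : ℝ := iteratedDeriv 2 (H 0) x + iteratedDeriv 2 F x with hAd
    have hA1 : (iteratedDeriv 2 (H 0) x) ^ (39 / 40 : ℝ) ≤ A ^ (39 / 40 : ℝ) :=
      Real.rpow_le_rpow hH02 (by linarith) (by norm_num)
    have hA2 : ∀ n, (iteratedDeriv 2 (d n) x) ^ (39 / 40 : ℝ) ≤ A ^ (39 / 40 : ℝ) := by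
      intro n
      refine Real.rpow_le_rpow (hd2 n x hx) ?_ (by norm_num)
      have h7 := le_hasSum (hF 2 x) n fun k _ => hd2 k x hx
      linarith
    have hA0 : 0 ≤ A ^ (39 / 40 : ℝ) := Real.rpow_nonneg (by linarith) _
    have hg2 : HasSum (fun n : ℕ => (1 : ℝ) / 2 ^ (n + 1)) 1 := by
      have h1 := hasSum_geometric_two' (1 : ℝ)
      have e1 : (fun n : ℕ => (1 : ℝ) / 2 ^ (n + 1)) = fun n : ℕ => (1 : ℝ) / 2 / 2 ^ n := by
        funext n
        rw [pow_succ]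
        field_simp
      rw [e1]
      exact h1
    have hF3 : |iteratedDeriv 3 F x| ≤ 1 * A ^ (39 / 40 : ℝ) := by
      rw [← (hF 3 x).tsum_eq, ← Real.norm_eq_abs]
      refine tsum_of_norm_bounded (hg2.mul_right _) fun k => ?_
      rw [Real.norm_eq_abs]
      refine (d8b k x hx).trans ?_
      exact mul_le_mul_of_nonneg_left (hA2 k) (by positivity)
    refine (abs_add_le _ _).trans ?_
    linarith
  · obtain ⟨Λ1, θ, hθ, hw⟩ := hwin n
    have hθ' : 2 * t (n + 1) ≤ θ := hθ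
    have hw' : ∀ f' : M → ℝ, ContDiffOn ℝ ∞ (fun z => f' (pr z)) Ω →
        (∀ x, |f' x| < θ) → ∀ μ' : Measure M,
        IsArea Ω (fun z => (φ z + Vm pr x0 δ w c (H (n + 1)) (cc (n + 1)) (pr z)) + f' (pr z)) pr
          μ' → ∀ (u : ℕ → M → ℝ) (lam : ℕ → ℝ),
        EB Ω (fun z => (φ z + Vm pr x0 δ w c (H (n + 1)) (cc (n + 1)) (pr z)) + f' (pr z)) pr μ' u
          lam → ∃ Λ : ℝ, (n : ℝ) ≤ Λ ∧ Λ ≤ Λ1 ∧
          n * √Λ < ({j | (∀ h ∈ T n, |(∫ x, h x * (u j x) ^ 2 ∂μ') - Av pr x0 h| ≤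
            1 / ((n : ℝ) + 1)) ∧ lam j ≤ Λ}.ncard : ℝ) := hw
    have hcdiff : |cc 0 + ∑' k, s k - cc (n + 1)| ≤ t (n + 1) / 4 := by
      refine (tele_lim (a := cc) (b := b) (fun m => ?_) hsum ?_ (n + 1)).trans (htail (n + 1))
      · rw [dc' m, add_sub_cancel_left, abs_of_pos (d3 m)]
        exact d4' m
      · have h4 : (fun m => cc (m + 1) - cc m) = s := by
          funext m
          rw [dc' m]
          ring
        rw [h4]
        exact hss.hasSum
    have hHdiff : ∀ x, |H 0 x + F x - H (n + 1) x| ≤ t (n + 1) / 4 := by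
      intro x
      refine (tele_lim (a := fun m => H m x) (b := b) (fun m => ?_) hsum ?_ (n + 1)).trans
        (htail (n + 1))
      · simp only [d0' m]
        rw [add_sub_cancel_left]
        have h4 := d6' m 0 (by omega) x
        rwa [iteratedDeriv_zero] at h4
      · have h4 : (fun m => H (m + 1) x - H m x) = fun m => d m x := by
          funext m
          rw [d0' m]
          ring
        rw [h4]
        exact hd0s x
    have hHs1 := (hHn (n + 1)).sm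
    obtain ⟨e, he1, he2, he3, he4⟩ := h.eH_ex (H := fun x => H 0 x + F x - H (n + 1) x)
      ((hH0'.sm.add hFs).sub hHs1) (fun x hx => by
        have h5 : F x = 0 := by
          have h6 : (fun n => d n x) = fun _ => (0 : ℝ) := funext fun n => d2 n x hx
          show ∑' n, d n x = 0
          rw [h6, tsum_zero]
        rw [hH0'.far x hx, h5, (hHn (n + 1)).far x hx]
        ring) (cc 0 + ∑' k, s k - cc (n + 1))
    refine wu_open (φ := fun z => φ z + Vm pr x0 δ w c (H (n + 1)) (cc (n + 1)) (pr z)) hw' he2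
      (η' := t (n + 1) / 2) (by linarith [htp (n + 1)]) (fun x => ?_) fun z hz => ?_
    · by_cases hx : x ∈ pr '' Sx x0 δ
      · obtain ⟨z, hz, rfl⟩ := hx
        rw [he3 z hz]
        exact (abs_add_le _ _).trans (by linarith [hHdiff (z.re - x0)])
      · rw [he4 x hx]
        linarith [htp (n + 1)]
    · show φ z + Vm pr x0 δ w c (fun x => H 0 x + F x) (cc 0 + ∑' n, s n) (pr z) = _
      have h5 := eH_lin (pr := pr) (x0 := x0) (δ := δ) (H (n + 1))
        (fun x => H 0 x + F x - H (n + 1) x) (cc (n + 1)) 1 (pr z)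
      rw [he1, vm_eq, vm_eq]
      have h6 : eH pr x0 δ (fun x => H 0 x + F x) (cc 0 + ∑' n, s n) (pr z) =
          eH pr x0 δ (H (n + 1)) (cc (n + 1)) (pr z) +
            eH pr x0 δ (fun x => H 0 x + F x - H (n + 1) x) (cc 0 + ∑' k, s k - cc (n + 1))
              (pr z) := by
        unfold eH
        have h7 : cx pr x0 δ (fun z => (fun x => H 0 x + F x) (z.re - x0)) (pr z) =
            cx pr x0 δ (fun z => H (n + 1) (z.re - x0)) (pr z) +
              cx pr x0 δ (fun z => (fun x => H 0 x + F x - H (n + 1) x) (z.re - x0)) (pr z) := by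
          rw [← cx_add]
          congr 1
          funext z
          ring
        rw [h7]
        ring
      rw [h6]
      ring

end

end Pool.Agent.H240.GU
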