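import Pool.Agent.H240.GU.Fin3
import Pool.Agent.H240.GU.LimE
import Pool.Agent.H240.CG.Val
import Pool.Agent.H618.GU.ErgU

/-!
# Scars near every negatively curved surface: the final theorem with ergodicity and the value
distribution
-/

set_option autoImplicit false
set_option linter.unusedSectionVars false

open Set Filter Topology MeasureTheory
open scoped ContDiff ComplexConjugate Real

noncomputable section

namespace Pool.Agent.H240.GU

open Pool.Agent.Y262.EG Pool.Agent.Y262.EX Pool.Agent.Y262.EL Pool.Agent.Y262.QE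
open Pool.Agent.Y264.QR Pool.Agent.H240.SC Pool.Agent.H240.SG Pool.Agent.H240.CG
open Pool.Agent.H240.AL

theorem tErgU : StErgU := Pool.Agent.H618.GU.EU.stErgU

section

variable {M P : Type} [MetricSpace M] [CompactSpace M] [MetricSpace P] [CompactSpace P]
  [MeasurableSpace M] [BorelSpace M] {Ω : Set ℂ} {φ : ℂ → ℝ} {pr : ℂ → M} {q : Y → P}
  {x0 δ : ℝ} {w : ℂ → ℝ} {c r0 : ℝ} {μ : Measure M} {D : Data M} {Φ : ℂ → M}

/-- the distance to the closed geodesic -/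
theorem dist_ex (h : Co Ω pr x0 δ) (hpr : ContinuousOn pr Ω) :
    ∃ H : C(M, ℝ), (∀ x, 0 ≤ H x) ∧ (∀ x, H x = 0 ↔ x ∈ Gm pr x0) ∧ Av pr x0 H = 0 := by
  have hne : (Gm pr x0).Nonempty := ⟨pr x0, (x0 : ℂ), Complex.ofReal_re x0, rfl⟩
  have hz : ∀ x, Metric.infDist x (Gm pr x0) = 0 ↔ x ∈ Gm pr x0 := fun x =>
    ((gm_eq h hpr).mem_iff_infDist_zero hne).symm
  refine ⟨⟨fun x => Metric.infDist x (Gm pr x0), Metric.continuous_infDist_pt _⟩,
    fun x => Metric.infDist_nonneg, hz, ?_⟩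
  unfold Av
  have h1 : ∀ y : ℝ, Metric.infDist (pr (x0 + y * Complex.I)) (Gm pr x0) = 0 := fun y =>
    (hz _).2 ⟨_, by simp, rfl⟩
  show (2 * π)⁻¹ * ∫ y in (0 : ℝ)..(2 * π), Metric.infDist (pr (x0 + y * Complex.I)) (Gm pr x0) = 0
  simp [h1]

/-- weak convergence to the closed geodesic implies localization -/
theorem loc_of_av (h : Co Ω pr x0 δ) (hpr : ContinuousOn pr Ω) {ν : Measure M}
    {u : ℕ → M → ℝ} {l : Filter ℕ} (hint : ∀ j, Integrable (fun x => (u j x) ^ 2) ν)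
    (hF : ∀ F : M → ℝ, Continuous F →
      Tendsto (fun j => ∫ x, F x * (u j x) ^ 2 ∂ν) l (𝓝 (Av pr x0 F))) (K : Set M)
    (hK : IsCompact K) (hdis : Disjoint K (Gm pr x0)) :
    Tendsto (fun j => ∫ x in K, (u j x) ^ 2 ∂ν) l (𝓝 0) := by
  obtain ⟨g, hgn, hgz, hg0⟩ := dist_ex h hpr
  have hgv := hF g g.continuous
  rw [hg0] at hgv
  obtain ⟨b, hb, hbK⟩ : ∃ b : ℝ, 0 < b ∧ ∀ x ∈ K, b ≤ g x := by
    rcases K.eq_empty_or_nonempty with hem | hne
    · exact ⟨1, one_pos, fun x hx => by rw [hem] at hx; exact absurd hx (notMem_empty x)⟩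
    · obtain ⟨y, hy, hmin⟩ := hK.exists_isMinOn hne g.continuous.continuousOn
      refine ⟨g y, lt_of_le_of_ne (hgn y) fun hcon => ?_, fun x hx => hmin hx⟩
      exact disjoint_left.1 hdis hy ((hgz y).1 hcon.symm)
  have h4 := hgv.const_mul b⁻¹
  rw [mul_zero] at h4
  refine squeeze_zero (fun j => integral_nonneg fun x => sq_nonneg _) (fun j => ?_) h4
  have hI : Integrable (fun x => g x * (u j x) ^ 2) ν := by
    obtain ⟨B, hBd⟩ := isCompact_univ.exists_bound_of_continuousOn g.continuous.continuousOn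
    exact (hint j).bdd_mul g.continuous.aestronglyMeasurable
      (Filter.Eventually.of_forall fun x => hBd x (mem_univ x))
  have h5 : ∫ x in K, b * (u j x) ^ 2 ∂ν ≤ ∫ x in K, g x * (u j x) ^ 2 ∂ν := by
    refine setIntegral_mono_on ((hint j).const_mul _).integrableOn hI.integrableOn
      hK.measurableSet fun x hx => ?_
    exact mul_le_mul_of_nonneg_right (hbK x hx) (sq_nonneg _)
  rw [integral_const_mul] at h5
  have h6 : ∫ x in K, g x * (u j x) ^ 2 ∂ν ≤ ∫ x, g x * (u j x) ^ 2 ∂ν :=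
    setIntegral_le_integral hI
      (Filter.Eventually.of_forall fun x => mul_nonneg (hgn x) (sq_nonneg _))
  have h7 : ∫ x in K, (u j x) ^ 2 ∂ν = b⁻¹ * (b * ∫ x in K, (u j x) ^ 2 ∂ν) := by
    rw [← mul_assoc, inv_mul_cancel₀ hb.ne', one_mul]
  rw [h7]
  exact mul_le_mul_of_nonneg_left (h5.trans h6) (inv_nonneg.2 hb.le)

/-- collapse of the value distribution for all nearby metrics -/
theorem val_of_seq (h : Su Ω φ pr q x0 δ w c r0) (hB : Bu Ω φ pr x0 δ w c r0 μ D Φ) {f : M → ℝ}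
    (hf : ContDiffOn ℝ ∞ (fun z => f (pr z)) Ω)
    (hJ : ∀ μ : Measure M, IsArea Ω (fun z => φ z + f (pr z)) pr μ →
        ∀ (u : ℕ → M → ℝ) (lam : ℕ → ℝ), EB Ω (fun z => φ z + f (pr z)) pr μ u lam →
        Tendsto lam atTop atTop ∧ ∃ J : Set ℕ,
          (∀ C : ℝ, ∃ᶠ Λ : ℝ in atTop, C * √Λ < ({j | j ∈ J ∧ lam j ≤ Λ}.ncard : ℝ)) ∧
          ∀ F : M → ℝ, Continuous F →
            Tendsto (fun j => ∫ x, F x * (u j x) ^ 2 ∂μ) (atTop ⊓ 𝓟 J) (𝓝 (Av pr x0 F)))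
    (C ε Λ0 : ℝ) (hε : 0 < ε) : ∃ (Λ1 η : ℝ), 0 < η ∧
        ∀ f' : M → ℝ, ContDiffOn ℝ ∞ (fun z => f' (pr z)) Ω → (∀ x, |f' x - f x| < η) →
        ∀ μ : Measure M, IsArea Ω (fun z => φ z + f' (pr z)) pr μ →
        ∀ (u : ℕ → M → ℝ) (lam : ℕ → ℝ), EB Ω (fun z => φ z + f' (pr z)) pr μ u lam →
        ∃ Λ : ℝ, Λ0 ≤ Λ ∧ Λ ≤ Λ1 ∧
          C * √Λ < ({j | μ.real {x | ε ≤ |u j x|} ≤ ε ∧ lam j ≤ Λ}.ncard : ℝ) := by
  have hneM : Nonempty M := ⟨Φ 0⟩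
  obtain ⟨κ, hκ, b1, b2, b3⟩ := fdata h hB hf
  have hUT := ut_smooth h.ut hf
  have hνf : IsFiniteMeasure (wm μ fun x => Real.exp (κ x)) := (tFin M _ _ b1).1
  obtain ⟨H, hHn, hHz, hH0⟩ := dist_ex h.co h.ut.contp
  have hgood : ∀ (u : ℕ → M → ℝ) (lam : ℕ → ℝ),
      EigBasis (D.conf fun x => Real.exp (κ x)) (wm μ fun x => Real.exp (κ x)) u lam →
      ∃ J : Set ℕ, (∀ C : ℝ, ∃ᶠ Λ : ℝ in atTop,
        C * Real.sqrt Λ < ({j | j ∈ J ∧ lam j ≤ Λ}.ncard : ℝ)) ∧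
        Tendsto (fun j => ∫ x, H x * (u j x) ^ 2 ∂(wm μ fun x => Real.exp (κ x)))
          (atTop ⊓ 𝓟 J) (𝓝 0) := by
    intro u lam hu
    obtain ⟨v, hv, huv⟩ := eb_ex2 hUT b1 b2 b3 hu
    obtain ⟨-, J, hJ1, hJ2⟩ := hJ _ b3 v lam hv
    refine ⟨J, hJ1, ?_⟩
    have h4 := hJ2 H H.continuous
    rw [hH0] at h4
    refine h4.congr fun j => integral_congr_ae ?_
    filter_upwards [huv j] with x hx
    rw [hx]
  have hnull : (wm μ fun x => Real.exp (κ x)) (Gm pr x0) = 0 :=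
    gm_null b3 (fun z hz => h.co.sub z (h.co.line hz))
      fun z v hz hv => h.co.per z v (h.co.line hz) (h.co.line hv)
  -- a neighbourhood of the closed geodesic of small area
  obtain ⟨U, hZU, hUo, hUm⟩ := (Gm pr x0).exists_isOpen_lt_of_lt
    (μ := wm μ fun x => Real.exp (κ x)) (ENNReal.ofReal (ε / 8)) (by
      rw [hnull]
      exact ENNReal.ofReal_pos.2 (by linarith))
  have hK : IsCompact Uᶜ := hUo.isClosed_compl.isCompact
  obtain ⟨c', hc', hcK⟩ : ∃ c : ℝ, 0 < c ∧ ∀ x ∈ Uᶜ, c ≤ H x := by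
    rcases (Uᶜ).eq_empty_or_nonempty with hem | hne
    · exact ⟨1, one_pos, fun x hx => by rw [hem] at hx; exact absurd hx (notMem_empty x)⟩
    · obtain ⟨x1, hx1, hmin⟩ := hK.exists_isMinOn hne H.continuous.continuousOn
      refine ⟨H x1, lt_of_le_of_ne (hHn x1) fun hcon => ?_, fun x hx => hmin hx⟩
      exact hx1 (hZU ((hHz x1).1 hcon.symm))
  set ε1 : ℝ := ε ^ 3 / 2 with hε1
  have hε1p : 0 < ε1 := by positivity
  obtain ⟨Λ1, η, hη, hstb⟩ := Pool.Agent.H240.NL.stabL μ D hB.surf hneM κ H hgood C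
    (c' * ε1) Λ0 (by positivity)
  refine ⟨Λ1, min (1 / 4) (η / 2), lt_min (by norm_num) (by positivity),
    fun f' hf' hfη ν' hν' u lam hu => ?_⟩
  have hUTf := ut_smooth h.ut hf'
  have hc1 := Pool.Agent.H240.NL.cont_of h.ut hf.continuousOn
  have hc2 := Pool.Agent.H240.NL.cont_of h.ut hf'.continuousOn
  set fC : C(M, ℝ) := ⟨fun x => f' x - f x, hc2.sub hc1⟩ with hfC
  obtain ⟨κ', hκ', d1, d2, d3⟩ := fdata h hB hf'
  have hκe : κ' = κ + (2 : ℝ) • fC := by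
    ext x
    have e1 : (κ + (2 : ℝ) • fC) x = κ x + 2 * (f' x - f x) := rfl
    rw [e1, hκ, hκ']
    ring
  rw [hκe] at d1 d2 d3
  have hνeq : ν' = wm μ fun x => Real.exp ((κ + (2 : ℝ) • fC) x) :=
    Pool.Agent.H240.NL.area_unique hUTf hν' d3
  subst hνeq
  have hw := eb_weak hUTf d1 d2 d3 hu
  have hfn : ‖(2 : ℝ) • fC‖ < η := by
    rw [ContinuousMap.norm_lt_iff _ hη]
    intro x
    have h1 : ((2 : ℝ) • fC) x = 2 * (f' x - f x) := rfl
    rw [h1, Real.norm_eq_abs, abs_mul, abs_two]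
    linarith [(hfη x).trans_le (min_le_right (1 / 4 : ℝ) (η / 2))]
  obtain ⟨Λ, hΛ0, hΛ1, hΛ⟩ := hstb ((2 : ℝ) • fC) hfn u lam hw
  refine ⟨Λ, hΛ0, hΛ1, hΛ.trans_le (Nat.cast_le.2 (ncard_le_ncard ?_ ?_))⟩
  · rintro j ⟨h1, h2⟩
    refine ⟨?_, h2⟩
    have hfin : IsFiniteMeasure (wm μ fun x => Real.exp ((κ + (2 : ℝ) • fC) x)) :=
      (tFin M _ _ d1).1
    have hUν : (wm μ fun x => Real.exp ((κ + (2 : ℝ) • fC) x)).real U ≤ ε / 2 := by
      have h3 := wm_le μ κ fC hUo.measurableSet (B := 1 / 4) fun x =>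
        (le_abs_self _).trans ((hfη x).le.trans (min_le_left _ _))
      have h4 : Real.exp (2 * (1 / 4)) ≤ 4 := by
        have h5 := Real.exp_one_lt_d9
        have h6 : Real.exp (2 * (1 / 4)) ≤ Real.exp 1 := Real.exp_le_exp.2 (by norm_num)
        linarith
      have h5 : (wm μ fun x => Real.exp ((κ + (2 : ℝ) • fC) x)) U ≤ ENNReal.ofReal (ε / 2) := by
        refine h3.trans ((mul_le_mul' (ENNReal.ofReal_le_ofReal h4) hUm.le).trans ?_)
        rw [← ENNReal.ofReal_mul (by norm_num)]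
        refine ENNReal.ofReal_le_ofReal (by linarith)
      rw [Measure.real]
      exact ENNReal.toReal_le_of_le_ofReal (by linarith) h5
    set ν := wm μ fun x => Real.exp ((κ + (2 : ℝ) • fC) x) with hνd
    have hu2 : Integrable (fun x => (u j x) ^ 2) ν := (hw.eig j).mem.integrable_sq
    have hIn : Integrable (fun x => H x * (u j x) ^ 2) ν := by
      obtain ⟨B, hB⟩ := isCompact_univ.exists_bound_of_continuousOn H.continuous.continuousOn
      exact hu2.bdd_mul H.continuous.aestronglyMeasurable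
        (Filter.Eventually.of_forall fun x => hB x (mem_univ x))
    have h3 : ∫ x in Uᶜ, c' * (u j x) ^ 2 ∂ν ≤ ∫ x in Uᶜ, H x * (u j x) ^ 2 ∂ν := by
      refine setIntegral_mono_on (hu2.const_mul _).integrableOn hIn.integrableOn
        hK.measurableSet fun x hx => ?_
      exact mul_le_mul_of_nonneg_right (hcK x hx) (sq_nonneg _)
    rw [integral_const_mul] at h3
    have h4 : ∫ x in Uᶜ, H x * (u j x) ^ 2 ∂ν ≤ ∫ x, H x * (u j x) ^ 2 ∂ν :=
      setIntegral_le_integral hIn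
        (Filter.Eventually.of_forall fun x => mul_nonneg (hHn x) (sq_nonneg _))
    have h5 : c' * ∫ x in Uᶜ, (u j x) ^ 2 ∂ν ≤ c' * ε1 := (h3.trans h4).trans h1
    have h6 := le_of_mul_le_mul_left h5 hc'
    have h7 := markov hu2 hUo hε
    have h8 : (ε ^ 2)⁻¹ * ∫ x in Uᶜ, (u j x) ^ 2 ∂ν ≤ (ε ^ 2)⁻¹ * ε1 :=
      mul_le_mul_of_nonneg_left h6 (by positivity)
    have h9 : (ε ^ 2)⁻¹ * ε1 = ε / 2 := by
      rw [hε1]
      field_simp
    linarith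
  · obtain ⟨j0, hj0⟩ := ((Pool.Agent.H240.NL.eb_tt hB.surf hneM hw).eventually
      (eventually_gt_atTop Λ)).exists_forall_of_atTop
    refine (Set.finite_Iio j0).subset fun j hj => ?_
    by_contra hcon
    have h1 := hj0 j (not_lt.1 hcon)
    have h2 : lam j ≤ Λ := hj.2
    linarith

end

/-- The final statement, with ergodicity and the value distribution. -/
def ConclE : Prop :=
  ∀ (M P : Type) [MetricSpace M] [CompactSpace M] [MetricSpace P] [CompactSpace P]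
    [MeasurableSpace M] [BorelSpace M] [MeasurableSpace P] [BorelSpace P] (Ω : Set ℂ) (φ : ℂ → ℝ)
    (pr : ℂ → M) (q : Y → P)
    (x0 δ : ℝ), IsUT Ω φ pr q → Co Ω pr x0 δ → (∀ z : ℂ, z.re = x0 → φ z = 0 ∧ px φ z = 0) →
    (∀ z ∈ Ω, curv φ z < 0) → IsPreconnected (univ : Set M) →
    IsClosed (Gm pr x0) ∧ Ge Ω φ x0 ∧
    (∀ f : M → ℝ, ContDiffOn ℝ ∞ (fun z => f (pr z)) Ω →
      IsUT Ω (fun z => φ z + f (pr z)) pr q ∧
      (∃ m : Measure P, IsLiou Ω (fun z => φ z + f (pr z)) q m) ∧ ∃ μ : Measure M,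
        IsArea Ω (fun z => φ z + f (pr z)) pr μ ∧ IsFiniteMeasure μ ∧ μ (Gm pr x0) = 0 ∧
        ∃ u lam, EB Ω (fun z => φ z + f (pr z)) pr μ u lam) ∧
    ∃ K : ℝ, ∀ ε : ℝ, 0 < ε → ∃ (f ψ : M → ℝ) (τ1 : ℝ), 0 < τ1 ∧
      (∀ τ : ℝ, 0 ≤ τ → τ < τ1 → Sm Ω φ pr (fun x => f x + τ * ψ x) ε ∧
        Ge Ω (fun z => φ z + (f (pr z) + τ * ψ (pr z))) x0 ∧
        ∀ z ∈ Ω, -K ≤ curv (fun z => φ z + (f (pr z) + τ * ψ (pr z))) z ∧
          (0 < τ → curv (fun z => φ z + (f (pr z) + τ * ψ (pr z))) z < 0)) ∧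
      (∀ z ∈ Ω, curv (fun z => φ z + f (pr z)) z ≤ 0 ∧
        (curv (fun z => φ z + f (pr z)) z = 0 ↔ pr z ∈ Gm pr x0)) ∧
      (∀ (m : Measure P) (Fl : ℝ → Y → Y), IsLiou Ω (fun z => φ z + f (pr z)) q m →
        IsGeo Ω (fun z => φ z + f (pr z)) Fl → Erg Ω q m Fl) ∧
      (∀ μ : Measure M, IsArea Ω (fun z => φ z + f (pr z)) pr μ →
        ∀ (u : ℕ → M → ℝ) (lam : ℕ → ℝ), EB Ω (fun z => φ z + f (pr z)) pr μ u lam →
        Tendsto lam atTop atTop ∧ ∃ J : Set ℕ,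
          (∀ C : ℝ, ∃ᶠ Λ : ℝ in atTop, C * √Λ < ({j | j ∈ J ∧ lam j ≤ Λ}.ncard : ℝ)) ∧
          (∀ F : M → ℝ, Continuous F →
            Tendsto (fun j => ∫ x, F x * (u j x) ^ 2 ∂μ) (atTop ⊓ 𝓟 J) (𝓝 (Av pr x0 F))) ∧
          ∀ ε' : ℝ, 0 < ε' →
            Tendsto (fun j => μ.real {x | ε' ≤ |u j x|}) (atTop ⊓ 𝓟 J) (𝓝 0)) ∧
      (∀ (T : Finset C(M, ℝ)) (C ε' Λ0 : ℝ), 0 < ε' → ∃ (Λ1 η : ℝ), 0 < η ∧
        ∀ f' : M → ℝ, ContDiffOn ℝ ∞ (fun z => f' (pr z)) Ω → (∀ x, |f' x - f x| < η) →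
        ∀ μ : Measure M, IsArea Ω (fun z => φ z + f' (pr z)) pr μ →
        ∀ (u : ℕ → M → ℝ) (lam : ℕ → ℝ), EB Ω (fun z => φ z + f' (pr z)) pr μ u lam →
        ∃ Λ : ℝ, Λ0 ≤ Λ ∧ Λ ≤ Λ1 ∧
          C * √Λ < ({j | (∀ F ∈ T, |(∫ x, F x * (u j x) ^ 2 ∂μ) - Av pr x0 F| ≤ ε') ∧
            lam j ≤ Λ}.ncard : ℝ)) ∧
      ∀ C ε' Λ0 : ℝ, 0 < ε' → ∃ (Λ1 η : ℝ), 0 < η ∧
        ∀ f' : M → ℝ, ContDiffOn ℝ ∞ (fun z => f' (pr z)) Ω → (∀ x, |f' x - f x| < η) →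
        ∀ μ : Measure M, IsArea Ω (fun z => φ z + f' (pr z)) pr μ →
        ∀ (u : ℕ → M → ℝ) (lam : ℕ → ℝ), EB Ω (fun z => φ z + f' (pr z)) pr μ u lam →
        ∃ Λ : ℝ, Λ0 ≤ Λ ∧ Λ ≤ Λ1 ∧
          C * √Λ < ({j | μ.real {x | ε' ≤ |u j x|} ≤ ε' ∧ lam j ≤ Λ}.ncard : ℝ)

/-- **The main theorem.** -/
theorem conclE : ConclE := by
  intro M P _ _ _ _ _ _ _ _ Ω φ pr q x0 δ hUT hCo hgeo hneg hconn
  have hδ := hCo.δp
  obtain ⟨-, hper, hcxp⟩ := tCx M P Ω φ pr q x0 δ hUT hCo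
  have hsub : Sx x0 δ ⊆ Ω := fun z hz => hCo.sub z hz
  have hL : ∀ z ∈ Sx x0 δ, 0 < Lp2 φ z := fun z hz =>
    (Pool.Agent.H643.GU.curv_neg_iff φ z).1 (hneg z (hsub hz))
  obtain ⟨B, hB⟩ := tFl φ x0 δ hδ (hUT.smooth.mono hsub) hper hgeo hL
  obtain ⟨K1, hK1⟩ := tKb M P Ω φ pr q x0 δ hUT hCo B
  obtain ⟨Kn, hKn0, hKn⟩ := tNr M P Ω φ pr q x0 δ hUT hCo
  have hmk : ∀ {w : ℂ → ℝ} {c r0 : ℝ}, FlU φ x0 δ w c r0 →
      (∀ z ∈ Sx x0 δ, δ / 2 ≤ |z.re - x0| → w z = 0) → Su Ω φ pr q x0 δ w c r0 :=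
    fun h1 h2 => ⟨hUT, hCo, h1, h2, hcxp⟩
  -- general facts
  obtain ⟨w1, c1, r1, hw1, -, -, -, hw1', -⟩ := hB 1 one_pos
  have hSu1 := hmk hw1 hw1'
  obtain ⟨μ1, D1, Φ1, hB1⟩ := bu_ex tBase hSu1
  refine ⟨gm_eq hCo hUT.contp, fun Fl hFl => geo_line hUT.opn hUT.smooth hFl
    (fun z hz => hCo.sub z (hCo.line hz)) hgeo, fun f hf => ?_, K1, fun ε hε => ?_⟩
  · obtain ⟨a1, ⟨μ', a2, u, lam, a3⟩, a4⟩ := all_facts hSu1 hB1 hf
    exact ⟨a1, tLiouEx M P Ω _ pr q a1, μ', a2, (a4 μ' a2).1, (a4 μ' a2).2.1, u, lam, a3⟩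
  · -- the flattening
    set ε1 : ℝ := min 1 (ε / Kn) with hε1
    have hε1p : 0 < ε1 := by positivity
    have hε11 : ε1 ≤ 1 := min_le_left _ _
    have hε1K : Kn * ε1 ≤ ε := by
      have h1 : ε1 ≤ ε / Kn := min_le_right _ _
      calc Kn * ε1 ≤ Kn * (ε / Kn) := mul_le_mul_of_nonneg_left h1 hKn0.le
        _ = ε := by field_simp
    obtain ⟨w, c, r0, hFl, -, hcε, hwε, hw2, hwB⟩ := hB ε1 hε1p
    have hSu := hmk hFl hw2
    obtain ⟨μ, D, Φ, hBu⟩ := bu_ex tBase hSu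
    obtain ⟨κ0, hκ0, hκ⟩ := tK M P Ω φ pr q x0 δ hUT hCo hneg w c r0 hFl hw2
    set κ1 : ℝ := min (κ0 / 2) (ε1 / 2) with hκ1
    have hκ1p : 0 < κ1 := by positivity
    have hκ1a : κ1 ≤ κ0 / 2 := min_le_left _ _
    have hκ1b : κ1 ≤ ε1 / 2 := min_le_right _ _
    obtain ⟨T, hT⟩ := Pool.Agent.H396.GB.stSeqJ M (fun F => Av pr x0 F) (av_lip hCo hUT.contp)
    obtain ⟨H, cH, hHt, hHj, ⟨C3, hD3⟩, hHW⟩ := lim_ge tSurf tYU tStab tSer hSu hBu T hκ1p
    -- the direction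
    obtain ⟨η, hη1, hη2, hη3, hη4, hη5, hη6⟩ := tEt.2 δ hδ
    choose Kη hKη using hη6
    set Km : ℝ := 1 + (|Kη 0| + |Kη 1| + |Kη 2|) with hKm
    have hKmp : 0 < Km := by positivity
    have hKj : ∀ j ≤ 2, Kη j ≤ Km := by
      intro j hj
      have a0 := le_abs_self (Kη 0)
      have a1 := le_abs_self (Kη 1)
      have a2 := le_abs_self (Kη 2)
      have b0 := abs_nonneg (Kη 0)
      have b1 := abs_nonneg (Kη 1)
      have b2 := abs_nonneg (Kη 2)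
      interval_cases j <;> linarith
    have hKm1 : 1 ≤ Km := by
      have b0 := abs_nonneg (Kη 0)
      have b1 := abs_nonneg (Kη 1)
      have b2 := abs_nonneg (Kη 2)
      linarith
    have hsm : ∀ τ : ℝ, ContDiff ℝ ∞ fun t => H t + τ * η t := fun τ =>
      hHt.sm.add (contDiff_const.mul hη1)
    have hfar : ∀ (τ : ℝ) (t : ℝ), δ / 2 ≤ |t| → H t + τ * η t = 0 := fun τ t ht => by
      rw [hHt.far t ht, hη2 t ht, mul_zero, add_zero]
    have hz0 : ∀ τ : ℝ, H 0 + τ * η 0 = -(cH + τ) := fun τ => by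
      rw [hHt.z0, hη3]
      ring
    have hz1 : ∀ τ : ℝ, deriv (fun t => H t + τ * η t) 0 = 0 := fun τ => by
      have d1 : HasDerivAt H (deriv H 0) 0 := ((hHt.sm.differentiable (by simp)) _).hasDerivAt
      have d2 : HasDerivAt η (deriv η 0) 0 := ((hη1.differentiable (by simp)) _).hasDerivAt
      have d3 : HasDerivAt (fun t => H t + τ * η t) (deriv H 0 + τ * deriv η 0) 0 :=
        d1.add (d2.const_mul τ)
      rw [d3.deriv, hHt.z1, hη4]
      ring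
    have hbd : ∀ τ : ℝ, 0 ≤ τ → τ < κ1 / Km → ∀ j ≤ 2, ∀ t,
        |iteratedDeriv j (fun t => H t + τ * η t) t| ≤ 2 * κ1 := by
      intro τ hτ hτ1 j hj t
      rw [itd_add' hHt.sm (contDiff_const.mul hη1), itd_smul' hη1]
      refine (abs_add_le _ _).trans ?_
      have h1 := hHt.bd j hj t
      rw [abs_mul, abs_of_nonneg hτ]
      have h2 : τ * |iteratedDeriv j η t| ≤ τ * Km :=
        mul_le_mul_of_nonneg_left ((hKη j t).trans (hKj j hj)) hτ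
      have h3 : τ * Km ≤ κ1 := ((lt_div_iff₀ hKmp).1 hτ1).le
      linarith
    have hbc : ∀ τ : ℝ, 0 ≤ τ → τ < κ1 / Km → |cH + τ| ≤ 2 * κ1 := by
      intro τ hτ hτ1
      refine (abs_add_le _ _).trans ?_
      have h1 := hHt.bc
      have h3 : τ * Km ≤ κ1 := ((lt_div_iff₀ hKmp).1 hτ1).le
      have h4 : τ ≤ τ * Km := le_mul_of_one_le_right hτ hKm1
      rw [abs_of_nonneg hτ]
      linarith
    set f : M → ℝ := Vm pr x0 δ w c H cH with hf
    set ψ : M → ℝ := eH pr x0 δ η 1 with hψ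
    have hfψ : ∀ (τ : ℝ) (x : M),
        f x + τ * ψ x = Vm pr x0 δ w c (fun t => H t + τ * η t) (cH + τ) x := by
      intro τ x
      rw [hf, hψ, vm_eq, vm_eq, eH_lin]
      ring
    have hfψ' : ∀ τ : ℝ, (fun x => f x + τ * ψ x) =
        Vm pr x0 δ w c (fun t => H t + τ * η t) (cH + τ) := fun τ => funext (hfψ τ)
    have hfs : ContDiffOn ℝ ∞ (fun z => f (pr z)) Ω := hSu.vsm hHt.sm hHt.far cH
    have hseq : ∀ μ : Measure M, IsArea Ω (fun z => φ z + f (pr z)) pr μ →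
        ∀ (u : ℕ → M → ℝ) (lam : ℕ → ℝ), EB Ω (fun z => φ z + f (pr z)) pr μ u lam →
        Tendsto lam atTop atTop ∧ ∃ J : Set ℕ,
          (∀ C : ℝ, ∃ᶠ Λ : ℝ in atTop, C * √Λ < ({j | j ∈ J ∧ lam j ≤ Λ}.ncard : ℝ)) ∧
          ∀ F : M → ℝ, Continuous F →
            Tendsto (fun j => ∫ x, F x * (u j x) ^ 2 ∂μ) (atTop ⊓ 𝓟 J) (𝓝 (Av pr x0 F)) :=
      fun μ' hμ' u lam hu => seq_of_wu hSu hBu hfs hT hHW hμ' hu
    have hcurv : ∀ z ∈ Ω, curv (fun z => φ z + f (pr z)) z ≤ 0 ∧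
        (curv (fun z => φ z + f (pr z)) z = 0 ↔ pr z ∈ Gm pr x0) := by
      intro z hz
      obtain ⟨k1, k2⟩ := hκ H cH 0 hFl.rp (hHt.mono (by linarith)) z hz
      refine ⟨k1, fun h0 => ?_, fun hG => hSu.curv0 tCx hHt.sm hHt.far (hHj 2 (by norm_num)) hz hG⟩
      by_contra hcon
      have hnot : pr z ∉ pr '' {z : ℂ | |z.re - x0| ≤ 0} := by
        rintro ⟨v, hv, hvz⟩
        have hv' : |v.re - x0| ≤ 0 := hv
        exact hcon ⟨v, sub_eq_zero.1 (abs_nonpos_iff.1 hv'), hvz⟩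
      exact absurd h0 (k2 hnot).ne
    refine ⟨f, ψ, κ1 / Km, by positivity, fun τ hτ hτ1 => ?_, hcurv, fun m Fl hm hFl' => ?_,
      fun μ' hμ' u lam hu => ?_,
      fun T' C ε' Λ0 hε' => win_of_seq hSu hBu hfs hseq T' C ε' Λ0 hε',
      fun C ε' Λ0 hε' => val_of_seq hSu hBu hfs hseq C ε' Λ0 hε'⟩
    · have hφe : (fun z => φ z + (f (pr z) + τ * ψ (pr z))) =
          fun z => φ z + Vm pr x0 δ w c (fun t => H t + τ * η t) (cH + τ) (pr z) := by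
        funext z
        rw [hfψ τ]
      have h2κ : 2 * κ1 ≤ ε1 := by linarith
      rw [hfψ' τ, hφe]
      refine ⟨?_, hSu.geo (hsm τ) (hfar τ) (hz0 τ) (hz1 τ), fun z hz => ⟨?_, fun hτp => ?_⟩⟩
      · obtain ⟨n1, n2⟩ := hKn w c (fun t => H t + τ * η t) (cH + τ) ε1 hFl.cw hwε hw2 hcε (hsm τ)
          (hfar τ) (fun t => by
            have e0 := hbd τ hτ hτ1 0 (by norm_num) t
            have e1 := hbd τ hτ hτ1 1 (by norm_num) t
            rw [iteratedDeriv_zero] at e0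
            rw [iteratedDeriv_one] at e1
            exact ⟨by linarith, by linarith⟩) ((hbc τ hτ hτ1).trans h2κ)
        exact ⟨hSu.vsm (hsm τ) (hfar τ) _, fun x => (n1 x).trans hε1K,
          fun z hz => (n2 z hz).trans hε1K⟩
      · refine hK1 w c _ _ hFl.cw (fun z hz => (hwε z hz).1.trans hε11) (hcε.trans hε11) hw2 hwB
          (hsm τ) (hfar τ) (fun j hj t => ?_) ?_ z hz
        · exact (hbd τ hτ hτ1 j hj t).trans (h2κ.trans hε11)
        · exact (hbc τ hτ hτ1).trans (h2κ.trans hε11)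
      · have hHt' : Ht δ κ0 (fun t => H t + τ * η t) (cH + τ) (-1) := by
          refine ⟨hsm τ, hfar τ, fun t ht => ?_, hz0 τ, hz1 τ, fun t _ ht => ?_,
            fun j hj t => (hbd τ hτ hτ1 j hj t).trans (by linarith),
            (hbc τ hτ hτ1).trans (by linarith)⟩
          · have := abs_nonneg t
            linarith
          · rw [itd_add' hHt.sm (contDiff_const.mul hη1), itd_smul' hη1]
            have h1 := mul_pos hτp (hη5 t ht)
            rcases eq_or_ne t 0 with h2 | h2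
            · rw [h2, hHj 2 (by norm_num)]
              rw [h2] at h1
              linarith
            · have h3 := hHt.cvx t (abs_pos.2 h2) ht
              linarith
        refine ((hκ _ _ (-1) (by linarith [hFl.rp]) hHt') z hz).2 ?_
        rintro ⟨v, hv, -⟩
        have hv' : |v.re - x0| ≤ -1 := hv
        have := abs_nonneg (v.re - x0)
        linarith
    · obtain ⟨g1, g2, g3⟩ := hSu.r0p
      have hGs : ContDiff ℝ ∞ fun t => cH + H t := contDiff_const.add hHt.sm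
      have hGi : ∀ (j : ℕ), 1 ≤ j → ∀ t, iteratedDeriv j (fun t => cH + H t) t =
          iteratedDeriv j H t := by
        intro j hj t
        rw [itd_add' (f := fun _ => cH) contDiff_const hHt.sm, iteratedDeriv_const, if_neg (by omega),
          zero_add]
      refine tErgU M P Ω _ pr q m Fl x0 r0 C3 (fun t => cH + H t) (ut_smooth hUT hfs) hm hFl'
        ⟨g1, fun z hz => hCo.sub z (hz.trans g2),
          fun z v hz hv => hCo.per z v (hz.trans g2) (hv.trans g2)⟩ hconn hGs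
        (fun z hz => hSu.near hHt.sm hHt.far cH hz.le) (by rw [hHt.z0]; ring) ?_
        (fun z hz => (hcurv z hz).1) (fun z hz h0 => (hcurv z hz).2.1 h0) fun t ht => ?_
      · rw [deriv_const_add]
        exact hHt.z1
      · rw [hGi 3 (by norm_num), hGi 2 (by norm_num)]
        exact hD3 t (ht.le.trans hFl.rL.le)
    · obtain ⟨h1, J, h2, h3⟩ := hseq μ' hμ' u lam hu
      obtain ⟨-, -, a4⟩ := all_facts hSu hBu hfs
      obtain ⟨a5, a6, a7⟩ := a4 μ' hμ'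
      obtain ⟨-, a8, -⟩ := a7 u lam hu
      refine ⟨h1, J, h2, h3, fun ε' hε' => ?_⟩
      exact collapse a6 a8 (fun K hK hd => loc_of_av hCo hUT.contp a8 h3 K hK hd) hε'

end Pool.Agent.H240.GU
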