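import Pool.Agent.H240.GU.Gcf

/-!
# Scars near every closed geodesic of every negatively curved surface: group actions
-/

set_option autoImplicit false
set_option linter.unusedSectionVars false

open Set Filter Topology MeasureTheory
open scoped ContDiff ComplexConjugate Real

noncomputable section

namespace Pool.Agent.H240.GV

open Pool.Agent.Y262.EG Pool.Agent.Y262.EX Pool.Agent.Y262.EL Pool.Agent.Y262.QE
open Pool.Agent.Y264.QR Pool.Agent.H240.SC Pool.Agent.H240.SG Pool.Agent.H240.CG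
open Pool.Agent.H240.AL Pool.Agent.H240.GU Pool.Agent.H240.EV

/-- a simple closed geodesic of length `2π` -/
structure Cu {M : Type} (Ω : Set ℂ) (φ : ℂ → ℝ) (pr : ℂ → M) (c : ℝ → ℂ) : Prop where
  orbit : ∃ (Fl : ℝ → Y → Y) (θ : ℝ), IsGeo Ω φ Fl ∧ ∀ t, (Fl t (c 0, θ)).1 = c t
  mem : c 0 ∈ Ω
  per : ∀ t, c (t + 2 * π) = c t + 2 * π * Complex.I
  simple : ∀ s t, pr (c s) = pr (c t) ↔ ∃ n : ℤ, t = s + n * (2 * π)

/-- the mean over the closed curve -/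
def AvC {M : Type} (pr : ℂ → M) (c : ℝ → ℂ) (F : M → ℝ) : ℝ :=
  (2 * π)⁻¹ * ∫ t in (0 : ℝ)..(2 * π), F (pr (c t))

/-- the conclusions -/
structure Cm {M P : Type} [MetricSpace M] [MetricSpace P] [MeasurableSpace M] [MeasurableSpace P]
    (Ω : Set ℂ) (φ : ℂ → ℝ) (pr : ℂ → M) (q : Y → P) (K ε : ℝ) (c : ℝ → ℂ) (f ψ : M → ℝ)
    (τ1 : ℝ) : Prop where
  τp : 0 < τ1
  sm : ∀ τ : ℝ, 0 ≤ τ → τ < τ1 → Sm Ω φ pr (fun x => f x + τ * ψ x) ε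
  cu : ∀ τ : ℝ, 0 ≤ τ → τ < τ1 → Cu Ω (fun z => φ z + (f (pr z) + τ * ψ (pr z))) pr c
  low : ∀ τ : ℝ, 0 ≤ τ → τ < τ1 → ∀ z ∈ Ω,
    -K ≤ curv (fun z => φ z + (f (pr z) + τ * ψ (pr z))) z
  neg : ∀ τ : ℝ, 0 < τ → τ < τ1 → ∀ z ∈ Ω,
    curv (fun z => φ z + (f (pr z) + τ * ψ (pr z))) z < 0
  zer : ∀ z ∈ Ω, curv (fun z => φ z + f (pr z)) z ≤ 0 ∧
    (curv (fun z => φ z + f (pr z)) z = 0 ↔ pr z ∈ range fun t : ℝ => pr (c t))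
  erg : StErgG → ∀ (m : Measure P) (Fl : ℝ → Y → Y), IsLiou Ω (fun z => φ z + f (pr z)) q m →
    IsGeo Ω (fun z => φ z + f (pr z)) Fl → Erg Ω q m Fl
  null : ∀ f' : M → ℝ, ContDiffOn ℝ ∞ (fun z => f' (pr z)) Ω → ∀ μ : Measure M,
    IsArea Ω (fun z => φ z + f' (pr z)) pr μ → μ (range fun t : ℝ => pr (c t)) = 0
  spec : Spec Ω φ pr (AvC pr c) f

theorem Cu.gc {G : Type} [Group G] {Ω : Set ℂ} {a : G → ℂ → ℂ} {φ : ℂ → ℝ} {M : Type}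
    [MetricSpace M] {pr : ℂ → M} {c : ℝ → ℂ} (hA : Act G Ω a) (hI : Inva Ω φ a)
    (hpr : PrM Ω a pr) {γ₀ : G} (hγ : ∀ z ∈ Ω, a γ₀ z = z + 2 * π * Complex.I)
    (h : Cu Ω φ pr c) : Gc Ω φ pr c := by
  obtain ⟨Fl, θ, hFl, horb⟩ := h.orbit
  obtain ⟨h1, h2, h3, h4, h5⟩ := orb hA.opn hI.1 hFl (p0 := (c 0, θ)) h.mem horb
  refine ⟨h1, h2, h.per, fun z => ⟨fun hz => ?_, fun hz => ?_⟩, fun z hz => ?_, h3, h4, h5,
    fun s t hst => (h.simple s t).1 hst⟩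
  · have hv := hA.maps γ₀⁻¹ _ hz
    have e1 := hγ _ hv
    rw [← hA.mul γ₀ γ₀⁻¹ _ hz, mul_inv_cancel, hA.one _ hz] at e1
    have e2 : a γ₀⁻¹ (z + 2 * π * Complex.I) = z := (add_right_cancel e1).symm
    rw [← e2]
    exact hv
  · rw [← hγ z hz]
    exact hA.maps γ₀ z hz
  · have hm : z + 2 * π * Complex.I ∈ Ω := by
      rw [← hγ z hz]
      exact hA.maps γ₀ z hz
    exact ((hpr.rel z hz _ hm).2 ⟨γ₀, hγ z hz⟩).symm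

/-- **The main theorem for group actions.** -/
theorem finA (G : Type) [Group G] (M : Type) [MetricSpace M] [CompactSpace M]
    [MeasurableSpace M] [BorelSpace M] (Ω : Set ℂ) (a : G → ℂ → ℂ) (φ : ℂ → ℝ) (pr : ℂ → M)
    (c : ℝ → ℂ) (R0 : ℝ) (γ₀ : G) (hA : Act G Ω a) (hI : Inva Ω φ a) (hpr : PrM Ω a pr)
    (hγ : ∀ z ∈ Ω, a γ₀ z = z + 2 * π * Complex.I) (hR : ∀ z ∈ Ω, z.re < R0)
    (hneg : ∀ z ∈ Ω, curv φ z < 0) (hc : Cu Ω φ pr c) :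
    ∃ (P : Type) (_ : MetricSpace P) (_ : CompactSpace P) (_ : MeasurableSpace P)
      (_ : BorelSpace P) (q : Y → P), PrP Ω a q ∧ IsUT Ω φ pr q ∧
      (∀ f : M → ℝ, ContDiffOn ℝ ∞ (fun z => f (pr z)) Ω → Inva Ω (fun z => φ z + f (pr z)) a ∧
        (∃ m : Measure P, IsLiou Ω (fun z => φ z + f (pr z)) q m) ∧
        (∃ Fl : ℝ → Y → Y, IsGeo Ω (fun z => φ z + f (pr z)) Fl) ∧ ∃ μ : Measure M,
        IsArea Ω (fun z => φ z + f (pr z)) pr μ ∧ IsFiniteMeasure μ ∧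
        ∃ u lam, EB Ω (fun z => φ z + f (pr z)) pr μ u lam) ∧
      ∃ K : ℝ, ∀ (ε : ℝ) (m : ℕ), 0 < ε → ∃ (c' : ℝ → ℂ) (f ψ : M → ℝ) (τ1 : ℝ),
        (∀ j ≤ m, ∀ t, ‖iteratedDeriv j c' t - iteratedDeriv j c t‖ ≤ ε) ∧
        (∀ Γ₀ : ℂ → ℂ, Differentiable ℂ Γ₀ →
          (∀ z, Γ₀ (z + 2 * π * Complex.I) = Γ₀ z + 2 * π * Complex.I) →
          (∀ t : ℝ, Γ₀ (t * Complex.I) = c t) → c' = c) ∧
        Cm Ω φ pr q K ε c' f ψ τ1 := by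
  obtain ⟨P, iP, cP, q, hq, hUT⟩ := act_ut hA hI hpr
  let iPm : MeasurableSpace P := borel P
  have iPb : BorelSpace P := ⟨rfl⟩
  have hGc := hc.gc hA hI hpr hγ
  -- the choice of the approximation
  obtain ⟨Γ, hAp, hΓ⟩ : ∃ Γ : ℕ → ℂ → ℂ, Ap c Γ ∧ ∀ Γ₀ : ℂ → ℂ, Differentiable ℂ Γ₀ →
      (∀ z, Γ₀ (z + 2 * π * Complex.I) = Γ₀ z + 2 * π * Complex.I) →
      (∀ t : ℝ, Γ₀ (t * Complex.I) = c t) → ∀ (n : ℕ) (t : ℝ), Γ n (t * Complex.I) = c t := by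
    by_cases h : ∃ Γ₀ : ℂ → ℂ, Differentiable ℂ Γ₀ ∧
        (∀ z, Γ₀ (z + 2 * π * Complex.I) = Γ₀ z + 2 * π * Complex.I) ∧
        ∀ t : ℝ, Γ₀ (t * Complex.I) = c t
    · obtain ⟨Γ₀, h1, h2, h3⟩ := h
      exact ⟨fun _ => Γ₀, ap_const h1 h2 h3, fun _ _ _ _ _ t => h3 t⟩
    · obtain ⟨Γ, hAp⟩ := tFou c hGc.sm hGc.per
      exact ⟨Γ, hAp, fun Γ₀ h1 h2 h3 => absurd ⟨Γ₀, h1, h2, h3⟩ h⟩
  obtain ⟨hall, K, hmain⟩ := conclV M P Ω φ pr q c R0 Γ hUT hGc hAp hR hneg hpr.conn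
  refine ⟨P, iP, cP, iPm, iPb, q, hq, hUT, fun f hf => ?_, K, fun ε m hε => ?_⟩
  · have hIf := act_inva hA hI hpr hf
    exact ⟨hIf, tLiouEx M P Ω _ pr q (ut_smooth hUT hf), tGeo G Ω a _ hA hIf, hall f hf⟩
  · obtain ⟨n, f, ψ, τ1, δ, hCg, hcl, hCn⟩ := hmain ε m hε
    have hδ := hCg.δp
    have hlm : ∀ t : ℝ, ((t : ℂ) * Complex.I) ∈ Sx 0 δ := fun t => by
      show |((t : ℂ) * Complex.I).re - 0| < δ
      simpa using hδ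
    refine ⟨fun t => Γ n (t * Complex.I), f, ψ, τ1, hcl, fun Γ₀ h1 h2 h3 =>
      funext fun t => hΓ Γ₀ h1 h2 h3 n t, hCn.τp, hCn.sm, fun τ h1 h2 => ?_, hCn.low, hCn.neg,
      hCn.zer, hCn.erg, hCn.null, hCn.spec⟩
    obtain ⟨Fl, hFl⟩ := tGeo G Ω a _ hA (act_inva hA hI hpr (f := fun x => f x + τ * ψ x)
      (hCn.sm τ h1 h2).sm)
    obtain ⟨θ, hθ⟩ := hCn.geo τ h1 h2
    refine ⟨⟨Fl, θ, hFl, fun t => ?_⟩, hCg.maps _ (hlm 0), fun t => ?_, fun s t => ?_⟩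
    · have e : Γ n (((0 : ℝ) : ℂ) * Complex.I) = Γ n 0 := by
        rw [Complex.ofReal_zero, zero_mul]
      show (Fl t (Γ n (((0 : ℝ) : ℂ) * Complex.I), θ)).1 = Γ n (t * Complex.I)
      rw [e]
      exact hθ Fl hFl t
    · show Γ n (((t + 2 * π : ℝ) : ℂ) * Complex.I) = Γ n (t * Complex.I) + 2 * π * Complex.I
      rw [← hAp.per n]
      congr 1
      push_cast
      ring
    · show pr (Γ n (s * Complex.I)) = pr (Γ n (t * Complex.I)) ↔ _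
      rw [hCg.per _ (hlm s) _ (hlm t)]
      constructor
      · rintro ⟨k, hk⟩
        refine ⟨k, ?_⟩
        have := congrArg Complex.im hk
        simpa using this
      · rintro ⟨k, hk⟩
        refine ⟨k, ?_⟩
        rw [hk]
        push_cast
        ring

end Pool.Agent.H240.GV
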