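import Pool.Agent.H240.GU.Def6
import Pool.Agent.H903.EV.TrX
import Pool.Agent.H17.EV.Clair
import Pool.Agent.H122.EV.Cross3
import Pool.Agent.H746.EV.Erg3
import Pool.Agent.H83.EV.ErgG
import Pool.Agent.H400.EV.ClP3

/-!
# Ergodicity of the geodesic flow, with a holomorphic collar
-/

set_option autoImplicit false

namespace Pool.Agent.H240.EV

theorem tErgG : StErgG :=
  Pool.Agent.H83.EV.stErgG Pool.Agent.H903.EV.stLg
    (Pool.Agent.H746.EV.stErg3
      (Pool.Agent.H400.EV.stClP3 Pool.Agent.H903.EV.stTrX Pool.Agent.H17.EV.stClair3)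
      (Pool.Agent.H122.EV.stCross3 Pool.Agent.H903.EV.stTrX))

end Pool.Agent.H240.EV
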