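import Pool.Agent.H240.GU.Asm

/-!
# Closed geodesics as orbits of the geodesic flow
-/

set_option autoImplicit false
set_option linter.unusedSectionVars false

open Set Filter Topology MeasureTheory
open scoped ContDiff ComplexConjugate Real

noncomputable section

namespace Pool.Agent.H240.GV

open Pool.Agent.Y262.EG Pool.Agent.Y262.EX Pool.Agent.Y262.EL Pool.Agent.Y262.QE
open Pool.Agent.Y264.QR Pool.Agent.H240.SC Pool.Agent.H240.SG Pool.Agent.H240.CG
open Pool.Agent.H240.AL Pool.Agent.H240.GU Pool.Agent.H240.EV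

/-- an orbit of the geodesic flow -/
theorem orb {Ω : Set ℂ} {φ : ℂ → ℝ} {Fl : ℝ → Y → Y} (hO : IsOpen Ω)
    (hφ : ContDiffOn ℝ ∞ φ Ω) (hFl : IsGeo Ω φ Fl) {p0 : Y} (hp : p0 ∈ YO Ω) {c : ℝ → ℂ}
    (hc : ∀ t, (Fl t p0).1 = c t) : ContDiff ℝ ∞ c ∧ (∀ t, c t ∈ Ω) ∧ (∀ t, deriv c t ≠ 0) ∧
    (∀ t, φ (c t) + Real.log ‖deriv c t‖ = 0) ∧
    ∀ t, (deriv (deriv c) t / deriv c t).im =
      py φ (c t) * (deriv c t).re - px φ (c t) * (deriv c t).im := by
  have hmem : ∀ t, c t ∈ Ω := fun t => by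
    rw [← hc t]
    exact hFl.maps t p0 hp
  -- smoothness
  have h1 : ContDiff ℝ ∞ fun t : ℝ => Fl t p0 := by
    have h2 : ContDiffOn ℝ ∞ (fun t : ℝ => Fl t p0) univ :=
      hFl.smooth.comp (t := {a : ℝ × Y | a.2 ∈ YO Ω})
        ((contDiff_id.prodMk contDiff_const).contDiffOn (s := univ) (f := fun t : ℝ => (t, p0)))
        fun t _ => hp
    exact contDiffOn_univ.1 h2
  have hcs : ContDiff ℝ ∞ c := by
    have : c = fun t => (Fl t p0).1 := funext fun t => (hc t).symm
    rw [this]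
    exact contDiff_fst.comp h1
  -- the angle
  set θ : ℝ → ℝ := fun t => (Fl t p0).2 with hθ
  have hode : ∀ t, HasDerivAt (fun τ => Fl τ p0) (XX φ (Fl t p0)) t := fun t => hFl.ode t p0 hp
  have hFt : ∀ t, Fl t p0 = (c t, θ t) := fun t => Prod.ext (hc t) rfl
  have hc1 : ∀ t, HasDerivAt c (XX φ (c t, θ t)).1 t := by
    intro t
    have h2 := (hasFDerivAt_fst (𝕜 := ℝ) (p := Fl t p0)).comp_hasDerivAt t (hode t)
    rw [hFt t] at h2
    refine (h2.congr_of_eventuallyEq (Filter.Eventually.of_forall fun τ => ?_))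
    exact (hc τ).symm
  have hθ1 : ∀ t, HasDerivAt θ (XX φ (c t, θ t)).2 t := by
    intro t
    have h2 := (hasFDerivAt_snd (𝕜 := ℝ) (p := Fl t p0)).comp_hasDerivAt t (hode t)
    rw [hFt t] at h2
    exact h2
  have hX1 : ∀ t, (XX φ (c t, θ t)).1 =
      Complex.exp (((-φ (c t) : ℝ) : ℂ) + (θ t : ℝ) * Complex.I) := by
    intro t
    rw [Complex.exp_add, Complex.exp_mul_I, ← Complex.ofReal_exp, ← Complex.ofReal_cos,
      ← Complex.ofReal_sin]
    apply Complex.ext
    · rw [Complex.re_ofReal_mul]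
      simp only [XX, Complex.add_re, Complex.ofReal_re, Complex.mul_re, Complex.I_re,
        Complex.ofReal_im, Complex.I_im]
      ring
    · rw [Complex.im_ofReal_mul]
      simp only [XX, Complex.add_im, Complex.ofReal_re, Complex.mul_im, Complex.I_re,
        Complex.ofReal_im, Complex.I_im]
      ring
  have hdc : deriv c = fun t => Complex.exp (((-φ (c t) : ℝ) : ℂ) + (θ t : ℝ) * Complex.I) := by
    funext t
    rw [(hc1 t).deriv, hX1]
  have hn : ∀ t, ‖deriv c t‖ = Real.exp (-φ (c t)) := by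
    intro t
    rw [hdc]
    simp only
    rw [Complex.norm_exp]
    congr 1
    simp
  have hne : ∀ t, deriv c t ≠ 0 := fun t => by
    rw [← norm_pos_iff, hn]
    exact Real.exp_pos _
  refine ⟨hcs, hmem, hne, fun t => ?_, fun t => ?_⟩
  · rw [hn, Real.log_exp]
    ring
  · -- the second derivative
    have hφd : DifferentiableAt ℝ φ (c t) :=
      (hφ.contDiffAt (hO.mem_nhds (hmem t))).differentiableAt (by simp)
    obtain ⟨a, ha⟩ : ∃ a : ℝ, HasDerivAt (fun τ => φ (c τ)) a t :=
      ⟨_, hφd.hasFDerivAt.comp_hasDerivAt t (hc1 t)⟩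
    have hg : HasDerivAt (fun τ => ((-φ (c τ) : ℝ) : ℂ) + (θ τ : ℝ) * Complex.I)
        (((-a : ℝ) : ℂ) + ((XX φ (c t, θ t)).2 : ℝ) * Complex.I) t :=
      (ha.neg.ofReal_comp).add ((hθ1 t).ofReal_comp.mul_const Complex.I)
    have h2 : HasDerivAt (deriv c) (deriv c t *
        (((-a : ℝ) : ℂ) + ((XX φ (c t, θ t)).2 : ℝ) * Complex.I)) t := by
      have h3 := hg.cexp
      rw [hdc]
      exact h3
    rw [h2.deriv, mul_div_cancel_left₀ _ (hne t)]
    have e1 : ((((-a : ℝ) : ℂ) + ((XX φ (c t, θ t)).2 : ℝ) * Complex.I)).im =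
        (XX φ (c t, θ t)).2 := by simp
    rw [e1, (hc1 t).deriv]
    simp only [XX]
    ring

/-- a constant approximation -/
theorem ap_const {c : ℝ → ℂ} {Γ : ℂ → ℂ} (h1 : Differentiable ℂ Γ)
    (h2 : ∀ z, Γ (z + 2 * π * Complex.I) = Γ z + 2 * π * Complex.I)
    (h3 : ∀ t : ℝ, Γ (t * Complex.I) = c t) : Ap c fun _ => Γ := by
  have hc : (fun t : ℝ => Γ (t * Complex.I)) = c := funext h3
  have hsm : ContDiff ℂ ∞ Γ := h1.contDiff
  refine ⟨fun _ => h1, fun _ => h2, fun j m => ⟨0, fun n t => ?_⟩, fun j hj => ?_⟩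
  · rw [hc, sub_self, norm_zero, zero_div]
  · have hper : ∀ z, iteratedDeriv j Γ (z + 2 * π * Complex.I) = iteratedDeriv j Γ z := by
      intro z
      obtain ⟨i, rfl⟩ : ∃ i, j = i + 1 := ⟨j - 1, by omega⟩
      have hd : deriv (fun z => Γ (z + 2 * π * Complex.I)) = deriv Γ := by
        have : (fun z => Γ (z + 2 * π * Complex.I)) = fun z => Γ z + 2 * π * Complex.I :=
          funext h2
        rw [this]
        funext z
        rw [deriv_add_const]
      have e1 := iteratedDeriv_comp_add_const (i + 1) Γ (2 * π * Complex.I)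
      have e2 : iteratedDeriv (i + 1) (fun z => Γ (z + 2 * π * Complex.I)) =
          iteratedDeriv (i + 1) Γ := by
        rw [iteratedDeriv_succ', iteratedDeriv_succ', hd]
      rw [e2] at e1
      exact (congrFun e1 z).symm
    have hcont : Continuous (iteratedDeriv j Γ) := hsm.continuous_iteratedDeriv j (mod_cast le_top)
    have hcpt : IsCompact (Icc (-1 : ℝ) 1 ×ℂ Icc (0 : ℝ) (2 * π)) :=
      isCompact_Icc.reProdIm isCompact_Icc
    obtain ⟨C, hC⟩ := hcpt.exists_bound_of_continuousOn hcont.continuousOn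
    have hperZ : ∀ (k : ℤ) (z : ℂ), iteratedDeriv j Γ (z + k * (2 * π * Complex.I)) =
        iteratedDeriv j Γ z := by
      intro k
      induction k using Int.induction_on with
      | zero => intro z; simp
      | succ k ih =>
        intro z
        have e : z + ((k : ℤ) + 1 : ℤ) * (2 * π * Complex.I) =
            (z + (k : ℤ) * (2 * π * Complex.I)) + 2 * π * Complex.I := by
          push_cast
          ring
        rw [e, hper, ih]
      | pred k ih =>
        intro z
        have e : z + (-(k : ℤ)) * (2 * π * Complex.I) =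
            (z + ((-(k : ℤ) - 1 : ℤ) : ℂ) * (2 * π * Complex.I)) + 2 * π * Complex.I := by
          push_cast
          ring
        have h4 := ih z
        push_cast at h4 e ⊢
        rw [e, hper] at h4
        exact h4
    refine ⟨C, fun n z hz => ?_⟩
    have hn : 1 / ((n : ℝ) + 1) ≤ 1 := by
      rw [div_le_one (by positivity)]
      linarith [show (0 : ℝ) ≤ (n : ℝ) from Nat.cast_nonneg n]
    obtain ⟨k, hk, -⟩ := existsUnique_add_zsmul_mem_Ioc (by positivity : (0 : ℝ) < 2 * π) z.im 0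
    rw [zero_add, zsmul_eq_mul] at hk
    rw [← hperZ k z]
    refine hC _ ?_
    rw [Complex.mem_reProdIm]
    have hre : (z + k * (2 * π * Complex.I)).re = z.re := by simp
    have him : (z + k * (2 * π * Complex.I)).im = z.im + k * (2 * π) := by simp
    rw [hre, him]
    have := abs_le.1 (hz.trans hn)
    exact ⟨⟨this.1, this.2⟩, ⟨hk.1.le, hk.2⟩⟩

end Pool.Agent.H240.GV
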