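import Pool.Agent.H240.GU.Fin5
import Pool.Agent.H328.GU.Hyp

/-!
# A closed hyperbolic surface with a simple closed geodesic (after helper328)
-/

set_option autoImplicit false
set_option linter.unusedSectionVars false

open Set Filter Topology MeasureTheory
open scoped ContDiff ComplexConjugate Real

noncomputable section

namespace Pool.Agent.H240.GV

open Pool.Agent.Y262.EG Pool.Agent.Y262.EX Pool.Agent.Y262.EL Pool.Agent.Y262.QE
open Pool.Agent.Y264.QR Pool.Agent.H240.SC Pool.Agent.H240.SG Pool.Agent.H240.CG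
open Pool.Agent.H240.AL Pool.Agent.H240.GU Pool.Agent.H240.EV Pool.Agent.H328.GU

theorem hyp2 : ∃ (G : Type) (_ : Group G) (Ω : Set ℂ) (a : G → ℂ → ℂ) (φ : ℂ → ℝ) (M : Type)
    (_ : MetricSpace M) (_ : CompactSpace M) (pr : ℂ → M) (γ₀ : G) (R0 k : ℝ) (c : ℝ → ℂ),
    Act G Ω a ∧ Inva Ω φ a ∧ PrM Ω a pr ∧ (∀ z ∈ Ω, a γ₀ z = z + 2 * π * Complex.I) ∧
    (∀ z ∈ Ω, z.re < R0) ∧ 0 < k ∧ (∀ z ∈ Ω, curv φ z = -k) ∧ Cu Ω φ pr c := by
  obtain ⟨g, c1, C0, hP⟩ := tProf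
  have h0 := L0p
  have hA : Act Gq Om ac := tAct
  obtain ⟨hI, hconj⟩ := tPhi2 g c1 C0 hP
  obtain ⟨M, iM, cM, pr, hpr⟩ := Pool.Agent.Y338.EX.qM Pool.Agent.Y749.EX.top Gq Om ac hA
  obtain ⟨P, iP, cP, q, hq⟩ := Pool.Agent.Y848.EX.qP Pool.Agent.Y749.EX.top Gq Om ac hA
    (fun γ z hz => (hI.2 γ z hz).1)
  have hUT1 : IsUT Om (phi g c1) pr q :=
    Pool.Agent.Y145.EX.qU Gq Om ac (phi g c1) M P pr q hA hI hpr hq
  obtain ⟨C', hC⟩ := tClsE g c1 C0 hP M P pr q hpr hUT1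
  obtain ⟨γ₀, hγ⟩ := tCol.2
  have hmid : ∀ t : ℝ, (((L0 / 2 : ℝ) : ℂ) + t * Complex.I).re = L0 / 2 := fun t => by simp
  have hS : ∀ z : ℂ, z.re = L0 / 2 → z ∈ Stp L0 (3 / 2 * L0) := by
    intro z hz
    exact ⟨by rw [hz]; linarith, by rw [hz]; linarith⟩
  have hlam : 0 < lam := by
    unfold lam
    positivity
  obtain ⟨Fl, hFl⟩ := tGeo Gq Om ac ps hA ps_inv
  have hline : ∀ z : ℂ, z.re = L0 / 2 → ∀ t : ℝ, Fl t (z, π / 2) = (z + t * Complex.I, π / 2) :=
    geo_line hA.opn ps_inv.1 hFl (fun z hz => strip_om (hS z hz)) fun z hz => ps_line hz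
  refine ⟨Gq, inferInstance, Om, ac, ps, M, iM, cM, pr, γ₀, 9 / 2 * L0, lam ^ 2,
    fun t => ((L0 / 2 : ℝ) : ℂ) + t * Complex.I, hA, ps_inv, hpr, hγ, fun z hz => hz.2,
    by positivity, fun z hz => ps_curv hz, ⟨Fl, π / 2, hFl, fun t => ?_⟩, ?_, fun t => ?_,
    fun s t => ?_⟩
  · show (Fl t (((L0 / 2 : ℝ) : ℂ) + ((0 : ℝ) : ℂ) * Complex.I, π / 2)).1 = _
    rw [hline _ (hmid 0)]
    show ((L0 / 2 : ℝ) : ℂ) + ((0 : ℝ) : ℂ) * Complex.I + t * Complex.I = _
    rw [Complex.ofReal_zero, zero_mul, add_zero]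
  · exact strip_om (hS _ (hmid 0))
  · show ((L0 / 2 : ℝ) : ℂ) + ((t + 2 * π : ℝ) : ℂ) * Complex.I =
      ((L0 / 2 : ℝ) : ℂ) + t * Complex.I + 2 * π * Complex.I
    push_cast
    ring
  · show pr (((L0 / 2 : ℝ) : ℂ) + s * Complex.I) = pr (((L0 / 2 : ℝ) : ℂ) + t * Complex.I) ↔ _
    constructor
    · intro h
      obtain ⟨n, hn⟩ := hC.inj _ (hS _ (hmid s)) _ (hS _ (hmid t)) h
      refine ⟨n, ?_⟩
      have := congrArg Complex.im hn
      simpa using this
    · rintro ⟨n, rfl⟩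
      have hper : ∀ k : ℤ, pr (((L0 / 2 : ℝ) : ℂ) + s * Complex.I + k * (2 * π * Complex.I)) =
          pr (((L0 / 2 : ℝ) : ℂ) + s * Complex.I) := by
        have hre : ∀ k : ℤ, (((L0 / 2 : ℝ) : ℂ) + s * Complex.I + k * (2 * π * Complex.I)) ∈
            Stp L0 (3 / 2 * L0) := by
          intro k
          refine hS _ ?_
          simp
        intro k
        induction k using Int.induction_on with
        | zero => simp
        | succ k ih =>
          have h1 := hC.per _ (hre k)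
          rw [ih] at h1
          rw [← h1]
          congr 1
          push_cast
          ring
        | pred k ih =>
          have h1 := hC.per _ (hre (-k - 1))
          rw [← h1, ← ih]
          congr 1
          push_cast
          ring
      rw [← hper n]
      congr 1
      push_cast
      ring

end Pool.Agent.H240.GV
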