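import Pool.Agent.H240.GU.Stg2

/-!
# Scars near every negatively curved surface: the sequence
-/

set_option autoImplicit false
set_option linter.unusedSectionVars false

open Set Filter Topology MeasureTheory
open scoped ContDiff ComplexConjugate Real

noncomputable section

namespace Pool.Agent.H240.GU

open Pool.Agent.Y262.EG Pool.Agent.Y262.EX Pool.Agent.Y262.EL Pool.Agent.Y262.QE
open Pool.Agent.Y264.QR Pool.Agent.H240.SC Pool.Agent.H240.SG Pool.Agent.H240.CG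
open Pool.Agent.H240.AL

theorem seq_ex2 {α : Type} {P : ℕ → α → Prop} {R : ℕ → α → α → Prop} (a0 : α) (h0 : P 0 a0)
    (h : ∀ n a, P n a → ∃ b, P (n + 1) b ∧ R n a b) :
    ∃ s : ℕ → α, s 0 = a0 ∧ (∀ n, P n (s n)) ∧ ∀ n, R n (s n) (s (n + 1)) := by
  classical
  let s : ∀ n : ℕ, {a // P n a} := fun n => Nat.rec (motive := fun n => {a // P n a}) ⟨a0, h0⟩
    (fun n a => ⟨(h n a.1 a.2).choose, (h n a.1 a.2).choose_spec.1⟩) n
  refine ⟨fun n => (s n).1, rfl, fun n => (s n).2, fun n => ?_⟩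
  exact (h n (s n).1 (s n).2).choose_spec.2

theorem tele_lim {a b : ℕ → ℝ} {L : ℝ} (h : ∀ n, |a (n + 1) - a n| ≤ b n) (hb : Summable b)
    (hL : HasSum (fun n => a (n + 1) - a n) L) (n : ℕ) :
    |a 0 + L - a n| ≤ ∑' k, b (n + k) := by
  have h1 := hL.summable.sum_add_tsum_nat_add n
  rw [hL.tsum_eq, Finset.sum_range_sub] at h1
  have h2 : a 0 + L - a n = ∑' k, (a (k + n + 1) - a (k + n)) := by linarith
  have h3 : Summable fun k => b (n + k) := by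
    have h2 := (summable_nat_add_iff n).2 hb
    refine h2.congr fun k => ?_
    rw [add_comm]
  rw [h2, ← Real.norm_eq_abs]
  refine tsum_of_norm_bounded h3.hasSum fun k => ?_
  rw [Real.norm_eq_abs, add_comm n k]
  exact h (k + n)

theorem itd_sub' {f g : ℝ → ℝ} (hf : ContDiff ℝ ∞ f) (hg : ContDiff ℝ ∞ g) (j : ℕ) (x : ℝ) :
    iteratedDeriv j (fun x => f x - g x) x = iteratedDeriv j f x - iteratedDeriv j g x := by
  have h1 : ContDiffAt ℝ j f x := (hf.of_le (by exact_mod_cast le_top)).contDiffAt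
  have h2 : ContDiffAt ℝ j g x := (hg.of_le (by exact_mod_cast le_top)).contDiffAt
  exact iteratedDeriv_fun_sub h1 h2

theorem itd_add' {f g : ℝ → ℝ} (hf : ContDiff ℝ ∞ f) (hg : ContDiff ℝ ∞ g) (j : ℕ) (x : ℝ) :
    iteratedDeriv j (fun x => f x + g x) x = iteratedDeriv j f x + iteratedDeriv j g x := by
  have h1 : ContDiffAt ℝ j f x := (hf.of_le (by exact_mod_cast le_top)).contDiffAt
  have h2 : ContDiffAt ℝ j g x := (hg.of_le (by exact_mod_cast le_top)).contDiffAt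
  exact iteratedDeriv_fun_add h1 h2

theorem itd_smul' {f : ℝ → ℝ} (hf : ContDiff ℝ ∞ f) (s : ℝ) (j : ℕ) (x : ℝ) :
    iteratedDeriv j (fun x => s * f x) x = s * iteratedDeriv j f x := by
  have h1 : ContDiffAt ℝ j f x := (hf.of_le (by exact_mod_cast le_top)).contDiffAt
  exact iteratedDeriv_const_mul_field s f

section

variable {M P : Type} [MetricSpace M] [CompactSpace M] [MetricSpace P] [CompactSpace P]
  [MeasurableSpace M] [BorelSpace M] {Ω : Set ℂ} {φ : ℂ → ℝ} {pr : ℂ → M} {q : Y → P}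
  {x0 δ : ℝ} {w : ℂ → ℝ} {c r0 : ℝ} {μ : Measure M} {D : Data M} {Φ : ℂ → M}

theorem wu_open {φ : ℂ → ℝ} {T : Finset C(M, ℝ)} {C ε Λ0 : ℝ} {Λ1 η : ℝ}
    (h1 : ∀ f' : M → ℝ, ContDiffOn ℝ ∞ (fun z => f' (pr z)) Ω →
      (∀ x, |f' x| < η) → ∀ μ' : Measure M, IsArea Ω (fun z => φ z + f' (pr z)) pr μ' →
      ∀ (u : ℕ → M → ℝ) (lam : ℕ → ℝ), EB Ω (fun z => φ z + f' (pr z)) pr μ' u lam →
      ∃ Λ : ℝ, Λ0 ≤ Λ ∧ Λ ≤ Λ1 ∧
        C * √Λ < ({j | (∀ h ∈ T, |(∫ x, h x * (u j x) ^ 2 ∂μ') - Av pr x0 h| ≤ ε) ∧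
          lam j ≤ Λ}.ncard : ℝ)) {e : M → ℝ} (he : ContDiffOn ℝ ∞ (fun z => e (pr z)) Ω) {η' : ℝ}
    (hη' : η' < η) (heb : ∀ x, |e x| ≤ η') {φ' : ℂ → ℝ} (hφ' : ∀ z ∈ Ω, φ' z = φ z + e (pr z)) :
    Wu Ω pr x0 φ' T C ε Λ0 := by
  refine ⟨Λ1, η - η', by linarith, fun f2 hf2 hf2η μ' hμ' u lam hu => ?_⟩
  have he' : ∀ z ∈ Ω, φ' z + f2 (pr z) = φ z + (fun x => e x + f2 x) (pr z) := fun z hz => by
    rw [hφ' z hz]
    ring
  refine h1 (fun x => e x + f2 x) (he.add hf2) (fun x => ?_) μ'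
    (area_congr hμ' fun z hz => (he' z hz).symm) u lam (eb_congr hu fun z hz => (he' z hz).symm)
  exact (abs_add_le _ _).trans_lt (by linarith [heb x, hf2η x])

/-- continuous functions are nearly constant across a thin cylinder -/
theorem osc1 (hco : Co Ω pr x0 δ) (hpr : ContinuousOn pr Ω) (F : C(M, ℝ)) {ε : ℝ} (hε : 0 < ε) :
    ∃ ρ : ℝ, 0 < ρ ∧ ∀ z : ℂ, |z.re - x0| ≤ ρ →
      |F (pr z) - F (pr (x0 + z.im * Complex.I))| ≤ ε := by
  have hδ := hco.δp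
  set K : Set ℂ := Icc (x0 - δ / 2) (x0 + δ / 2) ×ℂ Icc 0 (2 * π) with hK
  have hKc : IsCompact K := isCompact_Icc.reProdIm isCompact_Icc
  have hKs : ∀ z ∈ K, |z.re - x0| < δ := by
    intro z hz
    rw [hK, Complex.mem_reProdIm] at hz
    rw [abs_lt]
    constructor <;> linarith [hz.1.1, hz.1.2]
  have hc : ContinuousOn (fun z => F (pr z)) K :=
    F.continuous.comp_continuousOn (hpr.mono fun z hz => hco.sub z (hKs z hz))
  have hu := hKc.uniformContinuousOn_of_continuous hc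
  rw [Metric.uniformContinuousOn_iff] at hu
  obtain ⟨ρ, hρ, hu⟩ := hu ε hε
  refine ⟨min (δ / 2) (ρ / 2), by positivity, fun z hz => ?_⟩
  have hz1 : |z.re - x0| ≤ δ / 2 := hz.trans (min_le_left _ _)
  have hz2 : |z.re - x0| ≤ ρ / 2 := hz.trans (min_le_right _ _)
  obtain ⟨n, hn, -⟩ := existsUnique_add_zsmul_mem_Ioc (by positivity : (0 : ℝ) < 2 * π) z.im 0
  rw [zero_add, zsmul_eq_mul] at hn
  set z1 : ℂ := z + n * (2 * π * Complex.I) with hz1d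
  set z2 : ℂ := (x0 + z.im * Complex.I : ℂ) + n * (2 * π * Complex.I) with hz2d
  have r1 : z1.re = z.re := by simp [hz1d]
  have i1 : z1.im = z.im + n * (2 * π) := by simp [hz1d]
  have r2 : z2.re = x0 := by simp [hz2d]
  have i2 : z2.im = z.im + n * (2 * π) := by simp [hz2d]
  have r0 : ((x0 : ℂ) + z.im * Complex.I).re = x0 := by simp
  have p1 : pr z = pr z1 := (hco.per z z1 (by linarith) (by rw [r1]; linarith)).2 ⟨n, rfl⟩
  have p2 : pr (x0 + z.im * Complex.I) = pr z2 :=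
    (hco.per _ z2 (by rw [r0, sub_self, abs_zero]; exact hδ)
      (by rw [r2, sub_self, abs_zero]; exact hδ)).2 ⟨n, rfl⟩
  have hab := abs_le.1 hz1
  have k1 : z1 ∈ K := by
    rw [hK, Complex.mem_reProdIm, r1, i1]
    exact ⟨⟨by linarith [hab.1], by linarith [hab.2]⟩, hn.1.le, hn.2⟩
  have k2 : z2 ∈ K := by
    rw [hK, Complex.mem_reProdIm, r2, i2]
    exact ⟨⟨by linarith, by linarith⟩, hn.1.le, hn.2⟩
  rw [p1, p2]
  have hd : dist z1 z2 < ρ := by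
    rw [Complex.dist_eq]
    have h1 : z1 - z2 = ((z.re - x0 : ℝ) : ℂ) := by
      apply Complex.ext
      · rw [Complex.sub_re, r1, r2, Complex.ofReal_re]
      · rw [Complex.sub_im, i1, i2, Complex.ofReal_im, sub_self]
    rw [h1, Complex.norm_real, Real.norm_eq_abs]
    linarith
  have h2 := hu z1 k1 z2 k2 hd
  rw [Real.dist_eq] at h2
  exact h2.le

theorem osc (hco : Co Ω pr x0 δ) (hpr : ContinuousOn pr Ω) (T : Finset C(M, ℝ)) {ε : ℝ}
    (hε : 0 < ε) : ∃ ρ : ℝ, 0 < ρ ∧ ∀ F ∈ T, ∀ z : ℂ, |z.re - x0| ≤ ρ →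
      |F (pr z) - F (pr (x0 + z.im * Complex.I))| ≤ ε := by
  classical
  induction T using Finset.induction_on with
  | empty => exact ⟨1, one_pos, fun F hF => by simp at hF⟩
  | insert F T hF ih =>
    obtain ⟨ρ1, h1, h2⟩ := ih
    obtain ⟨ρ2, h3, h4⟩ := osc1 hco hpr F hε
    refine ⟨min ρ1 ρ2, by positivity, fun G hG z hz => ?_⟩
    rcases Finset.mem_insert.1 hG with rfl | hG
    · exact h4 z (hz.trans (min_le_right _ _))
    · exact h2 G hG z (hz.trans (min_le_left _ _))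

/-- one step -/
theorem step_gu (hSf : StSurf) (hYU : StYU) (hStab : StStab) (hEt : StEt)
    (h : Su Ω φ pr q x0 δ w c r0) (hB : Bu Ω φ pr x0 δ w c r0 μ D Φ) {κ0 : ℝ}
    {H : ℝ → ℝ} {cH ρ : ℝ} (hH : Ht δ κ0 H cH ρ) {ρ' : ℝ} (hρ' : 0 < ρ')
    (hρρ : ρ' < ρ) (hρ0 : ρ < r0) (T : Finset C(M, ℝ)) (C : ℝ) {ε : ℝ} (Λ0 : ℝ) (hε : 0 < ε)
    (hT : ∀ F ∈ T, ∀ z : ℂ, |z.re - x0| ≤ ρ →
      |F (pr z) - F (pr (x0 + z.im * Complex.I))| ≤ ε / 2) {b : ℝ} (hb : 0 < b) (N : ℕ) :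
    ∃ (d : ℝ → ℝ) (s : ℝ), ContDiff ℝ ∞ d ∧ (∀ t, δ / 2 ≤ |t| → d t = 0) ∧ 0 < s ∧ s ≤ b ∧
      (∀ t, |t| ≤ ρ' → d t = -s) ∧ (∀ j ≤ N, ∀ t, |iteratedDeriv j d t| ≤ b) ∧
      (∀ j, ∃ K : ℝ, ∀ t, |iteratedDeriv j d t| ≤ K) ∧
      (∀ t, ρ' < |t| → |t| ≤ δ / 4 → 0 < iteratedDeriv 2 d t) ∧
      Wu Ω pr x0 (fun z => φ z + Vm pr x0 δ w c (fun t => H t + d t) (cH + s) (pr z))
        T C ε Λ0 := by
  classical
  obtain ⟨h1, h2, h3⟩ := h.r0p
  obtain ⟨η, hη⟩ := hEt.1 δ ρ' hρ' (by linarith [h.fl.rL])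
  have hbd := hη.bd
  choose K hK using hbd
  set Km : ℝ := 1 + ∑ j ∈ Finset.range (N + 1), |K j| with hKm
  have hKm1 : 1 ≤ Km := by
    have : 0 ≤ ∑ j ∈ Finset.range (N + 1), |K j| := Finset.sum_nonneg fun j _ => abs_nonneg _
    linarith
  have hKj : ∀ j ≤ N, K j ≤ Km := by
    intro j hj
    have h4 := Finset.single_le_sum (f := fun j => |K j|) (fun j _ => abs_nonneg _)
      (Finset.mem_range.2 (Nat.lt_succ_of_le hj))
    have h5 := le_abs_self (K j)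
    linarith
  obtain ⟨s, hs1, hs2, hW⟩ := stage_gu hSf hYU hStab h hB hH hρ' hρρ hρ0 hη T (C := C) (Λ0 := Λ0)
    hε hT (s0 := b / Km) (by positivity)
  have hKp : 0 < Km := by linarith
  have hsK : s * Km ≤ b := by
    have h4 := (lt_div_iff₀ hKp).1 hs2
    exact h4.le
  have hsb : s ≤ b := by nlinarith
  refine ⟨fun t => s * η t, s, contDiff_const.mul hη.sm, fun t ht => ?_, hs1, hsb,
    fun t ht => ?_, fun j hj t => ?_, fun j => ⟨s * K j, fun t => ?_⟩, fun t ht1 ht2 => ?_, hW⟩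
  · show s * η t = 0
    rw [hη.far t ht, mul_zero]
  · show s * η t = -s
    rw [hη.zer t ht]
    ring
  · rw [itd_smul' hη.sm, abs_mul, abs_of_pos hs1]
    have h4 : |iteratedDeriv j η t| ≤ Km := (hK j t).trans (hKj j hj)
    have h5 := mul_le_mul_of_nonneg_left h4 hs1.le
    linarith
  · rw [itd_smul' hη.sm, abs_mul, abs_of_pos hs1]
    exact mul_le_mul_of_nonneg_left (hK j t) hs1.le
  · rw [itd_smul' hη.sm]
    exact mul_pos hs1 (hη.cvx t ht1 ht2)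

end

end Pool.Agent.H240.GU
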