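import Pool.Agent.H240.GU.EtE

/-!
# Scars near every negatively curved surface: one step with control of the third derivative
-/

set_option autoImplicit false
set_option linter.unusedSectionVars false

open Set Filter Topology MeasureTheory
open scoped ContDiff ComplexConjugate Real

noncomputable section

namespace Pool.Agent.H240.GU

open Pool.Agent.Y262.EG Pool.Agent.Y262.EX Pool.Agent.Y262.EL Pool.Agent.Y262.QE
open Pool.Agent.Y264.QR Pool.Agent.H240.SC Pool.Agent.H240.SG Pool.Agent.H240.CG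
open Pool.Agent.H240.AL

/-- control of the third derivative of a small multiple -/
theorem D3.smul {δ C s b : ℝ} {η : ℝ → ℝ} (hs : ContDiff ℝ ∞ η) (hC : 0 ≤ C) (h : D3 δ η C)
    (hn : ∀ t, |t| ≤ δ / 4 → 0 ≤ iteratedDeriv 2 η t) (hs0 : 0 < s) (hb : 0 < b)
    (hsb : s ≤ (b / (C + 1)) ^ (40 : ℕ)) : D3 δ (fun t => s * η t) b := by
  intro t ht
  rw [itd_smul' hs, itd_smul' hs, Real.mul_rpow hs0.le (hn t ht), abs_mul, abs_of_pos hs0]
  have h1 := h t ht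
  have h2 : (0 : ℝ) ≤ (iteratedDeriv 2 η t) ^ (39 / 40 : ℝ) := Real.rpow_nonneg (hn t ht) _
  have h3 : s ^ (1 / 40 : ℝ) ≤ b / (C + 1) := by
    have h4 : s ^ (1 / 40 : ℝ) ≤ ((b / (C + 1)) ^ (40 : ℕ)) ^ (1 / 40 : ℝ) :=
      Real.rpow_le_rpow hs0.le hsb (by norm_num)
    have h5 : ((b / (C + 1)) ^ (40 : ℕ)) ^ (1 / 40 : ℝ) = b / (C + 1) := by
      have h6 : (0 : ℝ) ≤ b / (C + 1) := by positivity
      rw [← Real.rpow_natCast, ← Real.rpow_mul h6]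
      norm_num
    linarith
  have h4 : s = s ^ (1 / 40 : ℝ) * s ^ (39 / 40 : ℝ) := by
    rw [← Real.rpow_add hs0]
    norm_num
  have h5 : (0 : ℝ) ≤ s ^ (39 / 40 : ℝ) := Real.rpow_nonneg hs0.le _
  have h6 : (0 : ℝ) ≤ s ^ (1 / 40 : ℝ) := Real.rpow_nonneg hs0.le _
  have h7 : s ^ (1 / 40 : ℝ) * C ≤ b := by
    have h8 : s ^ (1 / 40 : ℝ) * C ≤ b / (C + 1) * C := mul_le_mul_of_nonneg_right h3 hC
    have h9 : b / (C + 1) * C ≤ b := by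
      rw [div_mul_eq_mul_div, div_le_iff₀ (by linarith)]
      nlinarith
    linarith
  calc s * |iteratedDeriv 3 η t| ≤ s * (C * (iteratedDeriv 2 η t) ^ (39 / 40 : ℝ)) :=
        mul_le_mul_of_nonneg_left h1 hs0.le
    _ = (s ^ (1 / 40 : ℝ) * C) * (s ^ (39 / 40 : ℝ) * (iteratedDeriv 2 η t) ^ (39 / 40 : ℝ)) := by
        conv_lhs => rw [h4]
        ring
    _ ≤ b * (s ^ (39 / 40 : ℝ) * (iteratedDeriv 2 η t) ^ (39 / 40 : ℝ)) :=
        mul_le_mul_of_nonneg_right h7 (mul_nonneg h5 h2)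

section

variable {M P : Type} [MetricSpace M] [CompactSpace M] [MetricSpace P] [CompactSpace P]
  [MeasurableSpace M] [BorelSpace M] {Ω : Set ℂ} {φ : ℂ → ℝ} {pr : ℂ → M} {q : Y → P}
  {x0 δ : ℝ} {w : ℂ → ℝ} {c r0 : ℝ} {μ : Measure M} {D : Data M} {Φ : ℂ → M}

/-- one step -/
theorem step_ge (hSf : StSurf) (hYU : StYU) (hStab : StStab)
    (h : Su Ω φ pr q x0 δ w c r0) (hB : Bu Ω φ pr x0 δ w c r0 μ D Φ) {κ0 : ℝ}
    {H : ℝ → ℝ} {cH ρ : ℝ} (hH : Ht δ κ0 H cH ρ) {ρ' : ℝ} (hρ' : 0 < ρ')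
    (hρρ : ρ' < ρ) (hρ0 : ρ < r0) (T : Finset C(M, ℝ)) (C : ℝ) {ε : ℝ} (Λ0 : ℝ) (hε : 0 < ε)
    (hT : ∀ F ∈ T, ∀ z : ℂ, |z.re - x0| ≤ ρ →
      |F (pr z) - F (pr (x0 + z.im * Complex.I))| ≤ ε / 2) {b b2 : ℝ} (hb : 0 < b)
    (hb2 : 0 < b2) (N : ℕ) :
    ∃ (d : ℝ → ℝ) (s : ℝ), ContDiff ℝ ∞ d ∧ (∀ t, δ / 2 ≤ |t| → d t = 0) ∧ 0 < s ∧ s ≤ b ∧
      (∀ t, |t| ≤ ρ' → d t = -s) ∧ (∀ j ≤ N, ∀ t, |iteratedDeriv j d t| ≤ b) ∧
      (∀ j, ∃ K : ℝ, ∀ t, |iteratedDeriv j d t| ≤ K) ∧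
      (∀ t, ρ' < |t| → |t| ≤ δ / 4 → 0 < iteratedDeriv 2 d t) ∧ D3 δ d b2 ∧
      Wu Ω pr x0 (fun z => φ z + Vm pr x0 δ w c (fun t => H t + d t) (cH + s) (pr z))
        T C ε Λ0 := by
  classical
  obtain ⟨h1, h2, h3⟩ := h.r0p
  obtain ⟨η, Ce, hη, hCe, hD3⟩ := etE.1 δ ρ' hρ' (by linarith [h.fl.rL])
  have hbd := hη.bd
  choose K hK using hbd
  set Km : ℝ := 1 + ∑ j ∈ Finset.range (N + 1), |K j| with hKm
  have hKm1 : 1 ≤ Km := by
    have : 0 ≤ ∑ j ∈ Finset.range (N + 1), |K j| := Finset.sum_nonneg fun j _ => abs_nonneg _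
    linarith
  have hKj : ∀ j ≤ N, K j ≤ Km := by
    intro j hj
    have h4 := Finset.single_le_sum (f := fun j => |K j|) (fun j _ => abs_nonneg _)
      (Finset.mem_range.2 (Nat.lt_succ_of_le hj))
    have h5 := le_abs_self (K j)
    linarith
  obtain ⟨s, hs1, hs2, hW⟩ := stage_gu hSf hYU hStab h hB hH hρ' hρρ hρ0 hη T (C := C) (Λ0 := Λ0)
    hε hT (s0 := min (b / Km) ((b2 / (Ce + 1)) ^ (40 : ℕ))) (by positivity)
  have hKp : 0 < Km := by linarith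
  have hsK : s * Km ≤ b := by
    have h4 := (lt_div_iff₀ hKp).1 (hs2.trans_le (min_le_left _ _))
    exact h4.le
  have hn : ∀ t, |t| ≤ δ / 4 → 0 ≤ iteratedDeriv 2 η t := by
    intro t ht
    rcases le_or_gt (|t|) ρ' with h4 | h4
    · exact (itd2_const_on hρ' hη.sm hη.zer h4).ge
    · exact (hη.cvx t h4 ht).le
  have hsb : s ≤ b := by nlinarith
  refine ⟨fun t => s * η t, s, contDiff_const.mul hη.sm, fun t ht => ?_, hs1, hsb,
    fun t ht => ?_, fun j hj t => ?_, fun j => ⟨s * K j, fun t => ?_⟩, fun t ht1 ht2 => ?_,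
    D3.smul hη.sm hCe hD3 hn hs1 hb2 (hs2.le.trans (min_le_right _ _)), hW⟩
  · show s * η t = 0
    rw [hη.far t ht, mul_zero]
  · show s * η t = -s
    rw [hη.zer t ht]
    ring
  · rw [itd_smul' hη.sm, abs_mul, abs_of_pos hs1]
    have h4 : |iteratedDeriv j η t| ≤ Km := (hK j t).trans (hKj j hj)
    have h5 := mul_le_mul_of_nonneg_left h4 hs1.le
    linarith
  · rw [itd_smul' hη.sm, abs_mul, abs_of_pos hs1]
    exact mul_le_mul_of_nonneg_left (hK j t) hs1.le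
  · rw [itd_smul' hη.sm]
    exact mul_pos hs1 (hη.cvx t ht1 ht2)

end

end Pool.Agent.H240.GU
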