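import Pool.Agent.H240.GU.Def
import Pool.Agent.H240.CG.Stage

/-!
# Scars near every negatively curved surface: windows of energies at one stage
-/

set_option autoImplicit false
set_option linter.unusedSectionVars false

open Set Filter Topology MeasureTheory
open scoped ContDiff ComplexConjugate Real

noncomputable section

namespace Pool.Agent.H240.GU

open Pool.Agent.Y262.EG Pool.Agent.Y262.EX Pool.Agent.Y262.EL Pool.Agent.Y262.QE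
open Pool.Agent.Y264.QR Pool.Agent.H240.SC Pool.Agent.H240.SG Pool.Agent.H240.CG
open Pool.Agent.H240.AL

/-- windows of energies with many scars, for all metrics near the metric `φ` -/
def Wu {M : Type} [TopologicalSpace M] [MeasurableSpace M] (Ω : Set ℂ) (pr : ℂ → M) (x0 : ℝ)
    (φ : ℂ → ℝ) (T : Finset C(M, ℝ)) (C ε Λ0 : ℝ) : Prop :=
  ∃ (Λ1 η : ℝ), 0 < η ∧ ∀ f' : M → ℝ, ContDiffOn ℝ ∞ (fun z => f' (pr z)) Ω →
    (∀ x, |f' x| < η) → ∀ μ' : Measure M, IsArea Ω (fun z => φ z + f' (pr z)) pr μ' →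
    ∀ (u : ℕ → M → ℝ) (lam : ℕ → ℝ), EB Ω (fun z => φ z + f' (pr z)) pr μ' u lam →
    ∃ Λ : ℝ, Λ0 ≤ Λ ∧ Λ ≤ Λ1 ∧
      C * √Λ < ({j | (∀ h ∈ T, |(∫ x, h x * (u j x) ^ 2 ∂μ') - Av pr x0 h| ≤ ε) ∧
        lam j ≤ Λ}.ncard : ℝ)

/-- the correction by a function of the distance -/
def eH {M : Type} (pr : ℂ → M) (x0 δ : ℝ) (H : ℝ → ℝ) (cH : ℝ) (x : M) : ℝ :=
  cH + cx pr x0 δ (fun z => H (z.re - x0)) x

section

variable {M P : Type} {pr : ℂ → M} {x0 δ : ℝ}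

theorem cx_add (w v : ℂ → ℝ) (x : M) :
    cx pr x0 δ (fun z => w z + v z) x = cx pr x0 δ w x + cx pr x0 δ v x := by
  unfold cx
  split_ifs
  · rfl
  · ring

theorem cx_smul (s : ℝ) (w : ℂ → ℝ) (x : M) :
    cx pr x0 δ (fun z => s * w z) x = s * cx pr x0 δ w x := by
  unfold cx
  split_ifs
  · rfl
  · ring

theorem vm_eq (w : ℂ → ℝ) (c : ℝ) (H : ℝ → ℝ) (cH : ℝ) (x : M) :
    Vm pr x0 δ w c H cH x = (c + cx pr x0 δ w x) + eH pr x0 δ H cH x := by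
  unfold Vm eH
  rw [cx_add]
  ring

theorem eH_lin (H η : ℝ → ℝ) (cH s : ℝ) (x : M) :
    eH pr x0 δ (fun t => H t + s * η t) (cH + s) x =
      eH pr x0 δ H cH x + s * eH pr x0 δ η 1 x := by
  unfold eH
  rw [cx_add (fun z => H (z.re - x0)) (fun z => s * η (z.re - x0)),
    cx_smul s (fun z => η (z.re - x0))]
  ring

theorem cwH (hδ : 0 < δ) {H : ℝ → ℝ} (hs : ContDiff ℝ ∞ H) (hf : ∀ t, δ / 2 ≤ |t| → H t = 0) :
    Cw x0 δ (fun z => H (z.re - x0)) := by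
  refine ⟨?_, fun z _ => ?_, δ / 2, by linarith, fun z _ hz => hf _ hz⟩
  · have h1 : ContDiff ℝ ∞ fun z : ℂ => z.re - x0 := Complex.reCLM.contDiff.sub contDiff_const
    exact (hs.comp h1).contDiffOn
  · have h1 : (z + 2 * π * Complex.I).re = z.re := by simp
    rw [h1]

end

/-- functions which come from the collar (a part of `StCx`) -/
def CxP {M : Type} [TopologicalSpace M] (Ω : Set ℂ) (pr : ℂ → M) (x0 δ : ℝ) : Prop :=
  ∀ w : ℂ → ℝ, Cw x0 δ w →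
      ContDiffOn ℝ ∞ (fun z => cx pr x0 δ w (pr z)) Ω ∧ Continuous (cx pr x0 δ w) ∧
      (∀ z ∈ Sx x0 δ, cx pr x0 δ w (pr z) = w z) ∧
      (∀ x, x ∉ pr '' Sx x0 δ → cx pr x0 δ w x = 0) ∧
      ∀ z ∈ Ω, pr z ∉ pr '' Sx x0 δ → (fun ζ => cx pr x0 δ w (pr ζ)) =ᶠ[𝓝 z] fun _ => 0

/-- the exponent of the base metric -/
def pb {M : Type} (φ : ℂ → ℝ) (pr : ℂ → M) (x0 δ : ℝ) (w : ℂ → ℝ) (c : ℝ) (z : ℂ) : ℝ :=
  φ z + (c + cx pr x0 δ w (pr z))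

/-- the surface -/
structure Su {M P : Type} [MetricSpace M] [MetricSpace P] (Ω : Set ℂ) (φ : ℂ → ℝ) (pr : ℂ → M)
    (q : Y → P) (x0 δ : ℝ) (w : ℂ → ℝ) (c r0 : ℝ) : Prop where
  ut : IsUT Ω φ pr q
  co : Co Ω pr x0 δ
  fl : FlU φ x0 δ w c r0
  w2 : ∀ z ∈ Sx x0 δ, δ / 2 ≤ |z.re - x0| → w z = 0
  cxp : CxP Ω pr x0 δ

/-- the data of the base metric -/
structure Bu {M : Type} [MetricSpace M] [MeasurableSpace M] (Ω : Set ℂ) (φ : ℂ → ℝ) (pr : ℂ → M)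
    (x0 δ : ℝ) (w : ℂ → ℝ) (c r0 : ℝ) (μ : Measure M) (D : Data M) (Φ : ℂ → M) : Prop where
  surf : D.IsSurf μ
  area : IsArea Ω (pb φ pr x0 δ w c) pr μ
  cmp : Compat D Ω (pb φ pr x0 δ w c) pr
  cyl : IsCyl0 D (2 * r0) Φ
  Φpr : ∀ z ∈ Strip (2 * r0), Φ z = pr (z + ((x0 - r0 : ℝ) : ℂ))

section

variable {M P : Type} [MetricSpace M] [CompactSpace M] [MetricSpace P] [CompactSpace P]
  [MeasurableSpace M] [BorelSpace M] {Ω : Set ℂ} {φ : ℂ → ℝ} {pr : ℂ → M} {q : Y → P}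
  {x0 δ : ℝ} {w : ℂ → ℝ} {c r0 : ℝ} {μ : Measure M} {D : Data M} {Φ : ℂ → M}

theorem ut_smooth {φ' : ℂ → ℝ} (h : IsUT Ω φ' pr q) {e : M → ℝ}
    (he : ContDiffOn ℝ ∞ (fun z => e (pr z)) Ω) : IsUT Ω (fun z => φ' z + e (pr z)) pr q := by
  have h1 := (tUTs M P Ω φ' pr q h e he 2).1
  have e1 : (fun z => φ' z + 2 / 2 * e (pr z)) = fun z => φ' z + e (pr z) := by
    funext z
    ring
  rwa [e1] at h1

theorem Su.w1 (h : Su Ω φ pr q x0 δ w c r0) :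
    ContDiffOn ℝ ∞ (fun z => c + cx pr x0 δ w (pr z)) Ω ∧
      Continuous fun x => c + cx pr x0 δ w x :=
  ⟨contDiffOn_const.add (h.cxp w h.fl.cw).1, continuous_const.add (h.cxp w h.fl.cw).2.1⟩

theorem Su.utb (h : Su Ω φ pr q x0 δ w c r0) : IsUT Ω (pb φ pr x0 δ w c) pr q :=
  ut_smooth (e := fun x => c + cx pr x0 δ w x) h.ut h.w1.1

theorem Su.r0p (h : Su Ω φ pr q x0 δ w c r0) : 0 < r0 ∧ r0 < δ ∧ 0 < δ :=
  ⟨h.fl.rp, by linarith [h.fl.rL, h.co.δp], h.co.δp⟩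

theorem Su.pb0 (h : Su Ω φ pr q x0 δ w c r0) {z : ℂ} (hz : |z.re - x0| ≤ r0) :
    pb φ pr x0 δ w c z = 0 := by
  obtain ⟨h1, h2, h3⟩ := h.r0p
  unfold pb
  rw [(h.cxp w h.fl.cw).2.2.1 z (lt_of_le_of_lt hz h2), ← h.fl.flat z hz]
  ring

theorem bu_ex (hBase : StBase) (h : Su Ω φ pr q x0 δ w c r0) :
    ∃ (μ : Measure M) (D : Data M) (Φ : ℂ → M), Bu Ω φ pr x0 δ w c r0 μ D Φ := by
  obtain ⟨h1, h2, h3⟩ := h.r0p
  obtain ⟨μ, D, Φ, a1, a2, a3, a4, a5⟩ := hBase M P Ω (pb φ pr x0 δ w c) pr q x0 r0 h.utb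
    ⟨h1, fun z hz => h.co.sub z (hz.trans h2),
      fun z v hz hv => h.co.per z v (hz.trans h2) (hv.trans h2)⟩ fun z hz => h.pb0 hz.le
  exact ⟨μ, D, Φ, a1, a2, a3, a4, a5⟩

/-- the data of the metric `exp (2 e)` times the base metric -/
theorem udata (h : Su Ω φ pr q x0 δ w c r0) (hB : Bu Ω φ pr x0 δ w c r0 μ D Φ) (e : C(M, ℝ))
    (he : ContDiffOn ℝ ∞ (fun z => e (pr z)) Ω) :
    (D.conf fun x => Real.exp (((2 : ℝ) • e) x)).IsSurf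
        (wm μ fun x => Real.exp (((2 : ℝ) • e) x)) ∧
      Compat (D.conf fun x => Real.exp (((2 : ℝ) • e) x)) Ω
        (fun z => pb φ pr x0 δ w c z + e (pr z)) pr ∧
      IsArea Ω (fun z => pb φ pr x0 δ w c z + e (pr z)) pr
        (wm μ fun x => Real.exp (((2 : ℝ) • e) x)) := by
  have hw : (fun x => Real.exp (2 * e x)) = fun x => Real.exp (((2 : ℝ) • e) x) := rfl
  have e1 : ∀ z ∈ Ω, pb φ pr x0 δ w c z + e (pr z) =
      pb φ pr x0 δ w c z + 2 / 2 * e (pr z) := fun z _ => by ring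
  refine ⟨?_, ?_, ?_⟩
  · exact (tConf M μ D hB.surf (fun x => Real.exp (((2 : ℝ) • e) x))
      (Real.continuous_exp.comp ((2 : ℝ) • e).continuous) (fun x => Real.exp_pos _)).1
  · have h1 := (tUTs M P Ω (pb φ pr x0 δ w c) pr q h.utb e he 2).2 D hB.cmp
    rw [hw] at h1
    exact cmp_congr h1 e1
  · have h1 := (tCVM M P Ω (pb φ pr x0 δ w c) pr q μ h.utb hB.area).2.2.2 e e.continuous he 2
    rw [hw] at h1
    exact area_congr h1 e1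

theorem Su.eH_ex (h : Su Ω φ pr q x0 δ w c r0) {H : ℝ → ℝ} (hs : ContDiff ℝ ∞ H)
    (hf : ∀ t, δ / 2 ≤ |t| → H t = 0) (cH : ℝ) :
    ∃ e : C(M, ℝ), (∀ x, e x = eH pr x0 δ H cH x) ∧ ContDiffOn ℝ ∞ (fun z => e (pr z)) Ω ∧
      (∀ z : ℂ, |z.re - x0| < δ → e (pr z) = cH + H (z.re - x0)) ∧
      ∀ x, x ∉ pr '' Sx x0 δ → e x = cH := by
  obtain ⟨a1, a2, a3, a4, -⟩ := h.cxp _ (cwH (x0 := x0) h.co.δp hs hf)
  refine ⟨⟨eH pr x0 δ H cH, continuous_const.add a2⟩, fun x => rfl,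
    contDiffOn_const.add a1, fun z hz => ?_, fun x hx => ?_⟩
  · show cH + cx pr x0 δ (fun z => H (z.re - x0)) (pr z) = _
    rw [a3 z hz]
  · show cH + cx pr x0 δ (fun z => H (z.re - x0)) x = _
    rw [a4 x hx, add_zero]

end

end Pool.Agent.H240.GU
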