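import Pool.Agent.H240.GU.Stg

/-!
# Scars near every negatively curved surface: windows of energies at one stage, II
-/

set_option autoImplicit false
set_option linter.unusedSectionVars false

open Set Filter Topology MeasureTheory
open scoped ContDiff ComplexConjugate Real

noncomputable section

namespace Pool.Agent.H240.GU

open Pool.Agent.Y262.EG Pool.Agent.Y262.EX Pool.Agent.Y262.EL Pool.Agent.Y262.QE
open Pool.Agent.Y264.QR Pool.Agent.H240.SC Pool.Agent.H240.SG Pool.Agent.H240.CG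
open Pool.Agent.H240.AL

section

variable {M P : Type} [MetricSpace M] [CompactSpace M] [MetricSpace P] [CompactSpace P]
  [MeasurableSpace M] [BorelSpace M] {Ω : Set ℂ} {φ : ℂ → ℝ} {pr : ℂ → M} {q : Y → P}
  {x0 δ : ℝ} {w : ℂ → ℝ} {c r0 : ℝ} {μ : Measure M} {D : Data M} {Φ : ℂ → M}

theorem et_nonneg {η : ℝ → ℝ} {ρ : ℝ} (hη : Et δ η ρ) (t : ℝ) : 0 ≤ 1 + η t := by
  rcases le_or_gt (|t|) ρ with h1 | h1
  · rw [hη.zer t h1]
    norm_num
  · linarith [hη.pos t h1]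

/-- the geometry of the cylinder -/
theorem geo_u (h : Su Ω φ pr q x0 δ w c r0) (hB : Bu Ω φ pr x0 δ w c r0 μ D Φ) {κ0 : ℝ}
    {H : ℝ → ℝ} {cH ρ : ℝ} (hH : Ht δ κ0 H cH ρ) {η : ℝ → ℝ} {ρ' : ℝ} (hρ' : 0 < ρ')
    (hρρ : ρ' < ρ) (hρ0 : ρ < r0) (hη : Et δ η ρ') {e g : C(M, ℝ)}
    (he : ∀ z : ℂ, |z.re - x0| < δ → e (pr z) = cH + H (z.re - x0))
    (hg : ∀ z : ℂ, |z.re - x0| < δ → g (pr z) = 1 + η (z.re - x0))
    (hg2 : ∀ x, x ∉ pr '' Sx x0 δ → g x = 1) :
    ∃ C0, Geo (2 * r0) (r0 - ρ') (r0 + ρ') C0 Φ ((2 : ℝ) • e) g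
      (fun x => 2 * (cH + H (x - r0))) (fun x => 1 + η (x - r0)) := by
  obtain ⟨h1, h2, h3⟩ := h.r0p
  have hHc := hH.sm.continuous
  have hηc := hη.sm.continuous
  -- the constant of the comparison
  obtain ⟨C0, hC0, hC⟩ : ∃ C0 : ℝ, 0 ≤ C0 ∧ ∀ t : ℝ, |t| ≤ r0 →
      2 * (cH + H t) ≤ C0 * (1 + η t) := by
    have hK : IsCompact {t : ℝ | ρ ≤ |t| ∧ |t| ≤ r0} := by
      refine (isCompact_Icc (a := -r0) (b := r0)).of_isClosed_subset ?_ fun t ht => abs_le.1 ht.2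
      exact (isClosed_le continuous_const continuous_abs).inter
        (isClosed_le continuous_abs continuous_const)
    obtain ⟨K, hKb⟩ := hK.exists_bound_of_continuousOn (f := fun t => 2 * (cH + H t))
      (by fun_prop)
    have hne : {t : ℝ | ρ ≤ |t| ∧ |t| ≤ r0}.Nonempty :=
      ⟨r0, by rw [mem_setOf_eq, abs_of_pos h1]; exact ⟨hρ0.le, le_rfl⟩⟩
    obtain ⟨t1, ht1, hmin⟩ := hK.exists_isMinOn hne (f := fun t => 1 + η t) (by fun_prop)
    have hm : 0 < 1 + η t1 := by linarith [hη.pos t1 (hρρ.trans_le ht1.1)]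
    refine ⟨|K| / (1 + η t1), by positivity, fun t ht => ?_⟩
    rcases le_or_gt (|t|) ρ with h4 | h4
    · rw [hH.zer t h4]
      have := mul_nonneg (div_nonneg (abs_nonneg K) hm.le) (et_nonneg hη t)
      linarith
    · have h5 := hKb t ⟨h4.le, ht⟩
      have h6 : 1 + η t1 ≤ 1 + η t := hmin (show t ∈ {t : ℝ | ρ ≤ |t| ∧ |t| ≤ r0} from ⟨h4.le, ht⟩)
      have h7 : 2 * (cH + H t) ≤ |K| := (le_abs_self _).trans (h5.trans (le_abs_self K))
      have h8 : |K| ≤ |K| / (1 + η t1) * (1 + η t) := by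
        rw [div_mul_eq_mul_div, le_div_iff₀ hm]
        exact mul_le_mul_of_nonneg_left h6 (abs_nonneg K)
      linarith
  have hst : ∀ z ∈ Strip (2 * r0), |(z + ((x0 - r0 : ℝ) : ℂ)).re - x0| < δ ∧
      (z + ((x0 - r0 : ℝ) : ℂ)).re - x0 = z.re - r0 := by
    intro z hz
    have h4 := hz.1
    have h5 := hz.2
    have h6 : (z + ((x0 - r0 : ℝ) : ℂ)).re - x0 = z.re - r0 := by
      rw [Complex.add_re, Complex.ofReal_re]
      ring
    refine ⟨?_, h6⟩
    rw [h6, abs_lt]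
    constructor <;> linarith
  refine ⟨C0, ⟨by linarith, by linarith, by linarith, ?_, ?_, ?_, ?_, ?_, hC0, ?_⟩, ?_, ?_, ?_⟩
  · exact (by fun_prop : Continuous fun x => 2 * (cH + H (x - r0))).continuousOn
  · exact (by fun_prop : Continuous fun x => 1 + η (x - r0)).continuousOn
  · intro x hx
    have h4 : |x - r0| ≤ ρ' := by
      rw [abs_le]
      constructor <;> linarith [hx.1, hx.2]
    refine ⟨?_, ?_⟩
    · show 2 * (cH + H (x - r0)) = 0
      rw [hH.zer _ (h4.trans hρρ.le)]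
      ring
    · show 1 + η (x - r0) = 0
      rw [hη.zer _ h4]
      norm_num
  · intro x _
    exact et_nonneg hη _
  · intro x hx hn
    have h4 : ρ' < |x - r0| := by
      by_contra hcon
      push Not at hcon
      have h5 := abs_le.1 hcon
      exact hn ⟨by linarith [h5.1], by linarith [h5.2]⟩
    show 0 < 1 + η (x - r0)
    linarith [hη.pos _ h4]
  · intro x hx
    refine hC _ ?_
    rw [abs_le]
    constructor <;> linarith [hx.1, hx.2]
  · intro z hz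
    obtain ⟨h4, h5⟩ := hst z hz
    have e1 : ((2 : ℝ) • e) (Φ z) = 2 * e (Φ z) := rfl
    rw [e1, hB.Φpr z hz, he _ h4, h5]
  · intro z hz
    obtain ⟨h4, h5⟩ := hst z hz
    rw [hB.Φpr z hz, hg _ h4, h5]
  · intro x
    by_cases hx : x ∈ pr '' Sx x0 δ
    · obtain ⟨z, hz, rfl⟩ := hx
      rw [hg z hz]
      exact et_nonneg hη _
    · rw [hg2 x hx]
      norm_num

/-- a function which is constant on an interval has derivative zero there -/
theorem deriv_const_on {H : ℝ → ℝ} {ρ k : ℝ} (hρ : 0 < ρ) (hs : ContDiff ℝ ∞ H)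
    (hz : ∀ t, |t| ≤ ρ → H t = k) {t : ℝ} (ht : |t| ≤ ρ) : deriv H t = 0 := by
  have hc : Continuous (deriv H) := hs.continuous_deriv (by simp)
  have h1 : ∀ s ∈ Ioo (-ρ) ρ, deriv H s = 0 := by
    intro s hs'
    have h2 : H =ᶠ[𝓝 s] fun _ => k := by
      filter_upwards [isOpen_Ioo.mem_nhds hs'] with v hv
      exact hz v (abs_le.2 ⟨hv.1.le, hv.2.le⟩)
    rw [h2.deriv_eq]
    exact deriv_const s k
  have h2 : t ∈ closure (Ioo (-ρ) ρ) := by
    rw [closure_Ioo (by linarith)]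
    exact abs_le.1 ht
  exact (isClosed_singleton.preimage hc).closure_subset_iff.2 (fun s hs' => h1 s hs') h2

/-- **Windows of energies at one stage.** -/
theorem stage_gu (hSf : StSurf) (hYU : StYU) (hStab : StStab)
    (h : Su Ω φ pr q x0 δ w c r0) (hB : Bu Ω φ pr x0 δ w c r0 μ D Φ) {κ0 : ℝ}
    {H : ℝ → ℝ} {cH ρ : ℝ} (hH : Ht δ κ0 H cH ρ) {η : ℝ → ℝ} {ρ' : ℝ} (hρ' : 0 < ρ')
    (hρρ : ρ' < ρ) (hρ0 : ρ < r0) (hη : Et δ η ρ') (T : Finset C(M, ℝ)) {C ε Λ0 : ℝ} (hε : 0 < ε)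
    (hT : ∀ F ∈ T, ∀ z : ℂ, |z.re - x0| ≤ ρ →
      |F (pr z) - F (pr (x0 + z.im * Complex.I))| ≤ ε / 2) {s0 : ℝ} (hs0 : 0 < s0) :
    ∃ s : ℝ, 0 < s ∧ s < s0 ∧
      Wu Ω pr x0 (fun z => φ z + Vm pr x0 δ w c (fun t => H t + s * η t) (cH + s) (pr z))
        T C ε Λ0 := by
  obtain ⟨h1, h2, h3⟩ := h.r0p
  have hneM : Nonempty M := ⟨Φ 0⟩
  obtain ⟨e, he1, he2, he3, he4⟩ := h.eH_ex hH.sm hH.far cH
  obtain ⟨g, hg1, hg2, hg3, hg4⟩ := h.eH_ex hη.sm hη.far 1
  obtain ⟨C0, hgeo⟩ := geo_u h hB hH hρ' hρρ hρ0 hη he3 hg3 hg4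
  -- a good parameter
  obtain ⟨s', hs', hgood⟩ : ∃ s : ℝ, (0 < s ∧ s < 2 * s0) ∧ ∀ (u : ℕ → M → ℝ) (lam : ℕ → ℝ),
      EigBasis (D.conf fun x => Real.exp ((((2 : ℝ) • e) + s • g) x))
        (wm μ fun x => Real.exp ((((2 : ℝ) • e) + s • g) x)) u lam →
      ∃ J : Set ℕ, (∀ C : ℝ, ∃ᶠ Λ : ℝ in atTop,
        C * Real.sqrt Λ < ({j | j ∈ J ∧ lam j ≤ Λ}.ncard : ℝ)) ∧
        Tendsto (fun j => ∫ x, g x * (u j x) ^ 2 ∂(wm μ fun x =>
          Real.exp ((((2 : ℝ) • e) + s • g) x))) (atTop ⊓ 𝓟 J) (𝓝 0) := by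
    by_contra hcon
    have hnull : volume {s : ℝ | 0 < s ∧ s < 2 * s0} = 0 := by
      refine measure_mono_null ?_ (hSf M μ D (2 * r0) Φ hB.surf hB.cyl _ _ _ _ _ _ _ hgeo)
      intro s hs hgood
      exact hcon ⟨s, hs, hgood⟩
    have hpos : 0 < volume {s : ℝ | 0 < s ∧ s < 2 * s0} := by
      refine IsOpen.measure_pos volume ?_ ⟨s0, hs0, by linarith⟩
      exact (isOpen_lt continuous_const continuous_id).inter
        (isOpen_lt continuous_id continuous_const)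
    exact absurd hnull hpos.ne'
  set s : ℝ := s' / 2 with hs
  have hs1 : 0 < s := by
    rw [hs]
    linarith [hs'.1]
  have hs2 : s < s0 := by
    rw [hs]
    linarith [hs'.2]
  refine ⟨s, hs1, hs2, ?_⟩
  set φ0 : C(M, ℝ) := ((2 : ℝ) • e) + s' • g with hφ0
  have hφe : ∀ f' : C(M, ℝ), φ0 + (2 : ℝ) • f' = (2 : ℝ) • (e + s • g + f') := by
    intro f'
    ext x
    have e1 : (φ0 + (2 : ℝ) • f') x = 2 * e x + s' * g x + 2 * f' x := rfl
    have e2 : ((2 : ℝ) • (e + s • g + f')) x = 2 * (e x + s * g x + f' x) := rfl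
    rw [e1, e2, hs]
    ring
  have hφs : ∀ f' : C(M, ℝ), ContDiffOn ℝ ∞ (fun z => f' (pr z)) Ω →
      ContDiffOn ℝ ∞ (fun z => (e + s • g + f') (pr z)) Ω := fun f' hf' =>
    (he2.add (contDiffOn_const.mul hg2)).add hf'
  set φ' : ℂ → ℝ := fun z => φ z + Vm pr x0 δ w c (fun t => H t + s * η t) (cH + s) (pr z) with hφ'
  have hφz : ∀ f' : M → ℝ, ∀ z ∈ Ω,
      φ' z + f' (pr z) = pb φ pr x0 δ w c z + (e (pr z) + s * g (pr z) + f' (pr z)) := by
    intro f' z hz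
    simp only [hφ']
    rw [vm_eq, eH_lin, he1, hg1]
    unfold pb
    ring
  have hdat := fun (f' : C(M, ℝ)) (hf' : ContDiffOn ℝ ∞ (fun z => f' (pr z)) Ω) =>
    udata h hB (e + s • g + f') (hφs f' hf')
  have hφz0 : ∀ z ∈ Ω, φ' z = pb φ pr x0 δ w c z + (e + s • g + (0 : C(M, ℝ))) (pr z) := by
    intro z hz
    have h4 := hφz (fun _ => 0) z hz
    rw [add_zero, add_zero] at h4
    rw [h4]
    show _ = pb φ pr x0 δ w c z + (e (pr z) + s * g (pr z) + 0)
    ring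
  -- the metric of the stage
  obtain ⟨b1, b2, b3⟩ := hdat 0 contDiffOn_const
  have e0 : (2 : ℝ) • (e + s • g + (0 : C(M, ℝ))) = φ0 := by
    rw [← hφe 0]
    simp
  rw [e0] at b1 b2 b3
  have b2' := cmp_congr b2 hφz0
  have b3' := area_congr b3 hφz0
  have hUT : IsUT Ω φ' pr q := by
    have hVs : ContDiffOn ℝ ∞ (fun z => Vm pr x0 δ w c (fun t => H t + s * η t) (cH + s) (pr z)) Ω := by
      refine (h.w1.1.add (he2.add (contDiffOn_const (c := s) |>.mul hg2))).congr fun z hz => ?_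
      rw [vm_eq, eH_lin, he1, hg1]
    exact ut_smooth h.ut hVs
  -- the profile near the geodesic
  set G : ℝ → ℝ := fun x => (cH + s) + (H (x - x0) + s * η (x - x0)) with hG
  have hGd : Gd Ω φ' pr G x0 r0 := by
    refine ⟨h1, fun z hz => ⟨h.co.sub z (hz.trans h2), ?_⟩,
      fun z v hz hv => h.co.per z v (hz.trans h2) (hv.trans h2)⟩
    have h4 := hφz0 z (h.co.sub z (hz.trans h2))
    rw [h4, h.pb0 hz.le]
    show 0 + (e (pr z) + s * g (pr z) + 0) = _
    rw [he3 z (hz.trans h2), hg3 z (hz.trans h2)]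
    simp only [hG]
    ring
  have hρp : 0 < ρ := hρ'.trans hρρ
  have hGder : ∀ x, |x - x0| ≤ ρ' → deriv G x = 0 := by
    intro x hx
    have d1 : HasDerivAt H (deriv H (x - x0)) (x - x0) :=
      ((hH.sm.differentiable (by simp)) _).hasDerivAt
    have d2 : HasDerivAt η (deriv η (x - x0)) (x - x0) :=
      ((hη.sm.differentiable (by simp)) _).hasDerivAt
    have d3 : HasDerivAt (fun x => x - x0) 1 x := (hasDerivAt_id x).sub_const x0
    have d4 := d1.comp x d3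
    have d5 := d2.comp x d3
    have d6 : HasDerivAt G (deriv H (x - x0) * 1 + s * (deriv η (x - x0) * 1)) x :=
      (d4.add (d5.const_mul s)).const_add (cH + s)
    rw [d6.deriv, deriv_const_on hρp hH.sm hH.zer (hx.trans hρρ.le),
      deriv_const_on hρ' hη.sm hη.zer hx]
    ring
  -- the zero set of `g`
  have hgn : ∀ x, 0 ≤ g x := hgeo.hn
  have hgz : ∀ x, g x = 0 → x ∈ TcU pr x0 ρ' := by
    intro x hx
    by_cases hx' : x ∈ pr '' Sx x0 δ
    · obtain ⟨z, hz, rfl⟩ := hx'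
      refine ⟨z, ?_, rfl⟩
      by_contra hcon
      have h4 : ρ' < |z.re - x0| := not_le.1 hcon
      have h5 := hη.pos _ h4
      rw [hg3 z hz] at hx
      linarith
    · rw [hg4 x hx'] at hx
      exact absurd hx one_ne_zero
  -- approximate values
  have hgoodT : ∀ (u : ℕ → M → ℝ) (lam : ℕ → ℝ),
      EigBasis (D.conf fun x => Real.exp (φ0 x)) (wm μ fun x => Real.exp (φ0 x)) u lam →
      ∃ J : Set ℕ, (∀ C : ℝ, ∃ᶠ Λ : ℝ in atTop,
        C * Real.sqrt Λ < ({j | j ∈ J ∧ lam j ≤ Λ}.ncard : ℝ)) ∧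
        ∀ F ∈ T, ∀ᶠ j in atTop ⊓ 𝓟 J,
          |(∫ x, F x * (u j x) ^ 2 ∂(wm μ fun x => Real.exp (φ0 x))) - Av pr x0 F| < ε := by
    intro u lam hu
    obtain ⟨J, hJ1, hJ2⟩ := hgood u lam hu
    refine ⟨J, hJ1, ?_⟩
    obtain ⟨v, hv, huv⟩ := eb_ex2 hUT b1 b2' b3' hu
    have hw := eb_weak hUT b1 b2' b3' hv
    have htt := Pool.Agent.H240.NL.eb_tt hB.surf hneM hw
    set ν := wm μ fun x => Real.exp (φ0 x) with hν
    have hfin : IsFiniteMeasure ν := (tFin M _ _ b1).1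
    have hv2 : ∀ j, Integrable (fun x => (v j x) ^ 2) ν := fun j => (hw.eig j).mem.integrable_sq
    have hv1 : ∀ j, ∫ x, (v j x) ^ 2 ∂ν = 1 := by
      intro j
      have h8 := hw.orth j j
      rw [if_pos rfl] at h8
      rw [← h8]
      refine integral_congr_ae (Filter.Eventually.of_forall fun x => ?_)
      simp only
      ring
    have hgv : Tendsto (fun j => ∫ x, g x * (v j x) ^ 2 ∂ν) (atTop ⊓ 𝓟 J) (𝓝 0) := by
      refine hJ2.congr fun j => integral_congr_ae ?_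
      filter_upwards [huv j] with x hx
      rw [hx]
    have hloc : ∀ K : Set M, IsCompact K → Disjoint K (TcU pr x0 ρ') →
        Tendsto (fun j => ∫ x in K, (v j x) ^ 2 ∂ν) (atTop ⊓ 𝓟 J) (𝓝 0) := by
      intro K hK hdis
      obtain ⟨b, hb, hbK⟩ : ∃ b : ℝ, 0 < b ∧ ∀ x ∈ K, b ≤ g x := by
        rcases K.eq_empty_or_nonempty with hem | hne
        · exact ⟨1, one_pos, fun x hx => by rw [hem] at hx; exact absurd hx (notMem_empty x)⟩
        · obtain ⟨y, hy, hmin⟩ := hK.exists_isMinOn hne g.continuous.continuousOn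
          refine ⟨g y, lt_of_le_of_ne (hgn y) fun hcon => ?_, fun x hx => hmin hx⟩
          exact disjoint_left.1 hdis hy (hgz y hcon.symm)
      have h4 := hgv.const_mul b⁻¹
      rw [mul_zero] at h4
      refine squeeze_zero (fun j => integral_nonneg fun x => sq_nonneg _) (fun j => ?_) h4
      have hI : Integrable (fun x => g x * (v j x) ^ 2) ν := by
        obtain ⟨B, hBd⟩ := isCompact_univ.exists_bound_of_continuousOn g.continuous.continuousOn
        exact (hv2 j).bdd_mul g.continuous.aestronglyMeasurable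
          (Filter.Eventually.of_forall fun x => hBd x (mem_univ x))
      have h5 : ∫ x in K, b * (v j x) ^ 2 ∂ν ≤ ∫ x in K, g x * (v j x) ^ 2 ∂ν := by
        refine setIntegral_mono_on ((hv2 j).const_mul _).integrableOn hI.integrableOn
          hK.measurableSet fun x hx => ?_
        exact mul_le_mul_of_nonneg_right (hbK x hx) (sq_nonneg _)
      rw [integral_const_mul] at h5
      have h6 : ∫ x in K, g x * (v j x) ^ 2 ∂ν ≤ ∫ x, g x * (v j x) ^ 2 ∂ν :=
        setIntegral_le_integral hI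
          (Filter.Eventually.of_forall fun x => mul_nonneg (hgn x) (sq_nonneg _))
      have h7 : ∫ x in K, (v j x) ^ 2 ∂ν = b⁻¹ * (b * ∫ x in K, (v j x) ^ 2 ∂ν) := by
        rw [← mul_assoc, inv_mul_cancel₀ hb.ne', one_mul]
      rw [h7]
      exact mul_le_mul_of_nonneg_left (h5.trans h6) (inv_nonneg.2 hb.le)
    intro F hF
    have h4 := hYU M P Ω φ' pr q ν G x0 r0 ρ' ρ (ε / 2) hGd hUT b3' hρ'.le hρρ hρ0 hGder
      (by positivity) v lam (atTop ⊓ 𝓟 J) hv.eig hv2 hv1 (htt.mono_left inf_le_left) hloc F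
      F.continuous (hT F hF)
    filter_upwards [h4] with j hj
    have h5 : ∫ x, F x * (u j x) ^ 2 ∂ν = ∫ x, F x * (v j x) ^ 2 ∂ν := by
      refine integral_congr_ae ?_
      filter_upwards [huv j] with x hx
      rw [hx]
    rw [h5]
    linarith
  obtain ⟨Λ1, θ, hθ, hstb⟩ := hStab M μ D hB.surf hneM φ0 T (fun F => Av pr x0 F) ε hgoodT C Λ0
  refine ⟨Λ1, θ / 2, by positivity, fun f' hf' hfη ν' hν' u lam hu => ?_⟩
  set fC : C(M, ℝ) := ⟨f', Pool.Agent.H240.NL.cont_of hUT hf'.continuousOn⟩ with hfC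
  have hUTf : IsUT Ω (fun z => pb φ pr x0 δ w c z + (e + s • g + fC) (pr z)) pr q :=
    ut_smooth h.utb (hφs fC hf')
  obtain ⟨d1, d2, d3⟩ := hdat fC hf'
  rw [← hφe fC] at d1 d2 d3
  have hν2 := area_congr hν' fun z hz => (hφz f' z hz).symm
  have hu2 := eb_congr hu fun z hz => (hφz f' z hz).symm
  have hνeq : ν' = wm μ fun x => Real.exp ((φ0 + (2 : ℝ) • fC) x) :=
    Pool.Agent.H240.NL.area_unique hUTf hν2 d3
  subst hνeq
  have hw := eb_weak hUTf d1 d2 d3 hu2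
  have hfn : ‖(2 : ℝ) • fC‖ < θ := by
    rw [ContinuousMap.norm_lt_iff _ hθ]
    intro x
    have h1 : ((2 : ℝ) • fC) x = 2 * f' x := rfl
    rw [h1, Real.norm_eq_abs, abs_mul, abs_two]
    linarith [hfη x]
  exact hstb ((2 : ℝ) • fC) hfn u lam hw

end

end Pool.Agent.H240.GU
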