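import Pool.Agent.H240.GU.Core
import Pool.Agent.H240.GU.Def5
import Pool.Agent.H274.GV.Un2

/-!
# Scars near every closed geodesic: transfer between the coverings
-/

set_option autoImplicit false
set_option linter.unusedSectionVars false

open Set Filter Topology MeasureTheory
open scoped ContDiff ComplexConjugate Real

noncomputable section

namespace Pool.Agent.H240.GV

open Pool.Agent.Y262.EG Pool.Agent.Y262.EX Pool.Agent.Y262.EL Pool.Agent.Y262.QE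
open Pool.Agent.Y264.QR Pool.Agent.H240.SC Pool.Agent.H240.SG Pool.Agent.H240.CG
open Pool.Agent.H240.AL Pool.Agent.H240.GU

theorem tUn2 : StUn2 := Pool.Agent.H274.GV.stUn2

theorem pp_congr {v v' : ℂ → ℝ} {z : ℂ} (h : v =ᶠ[𝓝 z] v') :
    px (px v) z = px (px v') z ∧ py (py v) z = py (py v') z := by
  have h1 : px v =ᶠ[𝓝 z] px v' := by
    filter_upwards [h.fderiv (𝕜 := ℝ)] with w hw
    unfold px
    rw [hw]
  have h2 : py v =ᶠ[𝓝 z] py v' := by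
    filter_upwards [h.fderiv (𝕜 := ℝ)] with w hw
    unfold py
    rw [hw]
  constructor
  · show fderiv ℝ (px v) z 1 = fderiv ℝ (px v') z 1
    rw [h1.fderiv_eq]
  · show fderiv ℝ (py v) z Complex.I = fderiv ℝ (py v') z Complex.I
    rw [h2.fderiv_eq]

section

variable {M P : Type} [MetricSpace M] [CompactSpace M] [MetricSpace P] [CompactSpace P]
  [MeasurableSpace M] [BorelSpace M] {Ω : Set ℂ} {φ : ℂ → ℝ} {pr : ℂ → M} {q : Y → P}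
  {Γ : ℂ → ℂ} {R0 δ : ℝ}

theorem uf_in {z : ℂ} (hz : z ∈ Ω) : Uf Ω φ Γ R0 δ z = φ z := by
  unfold Uf
  rw [if_pos hz]

theorem up_in {z : ℂ} (hz : z ∈ Ω) : Up Ω pr Γ R0 δ z = pr z := by
  unfold Up
  rw [if_pos hz]

theorem out_of (hR : ∀ z ∈ Ω, z.re < R0) {z : ℂ} (hz : z ∈ Sx (R0 + δ) δ) : z ∉ Ω := by
  intro h
  have h1 := hR z h
  have h2 : |z.re - (R0 + δ)| < δ := hz
  have := (abs_lt.1 h2).1
  linarith

theorem uf_out (hR : ∀ z ∈ Ω, z.re < R0) {z : ℂ} (hz : z ∈ Sx (R0 + δ) δ) :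
    Uf Ω φ Γ R0 δ z = Pb φ Γ (z - ((R0 + δ : ℝ) : ℂ)) := by
  unfold Uf
  rw [if_neg (out_of hR hz)]

theorem up_out (hR : ∀ z ∈ Ω, z.re < R0) {z : ℂ} (hz : z ∈ Sx (R0 + δ) δ) :
    Up Ω pr Γ R0 δ z = pr (Γ (z - ((R0 + δ : ℝ) : ℂ))) := by
  unfold Up
  rw [if_neg (out_of hR hz)]

theorem un_sub : Ω ⊆ Uo Ω R0 δ := subset_union_left

theorem un_sx : Sx (R0 + δ) δ ⊆ Uo Ω R0 δ := subset_union_right

theorem ev_f (hO : IsOpen Ω) {z : ℂ} (hz : z ∈ Ω) (f : M → ℝ) :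
    (fun z => f (Up Ω pr Γ R0 δ z)) =ᶠ[𝓝 z] fun z => f (pr z) := by
  filter_upwards [hO.mem_nhds hz] with w hw
  rw [up_in hw]

theorem ev_pf (hO : IsOpen Ω) {z : ℂ} (hz : z ∈ Ω) (f : M → ℝ) :
    (fun z => Uf Ω φ Γ R0 δ z + f (Up Ω pr Γ R0 δ z)) =ᶠ[𝓝 z] fun z => φ z + f (pr z) := by
  filter_upwards [hO.mem_nhds hz] with w hw
  rw [up_in hw, uf_in hw]

theorem ev_p (hO : IsOpen Ω) {z : ℂ} (hz : z ∈ Ω) :
    (fun z => Uf Ω φ Γ R0 δ z) =ᶠ[𝓝 z] fun z => φ z := by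
  filter_upwards [hO.mem_nhds hz] with w hw
  rw [uf_in hw]

theorem curv_in (hO : IsOpen Ω) {z : ℂ} (hz : z ∈ Ω) (f : M → ℝ) :
    curv (fun z => Uf Ω φ Γ R0 δ z + f (Up Ω pr Γ R0 δ z)) z = curv (fun z => φ z + f (pr z)) z :=
  curv_congr (ev_pf hO hz f)

theorem smooth_in {f : M → ℝ}
    (h : ContDiffOn ℝ ∞ (fun z => f (Up Ω pr Γ R0 δ z)) (Uo Ω R0 δ)) :
    ContDiffOn ℝ ∞ (fun z => f (pr z)) Ω :=
  (h.mono un_sub).congr fun z hz => by rw [up_in hz]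

theorem area_in {f : M → ℝ} {μ : Measure M}
    (h : IsArea (Uo Ω R0 δ) (fun z => Uf Ω φ Γ R0 δ z + f (Up Ω pr Γ R0 δ z)) (Up Ω pr Γ R0 δ) μ) :
    IsArea Ω (fun z => φ z + f (pr z)) pr μ := by
  intro B hB hBs hi
  have e : Up Ω pr Γ R0 δ '' B = pr '' B := image_congr fun z hz => up_in (hBs hz)
  have hi' : InjOn (Up Ω pr Γ R0 δ) B := hi.congr fun z hz => (up_in (hBs hz)).symm
  rw [← e, h B hB (hBs.trans un_sub) hi']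
  refine setLIntegral_congr_fun hB fun z hz => ?_
  simp only
  rw [uf_in (hBs hz), up_in (hBs hz)]

theorem eb_in (hO : IsOpen Ω) {f : M → ℝ} {μ : Measure M} {u : ℕ → M → ℝ} {lam : ℕ → ℝ}
    (h : EB (Uo Ω R0 δ) (fun z => Uf Ω φ Γ R0 δ z + f (Up Ω pr Γ R0 δ z)) (Up Ω pr Γ R0 δ)
      μ u lam) : EB Ω (fun z => φ z + f (pr z)) pr μ u lam := by
  refine ⟨fun j => ⟨smooth_in (h.eig j).1, fun z hz => ?_⟩, h.mono, h.orth, h.total⟩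
  have h1 := (h.eig j).2 z (un_sub hz)
  obtain ⟨e1, e2⟩ := pp_congr (ev_f (R0 := R0) (δ := δ) (Γ := Γ) (pr := pr) hO hz (u j))
  rw [e1, e2] at h1
  beta_reduce at h1 ⊢
  rw [up_in hz, uf_in hz] at h1
  exact h1

theorem eb_out (hUT : IsUT Ω φ pr q) (hCg : Cg Ω pr Γ δ) (hR : ∀ z ∈ Ω, z.re < R0) {f : M → ℝ}
    (hf : ContDiffOn ℝ ∞ (fun z => f (pr z)) Ω) {μ : Measure M} {u : ℕ → M → ℝ} {lam : ℕ → ℝ}
    (h : EB Ω (fun z => φ z + f (pr z)) pr μ u lam) :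
    EB (Uo Ω R0 δ) (fun z => Uf Ω φ Γ R0 δ z + f (Up Ω pr Γ R0 δ z)) (Up Ω pr Γ R0 δ)
      μ u lam := by
  obtain ⟨-, -, -, h4⟩ := tUn2 M P Ω φ pr q Γ δ R0 hUT hCg hR
  exact ⟨fun j => h4 f (lam j) (u j) hf (h.eig j), h.mono, h.orth, h.total⟩

/-- the transfer of the conclusions -/
theorem spec_tr (hUT : IsUT Ω φ pr q) (hCg : Cg Ω pr Γ δ) (hR : ∀ z ∈ Ω, z.re < R0)
    {x0 : ℝ} {w : ℂ → ℝ} {c r0 : ℝ} {q' : Y → P}
    (hSu : Su (Uo Ω R0 δ) (Uf Ω φ Γ R0 δ) (Up Ω pr Γ R0 δ) q' x0 δ w c r0)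
    {A : (M → ℝ) → ℝ} {f : M → ℝ} (hf : ContDiffOn ℝ ∞ (fun z => f (pr z)) Ω)
    (h : Spec (Uo Ω R0 δ) (Uf Ω φ Γ R0 δ) (Up Ω pr Γ R0 δ) A f) : Spec Ω φ pr A f := by
  obtain ⟨-, -, hsm, -⟩ := tUn2 M P Ω φ pr q Γ δ R0 hUT hCg hR
  obtain ⟨μ0, D, Φ, hBu⟩ := bu_ex tBase hSu
  have harea : ∀ f : M → ℝ, ContDiffOn ℝ ∞ (fun z => f (pr z)) Ω → ∀ μ : Measure M,
      IsArea Ω (fun z => φ z + f (pr z)) pr μ →
      IsArea (Uo Ω R0 δ) (fun z => Uf Ω φ Γ R0 δ z + f (Up Ω pr Γ R0 δ z)) (Up Ω pr Γ R0 δ) μ := by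
    intro f hf μ hμ
    obtain ⟨-, ⟨μ', h1, -⟩, -⟩ := all_facts hSu hBu (hsm f hf)
    have h2 := Pool.Agent.H240.NL.area_unique (ut_smooth hUT hf) hμ (area_in h1)
    rw [h2]
    exact h1
  refine ⟨fun μ hμ u lam hu => ?_, fun T C ε' Λ0 hε' => ?_, fun C ε' Λ0 hε' => ?_⟩
  · exact h.scar μ (harea f hf μ hμ) u lam (eb_out hUT hCg hR hf hu)
  · obtain ⟨Λ1, η, hη, h1⟩ := h.win T C ε' Λ0 hε'
    exact ⟨Λ1, η, hη, fun f' hf' hfη μ hμ u lam hu => h1 f' (hsm f' hf') hfη μ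
      (harea f' hf' μ hμ) u lam (eb_out hUT hCg hR hf' hu)⟩
  · obtain ⟨Λ1, η, hη, h1⟩ := h.val C ε' Λ0 hε'
    exact ⟨Λ1, η, hη, fun f' hf' hfη μ hμ u lam hu => h1 f' (hsm f' hf') hfη μ
      (harea f' hf' μ hμ) u lam (eb_out hUT hCg hR hf' hu)⟩

/-- the closed geodesic is a null set -/
theorem null_tr (hUT : IsUT Ω φ pr q) (hCg : Cg Ω pr Γ δ) (hR : ∀ z ∈ Ω, z.re < R0)
    {x0 : ℝ} {w : ℂ → ℝ} {c r0 : ℝ} {q' : Y → P}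
    (hSu : Su (Uo Ω R0 δ) (Uf Ω φ Γ R0 δ) (Up Ω pr Γ R0 δ) q' x0 δ w c r0)
    {f : M → ℝ} (hf : ContDiffOn ℝ ∞ (fun z => f (pr z)) Ω) {μ : Measure M}
    (hμ : IsArea Ω (fun z => φ z + f (pr z)) pr μ) : μ (Gm (Up Ω pr Γ R0 δ) x0) = 0 := by
  obtain ⟨-, -, hsm, -⟩ := tUn2 M P Ω φ pr q Γ δ R0 hUT hCg hR
  obtain ⟨μ0, D, Φ, hBu⟩ := bu_ex tBase hSu
  obtain ⟨-, ⟨μ', h1, -⟩, h3⟩ := all_facts hSu hBu (hsm f hf)
  have h2 := Pool.Agent.H240.NL.area_unique (ut_smooth hUT hf) hμ (area_in h1)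
  rw [h2]
  exact (h3 μ' h1).2.1

/-- the measures and bases for all metrics -/
theorem all_tr (hUT : IsUT Ω φ pr q) (hCg : Cg Ω pr Γ δ) (hR : ∀ z ∈ Ω, z.re < R0)
    {x0 : ℝ} {w : ℂ → ℝ} {c r0 : ℝ} {q' : Y → P}
    (hSu : Su (Uo Ω R0 δ) (Uf Ω φ Γ R0 δ) (Up Ω pr Γ R0 δ) q' x0 δ w c r0)
    {f : M → ℝ} (hf : ContDiffOn ℝ ∞ (fun z => f (pr z)) Ω) :
    ∃ μ : Measure M, IsArea Ω (fun z => φ z + f (pr z)) pr μ ∧ IsFiniteMeasure μ ∧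
      ∃ u lam, EB Ω (fun z => φ z + f (pr z)) pr μ u lam := by
  obtain ⟨-, -, hsm, -⟩ := tUn2 M P Ω φ pr q Γ δ R0 hUT hCg hR
  obtain ⟨μ0, D, Φ, hBu⟩ := bu_ex tBase hSu
  obtain ⟨-, ⟨μ', h1, u, lam, h2⟩, h3⟩ := all_facts hSu hBu (hsm f hf)
  exact ⟨μ', area_in h1, (h3 μ' h1).1, u, lam, eb_in hUT.opn h2⟩

/-! ### the metric in the strip -/

theorem sh_ev (hR : ∀ z ∈ Ω, z.re < R0) {z : ℂ} (hz : z ∈ Sx (R0 + δ) δ) :
    Uf Ω φ Γ R0 δ =ᶠ[𝓝 z] sF (R0 + δ) (Pb φ Γ) := by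
  have hO : IsOpen (Sx (R0 + δ) δ) := isOpen_lt (by fun_prop) continuous_const
  filter_upwards [hO.mem_nhds hz] with w hw
  exact uf_out hR hw

theorem sh_mem {z : ℂ} (hz : z ∈ Sx (R0 + δ) δ) : z - ((R0 + δ : ℝ) : ℂ) ∈ Sx 0 δ := by
  show |(z - ((R0 + δ : ℝ) : ℂ)).re - 0| < δ
  rw [Complex.sub_re, Complex.ofReal_re, sub_zero]
  exact hz

theorem px_shift (φ : ℂ → ℝ) (c : ℝ) : px (sF c φ) = sF c (px φ) := by
  funext z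
  show fderiv ℝ (fun w => φ (w - c)) z 1 = fderiv ℝ φ (z - c) 1
  rw [fderiv_comp_sub]

theorem py_shift (φ : ℂ → ℝ) (c : ℝ) : py (sF c φ) = sF c (py φ) := by
  funext z
  show fderiv ℝ (fun w => φ (w - c)) z Complex.I = fderiv ℝ φ (z - c) Complex.I
  rw [fderiv_comp_sub]

theorem bd_shift (hR : ∀ z ∈ Ω, z.re < R0) {k K e : ℝ} (h : Bd (Pb φ Γ) 0 δ k K e) :
    Bd (Uf Ω φ Γ R0 δ) (R0 + δ) δ k K e := by
  have hre : ∀ z : ℂ, (z - ((R0 + δ : ℝ) : ℂ)).re - 0 = z.re - (R0 + δ) := fun z => by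
    rw [Complex.sub_re, Complex.ofReal_re, sub_zero]
  refine ⟨?_, fun z hz => ?_, fun z hz => ?_, fun z hz => ?_, fun z hz => ?_, fun z hz => ?_⟩
  · have h1 : ContDiffOn ℝ ∞ (fun z : ℂ => Pb φ Γ (z - ((R0 + δ : ℝ) : ℂ))) (Sx (R0 + δ) δ) :=
      h.sm.comp (contDiff_id.sub contDiff_const).contDiffOn fun z hz => sh_mem hz
    exact h1.congr fun z hz => uf_out hR hz
  · have hz' : z + 2 * π * Complex.I ∈ Sx (R0 + δ) δ := by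
      show |(z + 2 * π * Complex.I).re - (R0 + δ)| < δ
      have : (z + 2 * π * Complex.I).re = z.re := by simp
      rw [this]
      exact hz
    rw [uf_out hR hz', uf_out hR hz]
    have e : z + 2 * π * Complex.I - ((R0 + δ : ℝ) : ℂ) =
        z - ((R0 + δ : ℝ) : ℂ) + 2 * π * Complex.I := by ring
    rw [e]
    exact h.per _ (sh_mem hz)
  · have h1 := h.lap _ (sh_mem hz)
    have h2 : Lp2 (Uf Ω φ Γ R0 δ) z = Lp2 (Pb φ Γ) (z - ((R0 + δ : ℝ) : ℂ)) := by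
      obtain ⟨e1, e2⟩ := pp_congr (sh_ev (φ := φ) (Γ := Γ) hR hz)
      unfold Lp2
      rw [e1, e2, px_shift, px_shift, py_shift, py_shift]
      rfl
    rw [h2]
    exact h1
  · have h1 := h.low _ (sh_mem hz)
    rw [hre] at h1
    rw [uf_out hR hz]
    exact h1
  · have h1 := h.upp _ (sh_mem hz)
    rw [hre] at h1
    rw [uf_out hR hz]
    exact h1
  · have h1 := h.grad _ (sh_mem hz)
    rw [hre] at h1
    have e1 : px (Uf Ω φ Γ R0 δ) z = px (Pb φ Γ) (z - ((R0 + δ : ℝ) : ℂ)) := by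
      have := (sh_ev (φ := φ) (Γ := Γ) hR hz).fderiv_eq (𝕜 := ℝ)
      unfold px
      rw [this]
      exact congrFun (px_shift (Pb φ Γ) (R0 + δ)) z
    have e2 : py (Uf Ω φ Γ R0 δ) z = py (Pb φ Γ) (z - ((R0 + δ : ℝ) : ℂ)) := by
      have := (sh_ev (φ := φ) (Γ := Γ) hR hz).fderiv_eq (𝕜 := ℝ)
      unfold py
      rw [this]
      exact congrFun (py_shift (Pb φ Γ) (R0 + δ)) z
    rw [e1, e2]
    exact h1

/-- the metric near the geodesic in the chart -/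
theorem pb_near (hR : ∀ z ∈ Ω, z.re < R0) {w : ℂ → ℝ} {c r0 : ℝ} {q' : Y → P}
    (hSu : Su (Uo Ω R0 δ) (Uf Ω φ Γ R0 δ) (Up Ω pr Γ R0 δ) q' (R0 + δ) δ w c r0) {ε : ℝ}
    {H : ℝ → ℝ} {cH : ℝ} (hH : Pf2 δ ε H cH) {ζ : ℂ} (hζ : |ζ.re| ≤ r0) :
    Pb (fun z => φ z + Vm (Up Ω pr Γ R0 δ) (R0 + δ) δ w c H cH (pr z)) Γ ζ = cH + H ζ.re := by
  obtain ⟨g1, g2, g3⟩ := hSu.r0p
  set z : ℂ := ζ + ((R0 + δ : ℝ) : ℂ) with hz
  have hre : z.re - (R0 + δ) = ζ.re := by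
    rw [hz, Complex.add_re, Complex.ofReal_re]
    ring
  have hzS : z ∈ Sx (R0 + δ) δ := by
    show |z.re - (R0 + δ)| < δ
    rw [hre]
    linarith
  have hzz : z - ((R0 + δ : ℝ) : ℂ) = ζ := by
    rw [hz]
    ring
  have h1 := hSu.near hH.sm hH.far cH (z := z) (by rw [hre]; exact hζ)
  rw [uf_out hR hzS, up_out hR hzS, hzz, hre] at h1
  rw [← h1]
  unfold Pb
  ring

end

end Pool.Agent.H240.GV
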